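import Pool.Agent.Lib.MP_8f60dc_al.NX.Fin

/-!
# The theorem for no-exit graphs
-/

set_option autoImplicit false
set_option linter.unusedSectionVars false

namespace Pool.Agent.Lib.MP_8f60dc_al

noncomputable section

/-- The inverse of a bijective homomorphism. -/
theorem exists_inv {R S : Type*} [NonUnitalRing R] [Module ℂ R] [NonUnitalRing S] [Module ℂ S]
    (f : R →ₙₐ[ℂ] S) (hf : Function.Bijective f) :
    ∃ g : S →ₙₐ[ℂ] R, (∀ x, g (f x) = x) ∧ ∀ y, f (g y) = y := by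
  obtain ⟨g, h1, h2⟩ := Function.bijective_iff_has_inverse.1 hf
  exact ⟨NonUnitalAlgHom.inverse f g h1 h2, h1, h2⟩

/-- The inverse of a bijective *-homomorphism. -/
theorem exists_sinv {R S : Type*} [NonUnitalRing R] [StarRing R] [Module ℂ R] [NonUnitalRing S]
    [StarRing S] [Module ℂ S] (f : R →⋆ₙₐ[ℂ] S) (hf : Function.Bijective f) :
    ∃ g : S →⋆ₙₐ[ℂ] R, (∀ x, g (f x) = x) ∧ ∀ y, f (g y) = y := by
  obtain ⟨g, h1, h2⟩ := exists_inv (f : R →ₙₐ[ℂ] S) hf
  change ∀ x, g (f x) = x at h1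
  change ∀ y, f (g y) = y at h2
  refine ⟨{ g with map_star' := ?_ }, h1, h2⟩
  intro y
  change g (star y) = star (g y)
  apply hf.1
  rw [h2, map_star, h2]

theorem main_cut {E F : DGraph} [Countable E.V] [Countable E.Ed] [Countable F.V] [Countable F.Ed]
    (cE : Cut E) (cF : Cut F) {A B : Type} [NonUnitalCStarAlgebra A] [NonUnitalCStarAlgebra B]
    {l : Fam E A} {m : Fam F B} (hA : IsGraphCStar E A l) (hB : IsGraphCStar F B m)
    (φ : LPA E →ₙₐ[ℂ] LPA F) (hφ : Function.Bijective φ) : Nonempty (FinD cE cF l m) := by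
  obtain ⟨φ', h1, h2⟩ := exists_inv φ hφ
  have : Countable cE.G.V := inferInstanceAs (Countable E.V)
  have : Countable cF.G.V := inferInstanceAs (Countable F.V)
  have : Countable cE.G.Ed := inferInstanceAs (Countable {e : E.Ed // e ∉ cE.D})
  have : Countable cF.G.Ed := inferInstanceAs (Countable {e : F.Ed // e ∉ cF.D})
  let I : LIso cE cF := ⟨φ, φ', h1, h2, lf_P_ne _, lf_P_ne _⟩
  obtain ⟨σ, β, γ, lr, rl, hσ⟩ := I.recognition
  have ha := cE.res_ck hA.ck
  have hb := cF.res_ck hB.ck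
  have hneA : ∀ v, (cE.res l).P v ≠ 0 := fun v => (cstar_P_ne hA v : l.P v ≠ 0)
  have hneB : ∀ v, (cF.res m).P v ≠ 0 := fun v => (cstar_P_ne hB v : m.P v ≠ 0)
  obtain ⟨ρA, a1, a2⟩ := exists_inv (toImg ha) ⟨toImg_inj ha cE.acyc hneA, toImg_surj ha⟩
  obtain ⟨ρB, b1, b2⟩ := exists_inv (toImg hb) ⟨toImg_inj hb cF.acyc hneB, toImg_surj hb⟩
  obtain ⟨sa, hsa⟩ := img_count ha
  obtain ⟨sb, hsb⟩ := img_count hb
  obtain ⟨ψ, hψ, hψJ⟩ := straighten (img_pieces ha cE.acyc) (img_pieces hb cF.acyc) hsa hsb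
    ((toImg hb).comp (β.comp ρA)) ((toImg ha).comp (γ.comp ρB)) (fun x => by
      change toImg ha (γ (ρB (toImg hb (β (ρA x))))) = x
      rw [b1, lr, a2]) (fun x => by
      change toImg hb (β (ρA (toImg ha (γ (ρB x))))) = x
      rw [a1, rl, b2])
  obtain ⟨ψ', c1, c2⟩ := exists_sinv ψ hψ
  have hs : ∀ e : {e // e ∈ cE.D}, ∃ s : img hb, s * star s = ψ ((imf ha).P (E.src e.1)) ∧
      star s * s = (imf hb).P (F.src (σ e).1) := by
    intro e
    apply exists_pi
    · rw [← map_star, (imf_ck ha).sa]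
    · rw [← map_mul, (imf_lv ha).idem]
    · exact (imf_ck hb).sa _
    · exact (imf_lv hb).idem _
    · intro h
      apply hneA (E.src e.1)
      have h3 : (imf ha).P (E.src e.1) = 0 := by
        rw [← c1 ((imf ha).P (E.src e.1)), h, map_zero]
      have h4 := coe_P ha (E.src e.1)
      rw [h3] at h4
      exact h4.symm
    · apply hψJ _ ⟨idl_left, idl_right⟩
      change toImg hb (β (ρA (toImg ha ((lf cE.G).P (E.src e.1))))) ∈ _
      rw [a1]
      have h3 := idl_map (toImg hb) (hσ e)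
      rw [Set.image_singleton] at h3
      exact h3
    · intro x
      obtain ⟨c, hc⟩ := img_corner ha (cE.sink e.2) (ψ' x)
      refine ⟨c, ?_⟩
      have h3 := congrArg ψ hc
      rw [map_mul, map_mul, map_smul, c2] at h3
      exact h3
    · intro x
      exact img_corner hb (cF.sink (σ e).2) x
  choose s hs1 hs2 using hs
  exact ⟨⟨hA, hB, ψ, ψ', c1, c2, σ, s, hs1, hs2⟩⟩

end

end Pool.Agent.Lib.MP_8f60dc_al
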