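import Pool.Agent.Lib.MP_8f60dc_al.NX.Ev

/-!
# The span of the Leavitt path algebra of a cut graph, and the corners of the cyclic vertices
-/

set_option autoImplicit false

namespace Pool.Agent.Lib.MP_8f60dc_al

open LaurentPolynomial
open scoped LaurentPolynomial

noncomputable section

variable {E : DGraph} (c : Cut E)

/-- Laurent polynomials in the unit of a cycle. -/
def Cut.ps {e : E.Ed} (he : e ∈ c.D) : ℂ[T;T⁻¹] →ₙₐ[ℂ] LPA E :=
  (c.cu (lf_leavitt (E := E)) he).psi

/-- The words through a cycle. -/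
def Cut.cycSet : Set (LPA E) :=
  {y | ∃ (e : E.Ed) (he : e ∈ c.D) (p q : List c.G.Ed) (f : ℂ[T;T⁻¹]),
    y = (c.res (lf E)).SP (E.src e) p * (c.ps he f * (c.res (lf E)).TP (E.src e) q)}

/-- The span. -/
def Cut.X : Submodule ℂ (LPA E) := Submodule.span ℂ (wordSet (c.res (lf E)) ∪ c.cycSet)

theorem Cut.rl : IsLeavitt (c.res (lf E)) := c.res_leavitt lf_leavitt

theorem Cut.word_le : Submodule.span ℂ (wordSet (c.res (lf E))) ≤ c.X :=
  Submodule.span_mono Set.subset_union_left

theorem Cut.cyc_mem {y : LPA E} (hy : y ∈ c.cycSet) : y ∈ c.X :=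
  Submodule.subset_span (Or.inr hy)

theorem Cut.X_P (u : E.V) : ∀ x ∈ c.X, (lf E).P u * x ∈ c.X := by
  apply lmul_span
  rintro y (hy | ⟨e, he, p, q, f, rfl⟩)
  · exact c.word_le (P_word c.rl u y (Submodule.subset_span hy))
  · rw [← mul_assoc]
    rcases c.rl.P_SP_or u (E.src e) p with h | h
    · change (lf E).P u * _ = _ at h
      rw [h]
      exact c.cyc_mem ⟨e, he, p, q, f, rfl⟩
    · change (lf E).P u * _ = _ at h
      rw [h, zero_mul]
      exact Submodule.zero_mem _

theorem Cut.X_S (g : c.G.Ed) : ∀ x ∈ c.X, (c.res (lf E)).S g * x ∈ c.X := by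
  apply lmul_span
  rintro y (hy | ⟨e, he, p, q, f, rfl⟩)
  · exact c.word_le (S_word g y (Submodule.subset_span hy))
  · rw [← mul_assoc]
    exact c.cyc_mem ⟨e, he, g :: p, q, f, rfl⟩

theorem Cut.X_T (g : c.G.Ed) : ∀ x ∈ c.X, (c.res (lf E)).T g * x ∈ c.X := by
  apply lmul_span
  rintro y (hy | ⟨e, he, p, q, f, rfl⟩)
  · exact c.word_le (T_word c.rl g y (Submodule.subset_span hy))
  · cases p with
    | nil =>
      rw [Fam.SP_nil, ← mul_assoc, c.rl.TP0 (c.sink he g), zero_mul]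
      exact Submodule.zero_mem _
    | cons k p =>
      rw [Fam.SP_cons, mul_assoc]
      by_cases h : g = k
      · subst h
        rw [c.rl.TS_assoc]
        exact c.X_P _ _ (c.cyc_mem ⟨e, he, p, q, f, rfl⟩)
      · rw [c.rl.TS0_assoc h]
        exact Submodule.zero_mem _

theorem Cut.X_SP (v : E.V) : ∀ (p : List c.G.Ed), ∀ x ∈ c.X,
    (c.res (lf E)).SP v p * x ∈ c.X
  | [], x, hx => c.X_P v x hx
  | g :: p, x, hx => by
    rw [Fam.SP_cons, mul_assoc]
    exact c.X_S g _ (Cut.X_SP v p x hx)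

theorem Cut.X_TP (v : E.V) : ∀ (p : List c.G.Ed), ∀ x ∈ c.X,
    (c.res (lf E)).TP v p * x ∈ c.X
  | [], x, hx => c.X_P v x hx
  | g :: p, x, hx => by
    rw [Fam.TP_cons, mul_assoc]
    exact Cut.X_TP v p _ (c.X_T g x hx)

/-- Left multiplication by a Laurent polynomial of a cycle. -/
theorem Cut.X_ps {e : E.Ed} (he : e ∈ c.D) (f : ℂ[T;T⁻¹]) : ∀ x ∈ c.X, c.ps he f * x ∈ c.X := by
  have hcu := c.cu (lf_leavitt (E := E)) he
  have hP : c.ps he f = c.ps he f * (lf E).P (E.src e) := (hcu.psi_p f).symm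
  have hP' : (lf E).P (E.src e) * c.ps he f = c.ps he f := hcu.p_psi f
  apply lmul_span
  rintro y (⟨v, p, q, rfl⟩ | ⟨e', he', p, q, g, rfl⟩)
  · by_cases h : v ≠ E.src e ∨ p ≠ []
    · have h1 : (lf E).P (E.src e) * (c.res (lf E)).SP v p = 0 :=
        c.rl.sink_SP (c.sink he) v p h
      rw [← mul_assoc, hP, mul_assoc (c.ps he f), h1, mul_zero, zero_mul]
      exact Submodule.zero_mem _
    · push Not at h
      obtain ⟨rfl, rfl⟩ := h
      apply c.cyc_mem
      refine ⟨e, he, [], q, f, ?_⟩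
      rw [Fam.SP_nil, ← mul_assoc]
      change c.ps he f * (lf E).P (E.src e) * _ = (lf E).P (E.src e) * _
      rw [← hP, ← mul_assoc, hP']
  · by_cases h : E.src e' ≠ E.src e ∨ p ≠ []
    · have h1 : (lf E).P (E.src e) * (c.res (lf E)).SP (E.src e') p = 0 :=
        c.rl.sink_SP (c.sink he) _ p h
      rw [← mul_assoc, hP, mul_assoc (c.ps he f), h1, mul_zero, zero_mul]
      exact Submodule.zero_mem _
    · push Not at h
      obtain ⟨h1, rfl⟩ := h
      have h2 : e' = e := c.uniq e he e' h1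
      subst h2
      apply c.cyc_mem
      refine ⟨e', he, [], q, f * g, ?_⟩
      rw [Fam.SP_nil, ← mul_assoc, ← mul_assoc]
      change c.ps he f * (lf E).P (E.src e') * c.ps he g * _ = (lf E).P (E.src e') * (c.ps he (f * g) * _)
      rw [← hP, ← map_mul, ← mul_assoc]
      have h3 : (lf E).P (E.src e') * c.ps he (f * g) = c.ps he (f * g) := hcu.p_psi _
      rw [h3]

theorem Cut.X_top (x : LPA E) : x ∈ c.X := by
  have hext := c.ext_z (lf_leavitt (E := E))
  have hSe : ∀ e, (lf E).S e = (c.ext (c.res (lf E)) (c.z (lf E)) (c.z' (lf E))).S e := by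
    intro e
    rw [hext]
  have hTe : ∀ e, (lf E).T e = (c.ext (c.res (lf E)) (c.z (lf E)) (c.z' (lf E))).T e := by
    intro e
    rw [hext]
  have hz : ∀ {e : E.Ed} (he : e ∈ c.D), c.z (lf E) e = c.ps he (T 1) := fun he =>
    (CU.psi_T1 _).symm
  have hz' : ∀ {e : E.Ed} (he : e ∈ c.D), c.z' (lf E) e = c.ps he (T (-1)) := fun he =>
    (CU.psi_Tm1 _).symm
  have hP : ∀ v, (lf E).P v ∈ c.X := fun v => c.word_le (P_mem_word c.rl v)
  have mS : ∀ e, ∀ x ∈ c.X, (lf E).S e * x ∈ c.X := by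
    intro e x hx
    by_cases he : e ∈ c.D
    · rw [hSe e, c.ext_S _ _ _ he, hz he, mul_assoc]
      exact c.X_ps he _ _ (c.X_TP _ _ _ hx)
    · exact c.X_S ⟨e, he⟩ x hx
  have mT : ∀ e, ∀ x ∈ c.X, (lf E).T e * x ∈ c.X := by
    intro e x hx
    by_cases he : e ∈ c.D
    · rw [hTe e, c.ext_T _ _ _ he, hz' he, mul_assoc]
      exact c.X_SP _ _ _ (c.X_ps he _ _ hx)
    · exact c.X_T ⟨e, he⟩ x hx
  refine lpa_top c.X hP ?_ ?_ c.X_P mS mT x
  · intro e
    rw [← lf_leavitt.sp e]
    exact mS e _ (hP _)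
  · intro e
    rw [← lf_leavitt.tp e]
    exact mT e _ (hP _)

/-- The corner of a cyclic vertex. -/
theorem Cut.corner {e : E.Ed} (he : e ∈ c.D) (x : LPA E) :
    ∃ f, (lf E).P (E.src e) * x * (lf E).P (E.src e) = c.ps he f := by
  have hcu := c.cu (lf_leavitt (E := E)) he
  suffices h : (lf E).P (E.src e) * x * (lf E).P (E.src e) ∈
      LinearMap.range (c.ps he : ℂ[T;T⁻¹] →ₗ[ℂ] LPA E) by
    obtain ⟨f, hf⟩ := h
    exact ⟨f, hf.symm⟩
  have h1 := c.X_top x
  unfold Cut.X at h1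
  have h0 : (0 : LPA E) ∈ LinearMap.range (c.ps he : ℂ[T;T⁻¹] →ₗ[ℂ] LPA E) :=
    Submodule.zero_mem _
  induction h1 using Submodule.span_induction with
  | mem y hy =>
    rcases hy with ⟨v, p, q, rfl⟩ | ⟨e', he', p, q, g, rfl⟩
    · by_cases h : v ≠ E.src e ∨ p ≠ []
      · have h1 : (lf E).P (E.src e) * (c.res (lf E)).SP v p = 0 :=
          c.rl.sink_SP (c.sink he) v p h
        rw [← mul_assoc, h1, zero_mul, zero_mul]
        exact h0
      · push Not at h
        obtain ⟨rfl, rfl⟩ := h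
        by_cases h' : (E.src e ≠ E.src e) ∨ q ≠ []
        · have h1 : (c.res (lf E)).TP (E.src e) q * (lf E).P (E.src e) = 0 :=
            c.rl.TP_sink (c.sink he) _ q h'
          rw [mul_assoc, mul_assoc, h1, mul_zero, mul_zero]
          exact h0
        · push Not at h'
          obtain ⟨-, rfl⟩ := h'
          refine ⟨1, ?_⟩
          change c.ps he 1 = (lf E).P _ * ((lf E).P _ * (lf E).P _) * (lf E).P _
          rw [hcu.pp, hcu.pp, hcu.pp]
          exact hcu.psi_one
    · by_cases h : E.src e' ≠ E.src e ∨ p ≠ []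
      · have h1 : (lf E).P (E.src e) * (c.res (lf E)).SP (E.src e') p = 0 :=
          c.rl.sink_SP (c.sink he) _ p h
        rw [← mul_assoc, h1, zero_mul, zero_mul]
        exact h0
      · push Not at h
        obtain ⟨h1, rfl⟩ := h
        have h2 : e' = e := c.uniq e he e' h1
        subst h2
        by_cases h' : (E.src e' ≠ E.src e') ∨ q ≠ []
        · have h1 : (c.res (lf E)).TP (E.src e') q * (lf E).P (E.src e') = 0 :=
            c.rl.TP_sink (c.sink he) _ q h'
          rw [mul_assoc, mul_assoc, mul_assoc, h1, mul_zero, mul_zero, mul_zero]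
          exact h0
        · push Not at h'
          obtain ⟨-, rfl⟩ := h'
          refine ⟨g, ?_⟩
          change c.ps he g = (lf E).P _ * ((lf E).P _ * (c.ps he g * (lf E).P _)) * (lf E).P _
          have h3 : (lf E).P (E.src e') * c.ps he g = c.ps he g := hcu.p_psi g
          have h4 : c.ps he g * (lf E).P (E.src e') = c.ps he g := hcu.psi_p g
          rw [h4, h3, h3, h4]
  | zero => rw [mul_zero, zero_mul]; exact h0
  | add x y _ _ h1 h2 => rw [mul_add, add_mul]; exact Submodule.add_mem _ h1 h2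
  | smul t x _ h => rw [mul_smul_comm, smul_mul_assoc]; exact Submodule.smul_mem _ t h

/-- Two different cyclic vertices. -/
theorem Cut.corner2 {e e' : E.Ed} (he : e ∈ c.D) (he' : e' ∈ c.D) (hne : e ≠ e') (x : LPA E) :
    (lf E).P (E.src e) * x * (lf E).P (E.src e') = 0 := by
  have hs : E.src e ≠ E.src e' := fun h => hne (c.uniq e' he' e h)
  have h1 := c.X_top x
  unfold Cut.X at h1
  induction h1 using Submodule.span_induction with
  | mem y hy =>
    rcases hy with ⟨v, p, q, rfl⟩ | ⟨e'', he'', p, q, g, rfl⟩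
    · by_cases h : v ≠ E.src e ∨ p ≠ []
      · have h1 : (lf E).P (E.src e) * (c.res (lf E)).SP v p = 0 :=
          c.rl.sink_SP (c.sink he) v p h
        rw [← mul_assoc, h1, zero_mul, zero_mul]
      · push Not at h
        obtain ⟨rfl, rfl⟩ := h
        have h1 : (c.res (lf E)).TP (E.src e) q * (lf E).P (E.src e') = 0 :=
          c.rl.TP_sink (c.sink he') _ q (Or.inl hs)
        rw [mul_assoc, mul_assoc, h1, mul_zero, mul_zero]
    · by_cases h : E.src e'' ≠ E.src e ∨ p ≠ []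
      · have h1 : (lf E).P (E.src e) * (c.res (lf E)).SP (E.src e'') p = 0 :=
          c.rl.sink_SP (c.sink he) _ p h
        rw [← mul_assoc, h1, zero_mul, zero_mul]
      · push Not at h
        obtain ⟨h1, rfl⟩ := h
        have h1 : (c.res (lf E)).TP (E.src e'') q * (lf E).P (E.src e') = 0 :=
          c.rl.TP_sink (c.sink he') _ q (Or.inl (h1 ▸ hs))
        rw [mul_assoc, mul_assoc, mul_assoc, h1, mul_zero, mul_zero, mul_zero]
  | zero => rw [mul_zero, zero_mul]
  | add x y _ _ h1 h2 => rw [mul_add, add_mul, h1, h2, add_zero]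
  | smul t x _ h => rw [mul_smul_comm, smul_mul_assoc, h, smul_zero]

/-- The corner of a cyclic vertex is commutative. -/
theorem Cut.corner_comm {e : E.Ed} (he : e ∈ c.D) (x y : LPA E)
    (hx : (lf E).P (E.src e) * x * (lf E).P (E.src e) = x)
    (hy : (lf E).P (E.src e) * y * (lf E).P (E.src e) = y) : x * y = y * x := by
  obtain ⟨f, hf⟩ := c.corner he x
  obtain ⟨g, hg⟩ := c.corner he y
  rw [hx] at hf
  rw [hy] at hg
  rw [hf, hg, ← map_mul, ← map_mul, mul_comm]

/-- Evaluation on the corner. -/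
theorem Cut.ev_ps {e : E.Ed} (he : e ∈ c.D) (a : E.Ed → ℂˣ) (f : ℂ[T;T⁻¹]) :
    c.ev a (c.ps he f) = (eval₂ (RingHom.id ℂ) (a e) f) • (lf c.G).P (E.src e) :=
  CU.eval _ (c.ev a) _ (a e) (c.ev_P a _) (c.ev_z a he) f

/-- The corner of a cyclic vertex is a domain. -/
theorem Cut.corner_domain {e : E.Ed} (he : e ∈ c.D) (hP : (lf c.G).P (E.src e) ≠ 0)
    {x y : LPA E} (hx : (lf E).P (E.src e) * x * (lf E).P (E.src e) = x)
    (hy : (lf E).P (E.src e) * y * (lf E).P (E.src e) = y) (h : x * y = 0) : x = 0 ∨ y = 0 := by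
  obtain ⟨f, hf⟩ := c.corner he x
  obtain ⟨g, hg⟩ := c.corner he y
  rw [hx] at hf
  rw [hy] at hg
  have h1 : f * g = 0 := by
    apply laurent_eq_zero
    intro a
    have h2 := c.ev_ps he (fun _ => a) (f * g)
    rw [map_mul, ← hf, ← hg, h, map_zero] at h2
    rcases smul_eq_zero.1 h2.symm with h3 | h3
    · exact h3
    · exact absurd h3 hP
  rcases mul_eq_zero.1 h1 with h2 | h2
  · left
    rw [hf, h2, map_zero]
  · right
    rw [hg, h2, map_zero]

/-- Laurent polynomials embed in the corner. -/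
theorem Cut.ps_inj {e : E.Ed} (he : e ∈ c.D) (hP : (lf c.G).P (E.src e) ≠ 0) (f : ℂ[T;T⁻¹])
    (h : c.ps he f = 0) : f = 0 := by
  apply laurent_eq_zero
  intro a
  have h2 := c.ev_ps he (fun _ => a) f
  rw [h, map_zero] at h2
  rcases smul_eq_zero.1 h2.symm with h3 | h3
  · exact h3
  · exact absurd h3 hP

end

end Pool.Agent.Lib.MP_8f60dc_al
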