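import Pool.Agent.Lib.MP_8f60dc_al.NX.Words

/-!
# Cutting the cycles of a no-exit graph
-/

set_option autoImplicit false

namespace Pool.Agent.Lib.MP_8f60dc_al

open Relation

/-- Deleting edges. -/
abbrev DGraph.del (E : DGraph) (D : Set E.Ed) : DGraph where
  V := E.V
  Ed := {e : E.Ed // e ∉ D}
  src e := E.src e.1
  rng e := E.rng e.1

/-- A cut: a set `D` of edges, each of which is the only edge with its source, such that the
graph without `D` is acyclic and every edge of `D` is completed to a cycle by a path of the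
remaining graph whose vertices emit only one edge. -/
structure Cut (E : DGraph) where
  D : Set E.Ed
  uniq : ∀ e ∈ D, ∀ f, E.src f = E.src e → f = e
  path : E.Ed → List (E.del D).Ed
  hpath : ∀ e ∈ D, IsUPath (E.del D) (path e) (E.rng e) (E.src e)
  acyc : (E.del D).Acyclic

section

variable {E : DGraph}

/-- Mutual reachability. -/
def mrel (E : DGraph) : Setoid E.V where
  r v w := ReflTransGen E.Step v w ∧ ReflTransGen E.Step w v
  iseqv := ⟨fun _ => ⟨.refl, .refl⟩, fun h => ⟨h.2, h.1⟩,
    fun h h' => ⟨h.1.trans h'.1, h'.2.trans h.2⟩⟩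

/-- The representative of a class. -/
noncomputable def rep (E : DGraph) (v : E.V) : E.V := (Quotient.mk (mrel E) v).out

theorem rep_rel (v : E.V) : ReflTransGen E.Step (rep E v) v ∧ ReflTransGen E.Step v (rep E v) :=
  Quotient.mk_out (s := mrel E) v

theorem rep_eq {v w : E.V} (h : ReflTransGen E.Step v w) (h' : ReflTransGen E.Step w v) :
    rep E v = rep E w := by
  unfold rep
  rw [Quotient.sound (s := mrel E) ⟨h, h'⟩]

theorem rep_rep (v : E.V) : rep E (rep E v) = rep E v := rep_eq (rep_rel v).1 (rep_rel v).2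

/-- The edges to delete. -/
def cutSet (E : DGraph) : Set E.Ed :=
  {e | TransGen E.Step (E.src e) (E.src e) ∧ rep E (E.src e) = E.src e}

theorem step_of_del {D : Set E.Ed} {v w : E.V} (h : (E.del D).Step v w) : E.Step v w := by
  obtain ⟨e, h1, h2⟩ := h
  exact ⟨e.1, h1, h2⟩

theorem rtg_of_del {D : Set E.Ed} {v w : E.V} (h : ReflTransGen (E.del D).Step v w) :
    ReflTransGen E.Step v w :=
  ReflTransGen.lift (fun x : E.V => x) (fun _ _ => step_of_del) _ _ h

theorem tg_of_del {D : Set E.Ed} {v w : E.V} (h : TransGen (E.del D).Step v w) :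
    TransGen E.Step v w :=
  TransGen.lift (fun x : E.V => x) (fun _ _ => step_of_del) _ _ h

/-- A cyclic vertex emits an edge of a closed path. -/
theorem exists_edge {v : E.V} (h : TransGen E.Step v v) :
    ∃ e, E.src e = v ∧ ReflTransGen E.Step (E.rng e) v := by
  obtain ⟨u, ⟨e, h1, h2⟩, h3⟩ := TransGen.head'_iff.1 h
  exact ⟨e, h1, h2 ▸ h3⟩

theorem cut_uniq (hE : E.NoExit) (e : E.Ed) (he : e ∈ cutSet E) (f : E.Ed)
    (hf : E.src f = E.src e) : f = e := by
  obtain ⟨g, h1, h2⟩ := exists_edge he.1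
  have h3 : g = f := hE g f (h1.trans hf.symm) (h1 ▸ h2)
  have h4 : g = e := hE g e h1 (h1 ▸ h2)
  exact h3.symm.trans h4

theorem cut_reach (hE : E.NoExit) (e : E.Ed) (he : e ∈ cutSet E) :
    ReflTransGen E.Step (E.rng e) (E.src e) := by
  obtain ⟨g, h1, h2⟩ := exists_edge he.1
  have h4 : g = e := hE g e h1 (h1 ▸ h2)
  subst h4
  exact h2

theorem cut_path (hE : E.NoExit) (w : E.V) (hw : rep E w = w) {x : E.V}
    (h : ReflTransGen E.Step x w) (h' : ReflTransGen E.Step w x) :
    ∃ p : List (E.del (cutSet E)).Ed, IsUPath (E.del (cutSet E)) p x w := by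
  induction h using ReflTransGen.head_induction_on with
  | refl => exact ⟨[], rfl⟩
  | head h1 h2 ih =>
    rename_i x y
    by_cases hx : x = w
    · exact ⟨[], hx⟩
    · obtain ⟨g, hg1, hg2⟩ := h1
      subst hg1
      subst hg2
      have hstep : E.Step (E.src g) (E.rng g) := ⟨g, rfl, rfl⟩
      have hgD : g ∉ cutSet E := by
        intro hgD
        apply hx
        rw [← hgD.2, rep_eq ((ReflTransGen.single hstep).trans h2) h', hw]
      obtain ⟨p, hp⟩ := ih (h'.tail hstep)
      refine ⟨⟨g, hgD⟩ :: p, rfl, ?_, hp⟩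
      intro f hf
      apply Subtype.ext
      exact (hE g f.1 hf.symm (h2.trans h')).symm

theorem cut_acyc (hE : E.NoExit) : (E.del (cutSet E)).Acyclic := by
  intro v hv
  have key : ∀ x : E.V, ReflTransGen E.Step v x →
      TransGen (E.del (cutSet E)).Step v x ∧ TransGen (E.del (cutSet E)).Step x v := by
    intro x hx
    induction hx with
    | refl => exact ⟨hv, hv⟩
    | tail h1 h2 ih =>
      rename_i x y
      obtain ⟨h3, h4⟩ := ih
      obtain ⟨g, hg1, hg2⟩ := h2
      obtain ⟨u, ⟨f, hf1, hf2⟩, h5⟩ := TransGen.head'_iff.1 h4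
      have h6 : f.1 = g := by
        apply hE f.1 g (hf1.trans hg1.symm)
        have h7 : ReflTransGen E.Step u x :=
          (rtg_of_del h5).trans (tg_of_del h3).to_reflTransGen
        rw [← hf2, ← hf1] at h7
        exact h7
      have h8 : u = y := by
        rw [← hf2, ← hg2, ← h6]
      subst h8
      exact ⟨h3.tail ⟨f, hf1, hf2⟩, TransGen.trans_right h5 hv⟩
  obtain ⟨h1, h2⟩ := key (rep E v) (rep_rel (E := E) v).2
  obtain ⟨u, ⟨f, hf1, hf2⟩, h5⟩ := TransGen.head'_iff.1 h2
  apply f.2
  have hf1' : E.src f.1 = rep E v := hf1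
  constructor
  · rw [hf1']
    exact (tg_of_del h2).trans (tg_of_del h1)
  · rw [hf1']
    exact rep_rep (E := E) v

open Classical in
/-- Every no-exit graph has a cut. -/
noncomputable def noExitCut (hE : E.NoExit) : Cut E where
  D := cutSet E
  uniq := cut_uniq hE
  path e := if h : e ∈ cutSet E then Classical.choose (cut_path hE (E.src e) h.2
    (cut_reach hE e h) (ReflTransGen.single ⟨e, rfl, rfl⟩)) else []
  hpath e h := by
    rw [dif_pos h]
    exact Classical.choose_spec (cut_path hE (E.src e) h.2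
      (cut_reach hE e h) (ReflTransGen.single ⟨e, rfl, rfl⟩))
  acyc := cut_acyc hE

end

end Pool.Agent.Lib.MP_8f60dc_al
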