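import Pool.Agent.Lib.MP_8f60dc_al.Defs

/-!
# No-exit graphs
-/

set_option autoImplicit false

namespace Pool.Agent.Lib.MP_8f60dc_al

/-- One step along an edge. -/
def DGraph.Step (E : DGraph) (v w : E.V) : Prop := ∃ e, E.src e = v ∧ E.rng e = w

/-- No cycle has an exit: an edge which lies on a closed path is the only edge with its source. -/
def DGraph.NoExit (E : DGraph) : Prop :=
  ∀ e f, E.src e = E.src f → Relation.ReflTransGen E.Step (E.rng e) (E.src e) → e = f

end Pool.Agent.Lib.MP_8f60dc_al
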