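import Pool.Agent.Lib.MP_8f60dc_al.NX.Rec2

/-!
# The evaluations at unimodular numbers are jointly injective; the Leavitt path algebra embeds
-/

set_option autoImplicit false
set_option linter.unusedSectionVars false

namespace Pool.Agent.Lib.MP_8f60dc_al

open LaurentPolynomial
open scoped LaurentPolynomial

noncomputable section

theorem circle_infinite : Set.Infinite {a : ℂ | ‖a‖ = 1} := by
  have hx : ∀ n : ℕ, 0 ≤ 1 - ((1 : ℝ) / (n + 1)) ^ 2 := by
    intro n
    have h1 : (1 : ℝ) / (n + 1) ≤ 1 := by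
      rw [div_le_one (by positivity)]
      linarith [(Nat.cast_nonneg n : (0 : ℝ) ≤ n)]
    have h2 : (0 : ℝ) ≤ 1 / (n + 1) := by positivity
    nlinarith
  let g : ℕ → ℂ := fun n => ⟨1 / (n + 1), Real.sqrt (1 - ((1 : ℝ) / (n + 1)) ^ 2)⟩
  apply Set.infinite_of_injective_forall_mem (f := g)
  · intro n m h
    have h1 : (1 : ℝ) / (n + 1) = 1 / (m + 1) := congrArg Complex.re h
    rw [div_eq_div_iff (by positivity) (by positivity)] at h1
    have h2 : (n : ℝ) = m := by linarith
    exact_mod_cast h2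
  · intro n
    change ‖g n‖ = 1
    have h1 : ‖g n‖ ^ 2 = 1 := by
      rw [Complex.sq_norm, Complex.normSq_apply]
      change (1 : ℝ) / (n + 1) * (1 / (n + 1)) + Real.sqrt (1 - ((1 : ℝ) / (n + 1)) ^ 2) *
        Real.sqrt (1 - ((1 : ℝ) / (n + 1)) ^ 2) = 1
      rw [Real.mul_self_sqrt (hx n)]
      ring
    have h2 : (‖g n‖ - 1) * (‖g n‖ + 1) = 0 := by
      have : (‖g n‖ - 1) * (‖g n‖ + 1) = ‖g n‖ ^ 2 - 1 := by ring
      rw [this, h1, sub_self]
    rcases mul_eq_zero.1 h2 with h3 | h3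
    · linarith
    · linarith [norm_nonneg (g n)]

/-- A Laurent polynomial which vanishes at all unimodular numbers is zero. -/
theorem laurent_circle (f : ℂ[T;T⁻¹])
    (h : ∀ a : ℂˣ, ‖(a : ℂ)‖ = 1 → eval₂ (RingHom.id ℂ) a f = 0) : f = 0 := by
  obtain ⟨n, p, hp⟩ := exists_T_pow f
  have h1 : p = 0 := by
    by_contra hne
    apply circle_infinite
    apply (p.roots.toFinset.finite_toSet).subset
    intro a ha
    have ha1 : ‖a‖ = 1 := ha
    have ha0 : a ≠ 0 := by
      rintro rfl
      rw [norm_zero] at ha1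
      exact zero_ne_one ha1
    have h3 : eval₂ (RingHom.id ℂ) (Units.mk0 a ha0) (Polynomial.toLaurent p) = 0 := by
      rw [hp, map_mul, h (Units.mk0 a ha0) ha1, zero_mul]
    rw [eval₂_toLaurent] at h3
    rw [Finset.mem_coe, Multiset.mem_toFinset, Polynomial.mem_roots hne]
    exact h3
  rw [h1, map_zero] at hp
  have h3 : f * T n * T (-n) = 0 := by rw [← hp, zero_mul]
  rwa [mul_assoc, ← T_add, add_neg_cancel, T_zero, mul_one] at h3

variable {E : DGraph} (c : Cut E)

/-- Right factors of the right ideal of a cyclic vertex. -/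
theorem Cut.P_mul_eq {e : E.Ed} (he : e ∈ c.D) (a : LPA E) :
    ∃ F : List c.G.Ed →₀ ℂ[T;T⁻¹], (lf E).P (E.src e) * a =
      F.sum fun q f => c.ps he f * (c.res (lf E)).TP (E.src e) q := by
  have hcu := c.cu (lf_leavitt (E := E)) he
  let L : (List c.G.Ed →₀ ℂ[T;T⁻¹]) →ₗ[ℂ] LPA E := Finsupp.lsum ℂ fun q =>
    { toFun := fun f => c.ps he f * (c.res (lf E)).TP (E.src e) q
      map_add' := fun f g => by rw [map_add, add_mul]
      map_smul' := fun t f => by rw [map_smul, smul_mul_assoc]; rfl }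
  have hL : ∀ F, L F = F.sum fun q f => c.ps he f * (c.res (lf E)).TP (E.src e) q := fun F => rfl
  have hsing : ∀ q f, L (Finsupp.single q f) = c.ps he f * (c.res (lf E)).TP (E.src e) q := by
    intro q f
    rw [hL, Finsupp.sum_single_index]
    rw [map_zero, zero_mul]
  suffices h : (lf E).P (E.src e) * a ∈ LinearMap.range L by
    obtain ⟨F, hF⟩ := h
    exact ⟨F, hF.symm.trans (hL F)⟩
  refine lmul_span (s := wordSet (c.res (lf E)) ∪ c.cycSet) _ ?_ a (c.X_top a)
  rintro y (⟨v, p, q, rfl⟩ | ⟨e', he', p, q, g, rfl⟩)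
  · rw [← mul_assoc]
    by_cases h : v ≠ E.src e ∨ p ≠ []
    · have h1 : (lf E).P (E.src e) * (c.res (lf E)).SP v p = 0 := c.rl.sink_SP (c.sink he) v p h
      rw [h1, zero_mul]
      exact Submodule.zero_mem _
    · push Not at h
      obtain ⟨rfl, rfl⟩ := h
      refine ⟨Finsupp.single q 1, ?_⟩
      have h1 : c.ps he 1 = (lf E).P (E.src e) := CU.psi_one _
      rw [hsing, h1, Fam.SP_nil]
      change _ = (lf E).P (E.src e) * (lf E).P (E.src e) * _
      rw [hcu.pp]
  · rw [← mul_assoc]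
    by_cases h : E.src e' ≠ E.src e ∨ p ≠ []
    · have h1 : (lf E).P (E.src e) * (c.res (lf E)).SP (E.src e') p = 0 :=
        c.rl.sink_SP (c.sink he) _ p h
      rw [h1, zero_mul]
      exact Submodule.zero_mem _
    · push Not at h
      obtain ⟨h1, rfl⟩ := h
      have h2 : e' = e := c.uniq e he e' h1
      subst h2
      refine ⟨Finsupp.single q g, ?_⟩
      rw [hsing, Fam.SP_nil]
      change _ = (lf E).P (E.src e') * (lf E).P (E.src e') * _
      have h3 : (lf E).P (E.src e') * c.ps he g = c.ps he g := hcu.p_psi g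
      rw [hcu.pp, ← mul_assoc, h3]

/-- The evaluations are jointly injective on the right ideal of a cyclic vertex. -/
theorem Cut.joint1 (hP : ∀ v, (lf c.G).P v ≠ 0) {e : E.Ed} (he : e ∈ c.D) {y : LPA E}
    (hy : (lf E).P (E.src e) * y = y)
    (h : ∀ a : ℂˣ, ‖(a : ℂ)‖ = 1 → c.ev (fun _ => a) y = 0) : y = 0 := by
  classical
  have hcu := c.cu (lf_leavitt (E := E)) he
  obtain ⟨F, hF⟩ := c.P_mul_eq he y
  rw [hy] at hF
  have key : ∀ q, c.ps he (F q) * (c.res (lf E)).TP (E.src e) q = 0 := by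
    intro q
    by_cases hq : ∃ u, IsPath c.G q u (E.src e)
    · obtain ⟨u, hu⟩ := hq
      have h1 : y * (c.res (lf E)).SP (E.src e) q = c.ps he (F q) := by
        rw [hF, Finsupp.sum, Finset.sum_mul, Finset.sum_eq_single q]
        · rw [mul_assoc, sink_orth c.rl (c.sink he) (c.sink he) hu hu, if_pos rfl]
          exact hcu.psi_p _
        · intro q' _ hne
          by_cases hq' : ∃ u, IsPath c.G q' u (E.src e)
          · obtain ⟨u', hu'⟩ := hq'
            rw [mul_assoc, sink_orth c.rl (c.sink he) (c.sink he) hu' hu, if_neg, mul_zero]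
            intro h2
            exact hne (congrArg Prod.snd h2)
          · rw [c.rl.TP_zero (not_exists.1 hq'), mul_zero, zero_mul]
        · intro hq'
          rw [Finsupp.notMem_support_iff] at hq'
          rw [hq', map_zero, zero_mul, zero_mul]
      have h2 : F q = 0 := by
        apply laurent_circle
        intro a ha
        have h3 := c.ev_ps he (fun _ => a) (F q)
        rw [← h1, map_mul, h a ha, zero_mul] at h3
        rcases smul_eq_zero.1 h3.symm with h4 | h4
        · exact h4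
        · exact absurd h4 (hP _)
      rw [h2, map_zero, zero_mul]
    · rw [c.rl.TP_zero (not_exists.1 hq), mul_zero]
  rw [hF, Finsupp.sum]
  exact Finset.sum_eq_zero fun q _ => key q

/-- The evaluations at unimodular numbers are jointly injective. -/
theorem Cut.joint (hP : ∀ v, (lf c.G).P v ≠ 0) {x : LPA E}
    (h : ∀ a : ℂˣ, ‖(a : ℂ)‖ = 1 → c.ev (fun _ => a) x = 0) : x = 0 := by
  have hx : x ∈ idl c.Ps := by
    apply c.N_le (fun _ => 1)
    rw [c.mem_N_iff]
    exact h 1 (by rw [Units.val_one, norm_one])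
  obtain ⟨Λ, h1, h2⟩ := c.mem_LS hx
  have h3 := h2 Λ (Finset.Subset.refl _) h1
  rw [← h3]
  unfold Cut.lu
  rw [Finset.sum_mul]
  apply Finset.sum_eq_zero
  rintro ⟨w, p⟩ hwp
  obtain ⟨⟨e, he, hw⟩, -⟩ := h1 _ hwp
  change E.src e = w at hw
  subst hw
  rw [mul_assoc]
  have h4 : (c.res (lf E)).TP (E.src e) p * x = 0 := by
    apply c.joint1 hP he
    · rw [← mul_assoc]
      exact congrArg (· * x) (c.rl.P_TP _ _)
    · intro a ha
      rw [map_mul, h a ha, mul_zero]
  rw [h4, mul_zero]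

theorem Cut.ext_map {R S : Type*} [NonUnitalRing R] [NonUnitalRing S] {F : Type*} [FunLike F R S]
    [NonUnitalRingHomClass F R S] (f : F) (l : Fam c.G R) (x x' : E.Ed → R) :
    (c.ext l x x').map f = c.ext (l.map f) (fun e => f (x e)) (fun e => f (x' e)) := by
  ext e
  · rfl
  · change f ((c.ext l x x').S e) = _
    by_cases he : e ∈ c.D
    · rw [c.ext_S _ _ _ he, c.ext_S _ _ _ he, map_mul, Fam.map_TP]
    · rw [c.ext_S' _ _ _ he, c.ext_S' _ _ _ he]
      rfl
  · change f ((c.ext l x x').T e) = _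
    by_cases he : e ∈ c.D
    · rw [c.ext_T _ _ _ he, c.ext_T _ _ _ he, map_mul, Fam.map_SP]
    · rw [c.ext_T' _ _ _ he, c.ext_T' _ _ _ he]
      rfl

include c in
/-- The Leavitt path algebra embeds in the graph C*-algebra. -/
theorem Cut.embed [Countable E.V] [Countable E.Ed] {A : Type} [NonUnitalCStarAlgebra A]
    {l : Fam E A} (hA : IsGraphCStar E A l) : Function.Injective (lLift hA.ck.lv) := by
  have : Countable c.G.V := inferInstanceAs (Countable E.V)
  have : Countable c.G.Ed := inferInstanceAs (Countable {e : E.Ed // e ∉ c.D})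
  rw [injective_iff_map_eq_zero]
  intro x hx
  apply c.joint (lf_P_ne _)
  intro a ha
  obtain ⟨l', hl', hne⟩ := exists_rep (E := c.G)
  have hst : star (a : ℂ) = ((a⁻¹ : ℂˣ) : ℂ) := by
    have h1 : (a : ℂ) * star (a : ℂ) = 1 := by
      rw [Complex.star_def, Complex.mul_conj, Complex.normSq_eq_norm_sq, ha]
      norm_num
    have h2 : ((a⁻¹ : ℂˣ) : ℂ) * ((a : ℂ) * star (a : ℂ)) = ((a⁻¹ : ℂˣ) : ℂ) := by
      rw [h1, mul_one]
    rwa [← mul_assoc, Units.inv_mul, one_mul] at h2
  have hun := c.isUn_smul hl'.lv (fun _ => a)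
  have hck := c.ext_ck hl' hun (fun e _ => by
    rw [star_smul, hl'.sa, hst])
  obtain ⟨f, hf, -⟩ := hA.univ BK _ hck
  apply lLift_injective c.acyc hl'.lv hne
  have h1 : (lf E).map ((lLift hl'.lv).comp (c.ev (fun _ => a))) =
      (lf E).map ((f : A →ₙₐ[ℂ] BK).comp (lLift hA.ck.lv)) := by
    change ((lf E).map (c.ev (fun _ => a))).map (lLift hl'.lv) =
      ((lf E).map (lLift hA.ck.lv)).map f
    rw [c.ev_lf, c.ext_map, lLift_lf, lLift_lf, hf]
    apply c.ext_congr
    · intro e _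
      rw [map_smul]
      have h2 := congrFun (congrArg Fam.P (lLift_lf hl'.lv)) (E.src e)
      exact congrArg _ h2
    · intro e _
      rw [map_smul]
      have h2 := congrFun (congrArg Fam.P (lLift_lf hl'.lv)) (E.src e)
      exact congrArg _ h2
  have h2 := lpa_ext h1 x
  change lLift hl'.lv (c.ev (fun _ => a) x) = f (lLift hA.ck.lv x) at h2
  rw [h2, hx, map_zero, map_zero]

/-- Finite dimensional algebras are directly finite. -/
theorem dfin_fd {R : Type*} [NonUnitalRing R] [Module ℂ R] [IsScalarTower ℂ R R]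
    [SMulCommClass ℂ R R] (M : Submodule ℂ R) [FiniteDimensional ℂ M]
    (hM : ∀ a ∈ M, ∀ b ∈ M, a * b ∈ M) {p u w : R} (hp : p ∈ M) (hu : u ∈ M)
    (hpp : p * p = p) (hpu : p * u = u) (hwp : w * p = w) (hwu : w * u = p) : u * w = p := by
  let V : Submodule ℂ R :=
    { carrier := {y | y ∈ M ∧ p * y = y}
      add_mem' := fun {a b} ha hb => ⟨M.add_mem ha.1 hb.1, by rw [mul_add, ha.2, hb.2]⟩
      zero_mem' := ⟨M.zero_mem, mul_zero _⟩
      smul_mem' := fun t a ha => ⟨M.smul_mem _ ha.1, by rw [mul_smul_comm, ha.2]⟩ }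
  have hVM : V ≤ M := fun y hy => hy.1
  have hfd : FiniteDimensional ℂ V := Submodule.finiteDimensional_of_le hVM
  let L : V →ₗ[ℂ] V :=
    { toFun := fun y => ⟨u * y.1, hM _ hu _ y.2.1, by rw [← mul_assoc, hpu]⟩
      map_add' := fun a b => Subtype.ext (mul_add _ _ _)
      map_smul' := fun t a => Subtype.ext (mul_smul_comm _ _ _) }
  have hL : Function.Injective L := by
    intro a b hab
    have h1 : u * a.1 = u * b.1 := congrArg Subtype.val hab
    apply Subtype.ext
    calc a.1 = w * (u * a.1) := by rw [← mul_assoc, hwu, a.2.2]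
      _ = w * (u * b.1) := by rw [h1]
      _ = b.1 := by rw [← mul_assoc, hwu, b.2.2]
  obtain ⟨y, hy⟩ := LinearMap.surjective_of_injective hL ⟨p, hp, hpp⟩
  have h1 : u * y.1 = p := congrArg Subtype.val hy
  have h2 : y.1 = w := by
    calc y.1 = w * (u * y.1) := by rw [← mul_assoc, hwu, y.2.2]
      _ = w := by rw [h1, hwp]
  rw [← h2, h1]

/-- The Leavitt path algebra of a cut graph is directly finite. -/
theorem Cut.dfin (hP : ∀ v, (lf c.G).P v ≠ 0) {p u w : LPA E} (hpp : p * p = p)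
    (hpu : p * u = u) (hwp : w * p = w) (hwu : w * u = p) : u * w = p := by
  rw [← sub_eq_zero]
  apply c.joint hP
  intro a _
  obtain ⟨θ, hθ⟩ : ∃ θ : LPA E →ₙₐ[ℂ] LPA c.G, θ = c.ev (fun _ => a) := ⟨_, rfl⟩
  rw [← hθ]
  classical
  obtain ⟨X, Vs, hpc⟩ := exists_pc c.acyc {θ p, θ u}
  have hfin := PI_finite c.acyc X Vs
  have := Fintype.ofFinite (PI X Vs)
  have hmu := mu_pieces (lf_leavitt (E := c.G)) X Vs
  have hfd : FiniteDimensional ℂ ((lf c.G).pc X Vs) := MU.finite_span
  have h1 := dfin_fd ((lf c.G).pc X Vs) (fun a ha b hb => hmu.mul_mem ha hb)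
    (p := θ p) (u := θ u) (w := θ w) (hpc _ (Finset.mem_insert_self _ _))
    (hpc _ (Finset.mem_insert_of_mem (Finset.mem_singleton_self _)))
    (by rw [← map_mul, hpp]) (by rw [← map_mul, hpu]) (by rw [← map_mul, hwp])
    (by rw [← map_mul, hwu])
  rw [map_sub, map_mul, h1, sub_self]

theorem exists_isPath {G : DGraph} {v w : G.V} (h : Relation.ReflTransGen G.Step v w) :
    ∃ p, IsPath G p v w := by
  induction h using Relation.ReflTransGen.head_induction_on with
  | refl => exact ⟨[], rfl⟩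
  | head h1 h2 ih =>
    obtain ⟨g, rfl, rfl⟩ := h1
    obtain ⟨p, hp⟩ := ih
    exact ⟨g :: p, rfl, hp⟩

/-- The absence of exits is an invariant of the algebra. -/
theorem noExit_of_iso {F : DGraph} [Countable E.V] [Countable E.Ed] [Countable F.V]
    [Countable F.Ed] (c : Cut E) (φ : LPA E →ₙₐ[ℂ] LPA F) (φ' : LPA F →ₙₐ[ℂ] LPA E)
    (h1 : ∀ x, φ (φ' x) = x) : F.NoExit := by
  have : Countable c.G.V := inferInstanceAs (Countable E.V)
  have : Countable c.G.Ed := inferInstanceAs (Countable {e : E.Ed // e ∉ c.D})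
  intro e f hs hr
  by_contra hne
  obtain ⟨p, hp⟩ := exists_isPath hr
  have hep : IsPath F (e :: p) (F.src e) (F.src e) := ⟨rfl, hp⟩
  have hl := lf_leavitt (E := F)
  have h2 := c.dfin (lf_P_ne _) (p := φ' ((lf F).P (F.src e)))
    (u := φ' ((lf F).SP (F.src e) (e :: p))) (w := φ' ((lf F).TP (F.src e) (e :: p)))
    (by rw [← map_mul, hl.idem]) (by rw [← map_mul, hl.P_SP hep])
    (by rw [← map_mul, hl.TP_P hep]) (by rw [← map_mul, hl.TP_SP hep])
  have h3 : (lf F).SP (F.src e) (e :: p) * (lf F).TP (F.src e) (e :: p) = (lf F).P (F.src e) := by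
    have h4 := congrArg φ h2
    rwa [map_mul, h1, h1, h1] at h4
  have h4 : (lf F).T f = 0 := by
    rw [← hl.tp f, ← hs, ← h3, Fam.SP_cons]
    have h5 : (lf F).T f * ((lf F).S e * (lf F).SP (F.src e) p * (lf F).TP (F.src e) (e :: p)) =
        ((lf F).T f * (lf F).S e) * ((lf F).SP (F.src e) p * (lf F).TP (F.src e) (e :: p)) := by
      simp only [mul_assoc]
    rw [h5, hl.ts0 f e (Ne.symm hne), zero_mul]
  apply lf_P_ne F (F.rng f)
  rw [← hl.ts f, h4, zero_mul]

end

end Pool.Agent.Lib.MP_8f60dc_al
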