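import Mathlib

/-!
# Two-sided ideals generated by corner elements
-/

set_option autoImplicit false

namespace Pool.Agent.Lib.MP_8f60dc_al

variable {R : Type*} [NonUnitalRing R] [Module ℂ R]

/-- The span of the elements `a * x * b`, `x ∈ s`. -/
def idl (s : Set R) : Submodule ℂ R := Submodule.span ℂ {y | ∃ a, ∃ x ∈ s, ∃ b, y = a * x * b}

theorem idl_mono {s t : Set R} (h : s ⊆ t) : idl s ≤ idl t :=
  Submodule.span_mono fun _ ⟨a, x, hx, b, e⟩ => ⟨a, x, h hx, b, e⟩

theorem mem_idl {s : Set R} {x : R} (hx : x ∈ s) (a b : R) : a * x * b ∈ idl s :=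
  Submodule.subset_span ⟨a, x, hx, b, rfl⟩

theorem idl_subset {s : Set R} {x p : R} (hx : x ∈ s) (hp : p * x * p = x) : x ∈ idl s := by
  rw [← hp]
  exact mem_idl hx p p

theorem idl_left [SMulCommClass ℂ R R] {s : Set R} (c : R) : ∀ x ∈ idl s, c * x ∈ idl s := by
  intro x hx
  unfold idl at hx
  induction hx using Submodule.span_induction with
  | mem x hx =>
    obtain ⟨a, y, hy, b, rfl⟩ := hx
    rw [← mul_assoc, ← mul_assoc]
    exact mem_idl hy _ _
  | zero => rw [mul_zero]; exact Submodule.zero_mem _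
  | add x y _ _ h1 h2 => rw [mul_add]; exact Submodule.add_mem _ h1 h2
  | smul t x _ h1 => rw [mul_smul_comm]; exact Submodule.smul_mem _ t h1

theorem idl_right [IsScalarTower ℂ R R] {s : Set R} (c : R) : ∀ x ∈ idl s, x * c ∈ idl s := by
  intro x hx
  unfold idl at hx
  induction hx using Submodule.span_induction with
  | mem x hx =>
    obtain ⟨a, y, hy, b, rfl⟩ := hx
    rw [mul_assoc]
    exact mem_idl hy _ _
  | zero => rw [zero_mul]; exact Submodule.zero_mem _
  | add x y _ _ h1 h2 => rw [add_mul]; exact Submodule.add_mem _ h1 h2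
  | smul t x _ h1 => rw [smul_mul_assoc]; exact Submodule.smul_mem _ t h1

theorem idl_le {s : Set R} {J : Submodule ℂ R} (hl : ∀ a, ∀ x ∈ J, a * x ∈ J)
    (hr : ∀ a, ∀ x ∈ J, x * a ∈ J) (h : ∀ x ∈ s, x ∈ J) : idl s ≤ J := by
  apply Submodule.span_le.2
  rintro _ ⟨a, x, hx, b, rfl⟩
  exact hr b _ (hl a x (h x hx))

theorem idl_map {S : Type*} [NonUnitalRing S] [Module ℂ S] (f : R →ₙₐ[ℂ] S) {s : Set R} {x : R}
    (hx : x ∈ idl s) : f x ∈ idl (f '' s) := by
  unfold idl at hx
  induction hx using Submodule.span_induction with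
  | mem x hx =>
    obtain ⟨a, y, hy, b, rfl⟩ := hx
    rw [map_mul, map_mul]
    exact mem_idl (s := f '' s) (Set.mem_image_of_mem f hy) _ _
  | zero => rw [map_zero]; exact Submodule.zero_mem _
  | add x y _ _ h1 h2 => rw [map_add]; exact Submodule.add_mem _ h1 h2
  | smul t x _ h1 => rw [map_smul]; exact Submodule.smul_mem _ t h1

theorem idl_map_le {S : Type*} [NonUnitalRing S] [Module ℂ S] [IsScalarTower ℂ S S]
    [SMulCommClass ℂ S S] (f : R →ₙₐ[ℂ] S) {s : Set R} {t : Set S}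
    (h : ∀ x ∈ s, f x ∈ idl t) {x : R} (hx : x ∈ idl s) : f x ∈ idl t := by
  have h1 := idl_map f hx
  refine idl_le idl_left idl_right ?_ h1
  rintro _ ⟨y, hy, rfl⟩
  exact h y hy

end Pool.Agent.Lib.MP_8f60dc_al
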