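import Mathlib

/-!
# Laurent polynomials in a unit of a corner
-/

set_option autoImplicit false

namespace Pool.Agent.Lib.MP_8f60dc_al

open LaurentPolynomial
open scoped LaurentPolynomial

section

variable {R : Type*} [NonUnitalRing R]

/-- `x` and `x'` are mutually inverse in the corner of the idempotent `P`. -/
structure CU (P x x' : R) : Prop where
  pp : P * P = P
  xx' : x * x' = P
  x'x : x' * x = P
  px : P * x = x
  xp : x * P = x
  px' : P * x' = x'
  xp' : x' * P = x'

theorem CU.symm {P x x' : R} (h : CU P x x') : CU P x' x :=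
  ⟨h.pp, h.x'x, h.xx', h.px', h.xp', h.px, h.xp⟩

/-- Natural powers in a corner. -/
def pwN (P x : R) : ℕ → R
  | 0 => P
  | n + 1 => x * pwN P x n

/-- Integral powers in a corner. -/
def zp (P x x' : R) : ℤ → R
  | .ofNat n => pwN P x n
  | .negSucc n => pwN P x' (n + 1)

theorem CU.p_pwN {P x x' : R} (h : CU P x x') : ∀ n, P * pwN P x n = pwN P x n
  | 0 => h.pp
  | n + 1 => by rw [pwN, ← mul_assoc, h.px]

theorem CU.x_zp {P x x' : R} (h : CU P x x') (k : ℤ) : x * zp P x x' k = zp P x x' (k + 1) := by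
  obtain n | n := k
  · rfl
  · change x * (x' * pwN P x' n) = _
    rw [← mul_assoc, h.xx', h.symm.p_pwN]
    cases n with
    | zero => rfl
    | succ n => rfl

theorem CU.x'_zp {P x x' : R} (h : CU P x x') (k : ℤ) : x' * zp P x x' k = zp P x x' (k - 1) := by
  obtain n | n := k
  · cases n with
    | zero => rfl
    | succ n =>
      change x' * (x * pwN P x n) = _
      rw [← mul_assoc, h.x'x, h.p_pwN]
      have e : Int.ofNat (n + 1) - 1 = Int.ofNat n := by
        change ((n + 1 : ℕ) : ℤ) - 1 = (n : ℤ)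
        push_cast
        ring
      rw [e]
      rfl
  · rfl

theorem CU.zp_add {P x x' : R} (h : CU P x x') (k j : ℤ) :
    zp P x x' k * zp P x x' j = zp P x x' (k + j) := by
  induction k using Int.induction_on with
  | zero =>
    rw [zero_add]
    change P * zp P x x' j = zp P x x' j
    obtain n | n := j
    · exact h.p_pwN n
    · exact h.symm.p_pwN (n + 1)
  | succ k ih =>
    rw [← h.x_zp, mul_assoc, ih, h.x_zp]
    congr 1
    ring
  | pred k ih =>
    rw [← h.x'_zp, mul_assoc, ih, h.x'_zp]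
    congr 1
    ring

variable [Module ℂ R] [IsScalarTower ℂ R R] [SMulCommClass ℂ R R]

/-- Laurent polynomials in `x`. -/
noncomputable def CU.psi {P x x' : R} (h : CU P x x') : ℂ[T;T⁻¹] →ₙₐ[ℂ] R :=
  AddMonoidAlgebra.liftMagma ℂ
    { toFun := fun k => zp P x x' (Multiplicative.toAdd k)
      map_mul' := fun _ _ => (h.zp_add _ _).symm }

theorem CU.psi_CT {P x x' : R} (h : CU P x x') (a : ℂ) (k : ℤ) :
    h.psi (C a * T k) = a • zp P x x' k := by
  rw [← single_eq_C_mul_T]
  unfold CU.psi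
  rw [AddMonoidAlgebra.liftMagma_apply_apply]
  change (Finsupp.single k a).sum _ = _
  rw [Finsupp.sum_single_index]
  · rfl
  · exact zero_smul _ _

theorem CU.psi_T {P x x' : R} (h : CU P x x') (k : ℤ) : h.psi (T k) = zp P x x' k := by
  have h1 := h.psi_CT 1 k
  rwa [map_one, one_mul, one_smul] at h1

theorem CU.psi_one {P x x' : R} (h : CU P x x') : h.psi 1 = P := by
  rw [← T_zero, h.psi_T]
  rfl

theorem CU.psi_T1 {P x x' : R} (h : CU P x x') : h.psi (T 1) = x := by
  rw [h.psi_T]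
  exact h.xp

theorem CU.psi_Tm1 {P x x' : R} (h : CU P x x') : h.psi (T (-1)) = x' := by
  rw [h.psi_T]
  exact h.xp'

theorem CU.p_psi {P x x' : R} (h : CU P x x') (f : ℂ[T;T⁻¹]) : P * h.psi f = h.psi f := by
  have h1 := map_mul h.psi 1 f
  rwa [one_mul, h.psi_one, eq_comm] at h1

theorem CU.psi_p {P x x' : R} (h : CU P x x') (f : ℂ[T;T⁻¹]) : h.psi f * P = h.psi f := by
  have h1 := map_mul h.psi f 1
  rwa [mul_one, h.psi_one, eq_comm] at h1

theorem CU.x_psi {P x x' : R} (h : CU P x x') (f : ℂ[T;T⁻¹]) :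
    x * h.psi f = h.psi (T 1 * f) := by
  rw [map_mul, h.psi_T1]

theorem CU.x'_psi {P x x' : R} (h : CU P x x') (f : ℂ[T;T⁻¹]) :
    x' * h.psi f = h.psi (T (-1) * f) := by
  rw [map_mul, h.psi_Tm1]

/-- Homomorphisms which evaluate `x` at a number. -/
theorem CU.eval {P x x' : R} (h : CU P x x') {S : Type*} [NonUnitalRing S] [Module ℂ S]
    [IsScalarTower ℂ S S] [SMulCommClass ℂ S S] (g : R →ₙₐ[ℂ] S) (Q : S) (a : ℂˣ)
    (hP : g P = Q) (hx : g x = (a : ℂ) • Q) (f : ℂ[T;T⁻¹]) :
    g (h.psi f) = (eval₂ (RingHom.id ℂ) a f) • Q := by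
  have hQ : Q * Q = Q := by rw [← hP, ← map_mul, h.pp]
  have hx' : g x' = ((a⁻¹ : ℂˣ) : ℂ) • Q := by
    have h1 : g x' = Q * g x' := by rw [← hP, ← map_mul, h.px']
    have h2 : (a : ℂ) • (Q * g x') = Q := by
      rw [← smul_mul_assoc, ← hx, ← map_mul, h.xx', hP]
    calc g x' = Q * g x' := h1
      _ = ((a⁻¹ : ℂˣ) : ℂ) • ((a : ℂ) • (Q * g x')) := by
          rw [smul_smul, Units.inv_mul, one_smul]
      _ = ((a⁻¹ : ℂˣ) : ℂ) • Q := by rw [h2]
  have hz : ∀ k : ℤ, g (zp P x x' k) = ((a ^ k : ℂˣ) : ℂ) • Q := by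
    intro k
    induction k using Int.induction_on with
    | zero =>
      change g P = _
      rw [hP, zpow_zero, Units.val_one, one_smul]
    | succ k ih =>
      rw [← h.x_zp, map_mul, ih, hx, smul_mul_smul_comm, hQ, zpow_add_one, Units.val_mul,
        mul_comm]
    | pred k ih =>
      rw [← h.x'_zp, map_mul, ih, hx', smul_mul_smul_comm, hQ, zpow_sub_one, Units.val_mul,
        mul_comm]
  induction f using LaurentPolynomial.induction_on' with
  | add p q hp hq => rw [map_add, map_add, map_add, add_smul, hp, hq]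
  | C_mul_T n b =>
    rw [h.psi_CT, map_smul, hz, eval₂_C_mul_T, smul_smul]
    rfl

/-- A Laurent polynomial which vanishes at all nonzero numbers is zero. -/
theorem laurent_eq_zero (f : ℂ[T;T⁻¹]) (h : ∀ a : ℂˣ, eval₂ (RingHom.id ℂ) a f = 0) : f = 0 := by
  obtain ⟨n, p, hp⟩ := exists_T_pow f
  have h1 : p = 0 := by
    by_contra hne
    have h2 : Set.Infinite {a : ℂ | a ≠ 0} := by
      have : {a : ℂ | a ≠ 0} = {0}ᶜ := rfl
      rw [this]
      exact (Set.finite_singleton (0 : ℂ)).infinite_compl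
    apply h2
    apply (p.roots.toFinset.finite_toSet).subset
    intro a ha
    have h3 : eval₂ (RingHom.id ℂ) (Units.mk0 a ha) (Polynomial.toLaurent p) = 0 := by
      rw [hp, map_mul, h, zero_mul]
    rw [eval₂_toLaurent] at h3
    rw [Finset.mem_coe, Multiset.mem_toFinset, Polynomial.mem_roots hne]
    exact h3
  rw [h1, map_zero] at hp
  have h3 : f * T n * T (-n) = 0 := by rw [← hp, zero_mul]
  rwa [mul_assoc, ← T_add, add_neg_cancel, T_zero, mul_one] at h3

end

end Pool.Agent.Lib.MP_8f60dc_al
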