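import Pool.Agent.Lib.MP_8f60dc_al.NX.Ext
import Pool.Agent.Lib.MP_8f60dc_al.NX.Idl
import Pool.Agent.Lib.MP_8f60dc_al.NX.Laur

/-!
# Inclusion of the acyclic part, evaluation at numbers, corners of cyclic vertices
-/

set_option autoImplicit false

namespace Pool.Agent.Lib.MP_8f60dc_al

open LaurentPolynomial
open scoped LaurentPolynomial

noncomputable section

variable {E : DGraph} (c : Cut E)

/-- The inclusion of the Leavitt path algebra of the acyclic part. -/
def Cut.iota : LPA c.G →ₙₐ[ℂ] LPA E := lLift (c.res_leavitt (lf_leavitt (E := E)))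

theorem Cut.iota_lf : (lf c.G).map c.iota = c.res (lf E) := lLift_lf _

theorem Cut.isUn_smul {R : Type*} [NonUnitalRing R] [Module ℂ R] [IsScalarTower ℂ R R]
    [SMulCommClass ℂ R R] {l : Fam c.G R} (hl : IsLeavitt l) (a : E.Ed → ℂˣ) :
    c.IsUn l (fun e => ((a e : ℂˣ) : ℂ) • l.P (E.src e))
      (fun e => (((a e)⁻¹ : ℂˣ) : ℂ) • l.P (E.src e)) where
  xx' e _ := by rw [smul_mul_smul_comm, Units.mul_inv, one_smul, hl.idem]
  x'x e _ := by rw [smul_mul_smul_comm, Units.inv_mul, one_smul, hl.idem]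
  px e _ := by rw [mul_smul_comm, hl.idem]
  xp e _ := by rw [smul_mul_assoc, hl.idem]
  px' e _ := by rw [mul_smul_comm, hl.idem]
  xp' e _ := by rw [smul_mul_assoc, hl.idem]

/-- Evaluation of the cycles at numbers. -/
def Cut.ev (a : E.Ed → ℂˣ) : LPA E →ₙₐ[ℂ] LPA c.G :=
  lLift (c.ext_leavitt lf_leavitt (c.isUn_smul lf_leavitt a))

theorem Cut.ev_lf (a : E.Ed → ℂˣ) : (lf E).map (c.ev a) = c.ext (lf c.G)
    (fun e => ((a e : ℂˣ) : ℂ) • (lf c.G).P (E.src e))
    (fun e => (((a e)⁻¹ : ℂˣ) : ℂ) • (lf c.G).P (E.src e)) := lLift_lf _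

theorem Cut.ev_iota (a : E.Ed → ℂˣ) (b : LPA c.G) : c.ev a (c.iota b) = b := by
  have h : (lf c.G).map ((c.ev a).comp c.iota) = (lf c.G).map (NonUnitalAlgHom.id ℂ (LPA c.G)) := by
    change ((lf c.G).map c.iota).map (c.ev a) = lf c.G
    rw [c.iota_lf, c.res_map, c.ev_lf, c.res_ext]
  exact lpa_ext h b

theorem Cut.ev_z (a : E.Ed → ℂˣ) {e : E.Ed} (he : e ∈ c.D) :
    c.ev a (c.z (lf E) e) = ((a e : ℂˣ) : ℂ) • (lf c.G).P (E.src e) := by
  rw [← c.map_z, c.ev_lf, c.z_ext lf_leavitt (c.isUn_smul lf_leavitt a) he]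

theorem Cut.ev_P (a : E.Ed → ℂˣ) (v : E.V) : c.ev a ((lf E).P v) = (lf c.G).P v := by
  have h := c.ev_lf a
  exact congrFun (congrArg Fam.P h) v

theorem Cut.iota_P (v : E.V) : c.iota ((lf c.G).P v) = (lf E).P v :=
  congrFun (congrArg Fam.P c.iota_lf) v

/-- The unit of a cycle as a corner unit. -/
theorem Cut.cu {R : Type*} [NonUnitalRing R] {l : Fam E R} (hl : IsLeavitt l) {e : E.Ed}
    (he : e ∈ c.D) : CU (l.P (E.src e)) (c.z l e) (c.z' l e) :=
  have h := c.isUn_z hl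
  ⟨hl.idem _, h.xx' e he, h.x'x e he, h.px e he, h.xp e he, h.px' e he, h.xp' e he⟩

/-- The kernel of an evaluation. -/
def Cut.N (a : E.Ed → ℂˣ) : Submodule ℂ (LPA E) :=
  idl {y | ∃ e ∈ c.D, y = c.z (lf E) e - ((a e : ℂˣ) : ℂ) • (lf E).P (E.src e)}

theorem Cut.ev_N (a : E.Ed → ℂˣ) {x : LPA E} (hx : x ∈ c.N a) : c.ev a x = 0 := by
  unfold Cut.N idl at hx
  induction hx using Submodule.span_induction with
  | mem x hx =>
    obtain ⟨b, y, ⟨e, he, rfl⟩, d, rfl⟩ := hx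
    rw [map_mul, map_mul, map_sub, map_smul, c.ev_z a he, c.ev_P, sub_self, mul_zero, zero_mul]
  | zero => exact map_zero _
  | add x y _ _ h1 h2 => rw [map_add, h1, h2, add_zero]
  | smul t x _ h => rw [map_smul, h, smul_zero]

theorem Cut.gen_N (a : E.Ed → ℂˣ) {e : E.Ed} (he : e ∈ c.D) :
    c.z (lf E) e - ((a e : ℂˣ) : ℂ) • (lf E).P (E.src e) ∈ c.N a := by
  have h := c.cu (lf_leavitt (E := E)) he
  refine idl_subset (s := {y | ∃ e ∈ c.D, y = c.z (lf E) e -
    ((a e : ℂˣ) : ℂ) • (lf E).P (E.src e)}) (p := (lf E).P (E.src e)) ⟨e, he, rfl⟩ ?_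
  rw [mul_sub, sub_mul, h.px, h.xp, mul_smul_comm, smul_mul_assoc, h.pp, h.pp]

theorem Cut.sub_iota_ev (a : E.Ed → ℂˣ) (b : LPA E) : b - c.iota (c.ev a b) ∈ c.N a := by
  let X : Submodule ℂ (LPA E) :=
    { carrier := {b | b - c.iota (c.ev a b) ∈ c.N a}
      add_mem' := by
        intro x y hx hy
        have h := (c.N a).add_mem hx hy
        change x + y - c.iota (c.ev a (x + y)) ∈ c.N a
        rw [map_add, map_add]
        convert h using 1
        abel
      zero_mem' := by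
        change 0 - c.iota (c.ev a 0) ∈ c.N a
        rw [map_zero, map_zero, sub_self]
        exact Submodule.zero_mem _
      smul_mem' := by
        intro t x hx
        have h := (c.N a).smul_mem t hx
        change t • x - c.iota (c.ev a (t • x)) ∈ c.N a
        rw [map_smul, map_smul, ← smul_sub]
        exact h }
  have hmul : ∀ g ∈ X, ∀ x ∈ X, g * x ∈ X := by
    intro g hg x hx
    change g - c.iota (c.ev a g) ∈ c.N a at hg
    change x - c.iota (c.ev a x) ∈ c.N a at hx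
    change g * x - c.iota (c.ev a (g * x)) ∈ c.N a
    have h := (c.N a).add_mem (idl_left g _ hx) (idl_right (c.iota (c.ev a x)) _ hg)
    rw [map_mul, map_mul]
    convert h using 1
    rw [mul_sub, sub_mul]
    abel
  have hP : ∀ v, (lf E).P v ∈ X := by
    intro v
    change (lf E).P v - c.iota (c.ev a ((lf E).P v)) ∈ c.N a
    rw [c.ev_P, c.iota_P, sub_self]
    exact Submodule.zero_mem _
  have hgS : ∀ e, c.ev a ((lf E).S e) = (c.ext (lf c.G)
      (fun e => ((a e : ℂˣ) : ℂ) • (lf c.G).P (E.src e))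
      (fun e => (((a e)⁻¹ : ℂˣ) : ℂ) • (lf c.G).P (E.src e))).S e :=
    fun e => congrFun (congrArg Fam.S (c.ev_lf a)) e
  have hgT : ∀ e, c.ev a ((lf E).T e) = (c.ext (lf c.G)
      (fun e => ((a e : ℂˣ) : ℂ) • (lf c.G).P (E.src e))
      (fun e => (((a e)⁻¹ : ℂˣ) : ℂ) • (lf c.G).P (E.src e))).T e :=
    fun e => congrFun (congrArg Fam.T (c.ev_lf a)) e
  have hext := c.ext_z (lf_leavitt (E := E))
  have hSe : ∀ e, (lf E).S e = (c.ext (c.res (lf E)) (c.z (lf E)) (c.z' (lf E))).S e := by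
    intro e
    rw [hext]
  have hTe : ∀ e, (lf E).T e = (c.ext (c.res (lf E)) (c.z (lf E)) (c.z' (lf E))).T e := by
    intro e
    rw [hext]
  have hS : ∀ e, (lf E).S e ∈ X := by
    intro e
    change (lf E).S e - c.iota (c.ev a ((lf E).S e)) ∈ c.N a
    by_cases he : e ∈ c.D
    · rw [hgS e, c.ext_S _ _ _ he, hSe e, c.ext_S _ _ _ he, map_mul, map_smul, c.iota_P,
        ← Fam.map_TP c.iota, c.iota_lf, ← sub_mul]
      exact idl_right _ _ (c.gen_N a he)
    · rw [hgS e, c.ext_S' _ _ _ he]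
      have h1 : c.iota ((lf c.G).S ⟨e, he⟩) = (lf E).S e :=
        congrFun (congrArg Fam.S c.iota_lf) ⟨e, he⟩
      rw [h1, sub_self]
      exact Submodule.zero_mem _
  have hT : ∀ e, (lf E).T e ∈ X := by
    intro e
    change (lf E).T e - c.iota (c.ev a ((lf E).T e)) ∈ c.N a
    by_cases he : e ∈ c.D
    · rw [hgT e, c.ext_T _ _ _ he, hTe e, c.ext_T _ _ _ he, map_mul, map_smul, c.iota_P,
        ← Fam.map_SP c.iota, c.iota_lf, ← mul_sub]
      apply idl_left
      have h := c.cu (lf_leavitt (E := E)) he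
      have h1 : c.z' (lf E) e - (((a e)⁻¹ : ℂˣ) : ℂ) • (lf E).P (E.src e) =
          (-(((a e)⁻¹ : ℂˣ) : ℂ)) • (c.z' (lf E) e *
            (c.z (lf E) e - ((a e : ℂˣ) : ℂ) • (lf E).P (E.src e))) := by
        rw [mul_sub, h.x'x, mul_smul_comm, h.xp', smul_sub, smul_smul, neg_mul, Units.inv_mul,
          neg_smul, neg_smul, one_smul]
        abel
      rw [h1]
      exact Submodule.smul_mem _ _ (idl_left _ _ (c.gen_N a he))
    · rw [hgT e, c.ext_T' _ _ _ he]
      have h1 : c.iota ((lf c.G).T ⟨e, he⟩) = (lf E).T e :=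
        congrFun (congrArg Fam.T c.iota_lf) ⟨e, he⟩
      rw [h1, sub_self]
      exact Submodule.zero_mem _
  exact lpa_top X hP hS hT (fun v => hmul _ (hP v)) (fun e => hmul _ (hS e))
    (fun e => hmul _ (hT e)) b

theorem Cut.mem_N_iff (a : E.Ed → ℂˣ) (b : LPA E) : b ∈ c.N a ↔ c.ev a b = 0 := by
  refine ⟨c.ev_N a, fun h => ?_⟩
  have h1 := c.sub_iota_ev a b
  rwa [h, map_zero, sub_zero] at h1

end

end Pool.Agent.Lib.MP_8f60dc_al
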