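import Pool.Agent.Lib.MP_8f60dc_al.NX.Words

/-!
# Leavitt path algebras are spanned by words; corners at sinks
-/

set_option autoImplicit false
set_option linter.unusedSectionVars false

namespace Pool.Agent.Lib.MP_8f60dc_al

variable {E : DGraph}

/-- A subspace which contains the generators and is closed under left multiplication by the
generators is everything. -/
theorem lpa_top (X : Submodule ℂ (LPA E)) (hP : ∀ v, (lf E).P v ∈ X) (hS : ∀ e, (lf E).S e ∈ X)
    (hT : ∀ e, (lf E).T e ∈ X) (hP' : ∀ v, ∀ x ∈ X, (lf E).P v * x ∈ X)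
    (hS' : ∀ e, ∀ x ∈ X, (lf E).S e * x ∈ X) (hT' : ∀ e, ∀ x ∈ X, (lf E).T e * x ∈ X)
    (x : LPA E) : x ∈ X := by
  suffices h : x ∈ X ∧ ∀ y ∈ X, x * y ∈ X from h.1
  obtain ⟨x, hx⟩ := x
  have hx' := hx
  unfold LPAsub at hx'
  induction hx' using NonUnitalAlgebra.adjoin_induction with
  | mem x h1 =>
    obtain ⟨y, rfl⟩ := h1
    cases y with
    | vert v => exact ⟨hP v, hP' v⟩
    | edge e => exact ⟨hS e, hS' e⟩
    | ghost e => exact ⟨hT e, hT' e⟩
  | add x y h1 h2 h3 h4 =>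
    obtain ⟨a, b⟩ := h3 h1
    obtain ⟨c, d⟩ := h4 h2
    refine ⟨X.add_mem a c, fun z hz => ?_⟩
    have h := X.add_mem (b z hz) (d z hz)
    have e := add_mul (R := LPA E) (⟨x, h1⟩ : LPAsub E) (⟨y, h2⟩ : LPAsub E) z
    exact e ▸ h
  | zero =>
    refine ⟨X.zero_mem, fun z hz => ?_⟩
    have : (0 : LPA E) * z ∈ X := by
      rw [zero_mul]
      exact X.zero_mem
    exact this
  | mul x y h1 h2 h3 h4 =>
    obtain ⟨a, b⟩ := h3 h1
    obtain ⟨c, d⟩ := h4 h2
    refine ⟨b _ c, fun z hz => ?_⟩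
    have h := b _ (d z hz)
    have e := mul_assoc (G := LPA E) (⟨x, h1⟩ : LPAsub E) (⟨y, h2⟩ : LPAsub E) z
    exact e ▸ h
  | smul r x h1 h2 =>
    obtain ⟨a, b⟩ := h2 h1
    refine ⟨X.smul_mem r a, fun z hz => ?_⟩
    have h := X.smul_mem r (b z hz)
    have e := smul_mul_assoc (β := LPA E) r (⟨x, h1⟩ : LPAsub E) z
    exact e ▸ h

/-- Left multiplication preserves a span if it preserves the generating set up to the span. -/
theorem lmul_span {R : Type*} [NonUnitalRing R] [Module ℂ R] [SMulCommClass ℂ R R] {s : Set R} (a : R) {t : Submodule ℂ R}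
    (h : ∀ y ∈ s, a * y ∈ t) : ∀ x ∈ Submodule.span ℂ s, a * x ∈ t := by
  intro x hx
  induction hx using Submodule.span_induction with
  | mem x hx => exact h x hx
  | zero => rw [mul_zero]; exact t.zero_mem
  | add x y _ _ h1 h2 => rw [mul_add]; exact t.add_mem h1 h2
  | smul c x _ h1 => rw [mul_smul_comm]; exact t.smul_mem c h1

theorem rmul_span {R : Type*} [NonUnitalRing R] [Module ℂ R] [IsScalarTower ℂ R R] {s : Set R} (a : R) {t : Submodule ℂ R}
    (h : ∀ y ∈ s, y * a ∈ t) : ∀ x ∈ Submodule.span ℂ s, x * a ∈ t := by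
  intro x hx
  induction hx using Submodule.span_induction with
  | mem x hx => exact h x hx
  | zero => rw [zero_mul]; exact t.zero_mem
  | add x y _ _ h1 h2 => rw [add_mul]; exact t.add_mem h1 h2
  | smul c x _ h1 => rw [smul_mul_assoc]; exact t.smul_mem c h1

/-- Left multiplication of a word by a vertex. -/
theorem IsLeavitt.P_SP_or {R : Type*} [NonUnitalRing R] {l : Fam E R} (hl : IsLeavitt l)
    (u v : E.V) (p : List E.Ed) : l.P u * l.SP v p = l.SP v p ∨ l.P u * l.SP v p = 0 := by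
  by_cases h : ∃ x, IsPath E p x v
  · obtain ⟨x, hx⟩ := h
    by_cases h1 : u = x
    · left
      rw [h1, hl.P_SP hx]
    · right
      rw [← hl.P_SP hx, ← mul_assoc, hl.orth _ _ h1, zero_mul]
  · right
    rw [hl.SP_zero (not_exists.1 h), mul_zero]

section Words

variable {R : Type*} [NonUnitalRing R] [Module ℂ R] [SMulCommClass ℂ R R]

/-- The words of a family. -/
def wordSet (l : Fam E R) : Set R := {y | ∃ v p q, y = l.SP v p * l.TP v q}

variable {l : Fam E R} (hl : IsLeavitt l)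

include hl

theorem P_word (u : E.V) : ∀ x ∈ Submodule.span ℂ (wordSet l),
    l.P u * x ∈ Submodule.span ℂ (wordSet l) := by
  apply lmul_span
  rintro _ ⟨v, p, q, rfl⟩
  rw [← mul_assoc]
  rcases hl.P_SP_or u v p with h | h
  · rw [h]
    exact Submodule.subset_span ⟨v, p, q, rfl⟩
  · rw [h, zero_mul]
    exact Submodule.zero_mem _

omit hl in
theorem S_word (e : E.Ed) : ∀ x ∈ Submodule.span ℂ (wordSet l),
    l.S e * x ∈ Submodule.span ℂ (wordSet l) := by
  apply lmul_span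
  rintro _ ⟨v, p, q, rfl⟩
  exact Submodule.subset_span ⟨v, e :: p, q, by rw [Fam.SP_cons, mul_assoc]⟩

theorem T_word (e : E.Ed) : ∀ x ∈ Submodule.span ℂ (wordSet l),
    l.T e * x ∈ Submodule.span ℂ (wordSet l) := by
  apply lmul_span
  rintro _ ⟨v, p, q, rfl⟩
  cases p with
  | nil =>
    rw [Fam.SP_nil, hl.P_TP]
    by_cases h : E.src e = v
    · subst h
      rw [hl.T_TP]
      exact Submodule.subset_span ⟨E.rng e, [], q ++ [e], by rw [Fam.SP_nil, hl.P_TP]⟩
    · rw [hl.T_TP0 h]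
      exact Submodule.zero_mem _
  | cons f p =>
    rw [Fam.SP_cons, mul_assoc]
    by_cases h : e = f
    · subst h
      rw [hl.TS_assoc]
      exact P_word hl _ _ (Submodule.subset_span ⟨v, p, q, rfl⟩)
    · rw [hl.TS0_assoc h]
      exact Submodule.zero_mem _

theorem P_mem_word (v : E.V) : l.P v ∈ Submodule.span ℂ (wordSet l) :=
  Submodule.subset_span ⟨v, [], [], (hl.idem v).symm⟩

theorem S_mem_word (e : E.Ed) : l.S e ∈ Submodule.span ℂ (wordSet l) := by
  refine Submodule.subset_span ⟨E.rng e, [e], [], ?_⟩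
  rw [Fam.SP_cons, Fam.SP_nil, Fam.TP_nil, hl.sp, hl.sp]

theorem T_mem_word (e : E.Ed) : l.T e ∈ Submodule.span ℂ (wordSet l) := by
  refine Submodule.subset_span ⟨E.rng e, [], [e], ?_⟩
  rw [Fam.SP_nil, Fam.TP_cons, Fam.TP_nil, hl.pt, hl.pt]

end Words

theorem lpa_words (x : LPA E) : x ∈ Submodule.span ℂ (wordSet (lf E)) :=
  lpa_top (Submodule.span ℂ (wordSet (lf E))) (P_mem_word lf_leavitt) (S_mem_word lf_leavitt)
    (T_mem_word lf_leavitt) (P_word lf_leavitt) S_word (T_word lf_leavitt) x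

/-- Sinks. -/
def DGraph.Sink (E : DGraph) (w : E.V) : Prop := ∀ e, E.src e ≠ w

namespace IsLeavitt

variable {R : Type*} [NonUnitalRing R] {l : Fam E R} (hl : IsLeavitt l)

include hl

theorem sink_SP {w : E.V} (hw : E.Sink w) (v : E.V) (p : List E.Ed) (h : v ≠ w ∨ p ≠ []) :
    l.P w * l.SP v p = 0 := by
  cases p with
  | nil =>
    rcases h with h | h
    · exact hl.orth _ _ h.symm
    · exact absurd rfl h
  | cons e p => rw [Fam.SP_cons, ← mul_assoc, hl.PS0 (hw e), zero_mul]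

theorem TP_sink {w : E.V} (hw : E.Sink w) (v : E.V) (p : List E.Ed) (h : v ≠ w ∨ p ≠ []) :
    l.TP v p * l.P w = 0 := by
  cases p with
  | nil =>
    rcases h with h | h
    · exact hl.orth _ _ h
    · exact absurd rfl h
  | cons e p => rw [Fam.TP_cons, mul_assoc, hl.TP0 (hw e), mul_zero]

end IsLeavitt

/-- Right multiplication by a sink. -/
theorem mul_sink {w : E.V} (hw : E.Sink w) (x : LPA E) :
    x * (lf E).P w ∈ Submodule.span ℂ (Set.range ((lf E).SP w)) := by
  refine rmul_span (s := wordSet (lf E)) _ ?_ x (lpa_words x)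
  rintro _ ⟨v, p, q, rfl⟩
  rw [mul_assoc]
  by_cases h : v ≠ w ∨ q ≠ []
  · rw [lf_leavitt.TP_sink hw v q h, mul_zero]
    exact Submodule.zero_mem _
  · push Not at h
    obtain ⟨rfl, rfl⟩ := h
    rw [Fam.TP_nil, lf_leavitt.idem, lf_leavitt.SP_P]
    exact Submodule.subset_span ⟨p, rfl⟩

/-- Left multiplication by a sink. -/
theorem sink_mul {w : E.V} (hw : E.Sink w) (x : LPA E) :
    (lf E).P w * x ∈ Submodule.span ℂ (Set.range ((lf E).TP w)) := by
  refine lmul_span (s := wordSet (lf E)) _ ?_ x (lpa_words x)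
  rintro _ ⟨v, p, q, rfl⟩
  rw [← mul_assoc]
  by_cases h : v ≠ w ∨ p ≠ []
  · rw [lf_leavitt.sink_SP hw v p h, zero_mul]
    exact Submodule.zero_mem _
  · push Not at h
    obtain ⟨rfl, rfl⟩ := h
    rw [Fam.SP_nil, lf_leavitt.idem, lf_leavitt.P_TP]
    exact Submodule.subset_span ⟨q, rfl⟩

/-- The corner of a sink. -/
theorem corner_sink {w : E.V} (hw : E.Sink w) (x : LPA E) :
    ∃ c : ℂ, (lf E).P w * x * (lf E).P w = c • (lf E).P w := by
  suffices h : (lf E).P w * x * (lf E).P w ∈ Submodule.span ℂ {(lf E).P w} by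
    obtain ⟨c, hc⟩ := Submodule.mem_span_singleton.1 h
    exact ⟨c, hc.symm⟩
  rw [mul_assoc]
  refine lmul_span (s := Set.range ((lf E).SP w)) _ ?_ _ (mul_sink hw x)
  rintro _ ⟨p, rfl⟩
  by_cases h : w ≠ w ∨ p ≠ []
  · rw [lf_leavitt.sink_SP hw w p h]
    exact Submodule.zero_mem _
  · push Not at h
    obtain ⟨-, rfl⟩ := h
    rw [Fam.SP_nil, lf_leavitt.idem]
    exact Submodule.mem_span_singleton_self _

/-- Two distinct sinks. -/
theorem sink_sink {w v : E.V} (hw : E.Sink w) (hv : E.Sink v) (h : w ≠ v) (x : LPA E) :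
    (lf E).P w * x * (lf E).P v = 0 := by
  suffices h1 : (lf E).P w * x * (lf E).P v ∈ (⊥ : Submodule ℂ (LPA E)) by
    exact (Submodule.mem_bot ℂ).1 h1
  rw [mul_assoc]
  refine lmul_span (s := Set.range ((lf E).SP v)) _ ?_ _ (mul_sink hv x)
  rintro _ ⟨p, rfl⟩
  rw [lf_leavitt.sink_SP hw v p (Or.inl h.symm)]
  exact Submodule.zero_mem _

end Pool.Agent.Lib.MP_8f60dc_al
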