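import Pool.Agent.Lib.MP_8f60dc_al.NX.Cut
import Pool.Agent.Lib.MP_8f60dc_al.NX.Span

/-!
# Restriction to the acyclic part, and extension by units
-/

set_option autoImplicit false

namespace Pool.Agent.Lib.MP_8f60dc_al

variable {E : DGraph} (c : Cut E)

/-- The acyclic part. -/
abbrev Cut.G (c : Cut E) : DGraph := E.del c.D

theorem Cut.sink {e : E.Ed} (he : e ∈ c.D) : c.G.Sink (E.src e) := by
  intro f hf
  have h := c.uniq e he f.1 hf
  exact f.2 (h ▸ he)

section Ring

variable {R : Type*} [NonUnitalRing R]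

/-- Restriction of a family. -/
def Cut.res (l : Fam E R) : Fam c.G R where
  P v := l.P v
  S e := l.S e.1
  T e := l.T e.1

theorem Cut.res_leavitt {l : Fam E R} (hl : IsLeavitt l) : IsLeavitt (c.res l) where
  idem v := hl.idem v
  orth v w h := hl.orth v w h
  ps e := hl.ps e.1
  sp e := hl.sp e.1
  pt e := hl.pt e.1
  tp e := hl.tp e.1
  ts e := hl.ts e.1
  ts0 e f h := hl.ts0 e.1 f.1 fun h' => h (Subtype.ext h')
  ck v s hs h := by
    have h1 := hl.ck v (s.map (Function.Embedding.subtype _)) (hs.map) (fun e => by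
      rw [Finset.mem_map]
      constructor
      · rintro ⟨e', he', rfl⟩
        exact (h e').1 he'
      · intro he
        have heD : e ∉ c.D := by
          intro heD
          obtain ⟨f, hf⟩ := hs
          have h2 : E.src f.1 = v := (h f).1 hf
          have h3 := c.uniq e heD f.1 (h2.trans he.symm)
          exact f.2 (h3 ▸ heD)
        exact ⟨⟨e, heD⟩, (h ⟨e, heD⟩).2 he, rfl⟩)
    rw [Finset.sum_map] at h1
    exact h1

theorem Cut.res_map {C F : Type*} [NonUnitalRing C] [FunLike F R C] [NonUnitalRingHomClass F R C]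
    (f : F) (l : Fam E R) : (c.res l).map f = c.res (l.map f) := rfl

/-- The unit of a cycle. -/
def Cut.z (l : Fam E R) (e : E.Ed) : R := l.S e * (c.res l).SP (E.src e) (c.path e)

/-- The inverse of the unit of a cycle. -/
def Cut.z' (l : Fam E R) (e : E.Ed) : R := (c.res l).TP (E.src e) (c.path e) * l.T e

theorem Cut.map_z {C F : Type*} [NonUnitalRing C] [FunLike F R C] [NonUnitalRingHomClass F R C]
    (f : F) (l : Fam E R) (e : E.Ed) : c.z (l.map f) e = f (c.z l e) := by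
  unfold Cut.z
  rw [← c.res_map, Fam.map_SP, map_mul]
  rfl

theorem Cut.map_z' {C F : Type*} [NonUnitalRing C] [FunLike F R C] [NonUnitalRingHomClass F R C]
    (f : F) (l : Fam E R) (e : E.Ed) : c.z' (l.map f) e = f (c.z' l e) := by
  unfold Cut.z'
  rw [← c.res_map, Fam.map_TP, map_mul]
  rfl

/-- `x e` and `x' e` are mutually inverse in the corner of the source of `e`. -/
structure Cut.IsUn (l : Fam c.G R) (x x' : E.Ed → R) : Prop where
  xx' : ∀ e ∈ c.D, x e * x' e = l.P (E.src e)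
  x'x : ∀ e ∈ c.D, x' e * x e = l.P (E.src e)
  px : ∀ e ∈ c.D, l.P (E.src e) * x e = x e
  xp : ∀ e ∈ c.D, x e * l.P (E.src e) = x e
  px' : ∀ e ∈ c.D, l.P (E.src e) * x' e = x' e
  xp' : ∀ e ∈ c.D, x' e * l.P (E.src e) = x' e

open Classical in
/-- Extension of a family by units. -/
noncomputable def Cut.ext (l : Fam c.G R) (x x' : E.Ed → R) : Fam E R where
  P v := l.P v
  S e := if h : e ∈ c.D then x e * l.TP (E.src e) (c.path e) else l.S ⟨e, h⟩
  T e := if h : e ∈ c.D then l.SP (E.src e) (c.path e) * x' e else l.T ⟨e, h⟩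

theorem Cut.ext_S (l : Fam c.G R) (x x' : E.Ed → R) {e : E.Ed} (h : e ∈ c.D) :
    (c.ext l x x').S e = x e * l.TP (E.src e) (c.path e) := dif_pos h

theorem Cut.ext_T (l : Fam c.G R) (x x' : E.Ed → R) {e : E.Ed} (h : e ∈ c.D) :
    (c.ext l x x').T e = l.SP (E.src e) (c.path e) * x' e := dif_pos h

theorem Cut.ext_S' (l : Fam c.G R) (x x' : E.Ed → R) {e : E.Ed} (h : e ∉ c.D) :
    (c.ext l x x').S e = l.S ⟨e, h⟩ := dif_neg h

theorem Cut.ext_T' (l : Fam c.G R) (x x' : E.Ed → R) {e : E.Ed} (h : e ∉ c.D) :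
    (c.ext l x x').T e = l.T ⟨e, h⟩ := dif_neg h

theorem Cut.tt' {l : Fam c.G R} (hl : IsLeavitt l) {e : E.Ed} (h : e ∈ c.D) :
    l.SP (E.src e) (c.path e) * l.TP (E.src e) (c.path e) = l.P (E.rng e) :=
  hl.SP_TP (c.hpath e h)

theorem Cut.t't {l : Fam c.G R} (hl : IsLeavitt l) {e : E.Ed} (h : e ∈ c.D) :
    l.TP (E.src e) (c.path e) * l.SP (E.src e) (c.path e) = l.P (E.src e) :=
  hl.TP_SP (c.hpath e h).isPath

theorem Cut.ext_leavitt {l : Fam c.G R} (hl : IsLeavitt l) {x x' : E.Ed → R}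
    (hx : c.IsUn l x x') : IsLeavitt (c.ext l x x') where
  idem v := hl.idem v
  orth v w h := hl.orth v w h
  ps e := by
    by_cases h : e ∈ c.D
    · rw [c.ext_S l x x' h, ← mul_assoc]
      exact congrArg (· * _) (hx.px e h)
    · rw [c.ext_S' l x x' h]
      exact hl.ps ⟨e, h⟩
  sp e := by
    by_cases h : e ∈ c.D
    · rw [c.ext_S l x x' h, mul_assoc]
      exact congrArg (_ * ·) (hl.TP_P (c.hpath e h).isPath)
    · rw [c.ext_S' l x x' h]
      exact hl.sp ⟨e, h⟩
  pt e := by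
    by_cases h : e ∈ c.D
    · rw [c.ext_T l x x' h, ← mul_assoc]
      exact congrArg (· * _) (hl.P_SP (c.hpath e h).isPath)
    · rw [c.ext_T' l x x' h]
      exact hl.pt ⟨e, h⟩
  tp e := by
    by_cases h : e ∈ c.D
    · rw [c.ext_T l x x' h, mul_assoc]
      exact congrArg (_ * ·) (hx.xp' e h)
    · rw [c.ext_T' l x x' h]
      exact hl.tp ⟨e, h⟩
  ts e := by
    by_cases h : e ∈ c.D
    · rw [c.ext_T l x x' h, c.ext_S l x x' h, mul_assoc, ← mul_assoc (x' e), hx.x'x e h,
        hl.P_TP]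
      exact c.tt' hl h
    · rw [c.ext_T' l x x' h, c.ext_S' l x x' h]
      exact hl.ts ⟨e, h⟩
  ts0 e f hef := by
    by_cases h : e ∈ c.D
    · by_cases h' : f ∈ c.D
      · have hs : E.src e ≠ E.src f := fun h1 => hef (c.uniq f h' e h1)
        rw [c.ext_T l x x' h, c.ext_S l x x' h', mul_assoc, ← mul_assoc (x' e), ← hx.xp' e h,
          ← hx.px f h', mul_assoc (x' e), ← mul_assoc (l.P (E.src e)), hl.orth _ _ hs, zero_mul,
          mul_zero, zero_mul, mul_zero]
      · have hs : E.src f ≠ E.src e := fun h1 => hef (c.uniq e h f h1).symm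
        rw [c.ext_T l x x' h, c.ext_S' l x x' h', mul_assoc, ← hx.xp' e h, mul_assoc (x' e),
          hl.PS0 (e := ⟨f, h'⟩) hs, mul_zero, mul_zero]
    · by_cases h' : f ∈ c.D
      · have hs : E.src e ≠ E.src f := fun h1 => hef (c.uniq f h' e h1)
        rw [c.ext_T' l x x' h, c.ext_S l x x' h', ← hx.px f h', ← mul_assoc, ← mul_assoc,
          hl.TP0 (e := ⟨e, h⟩) hs, zero_mul, zero_mul]
      · rw [c.ext_T' l x x' h, c.ext_S' l x x' h']
        exact hl.ts0 ⟨e, h⟩ ⟨f, h'⟩ fun h1 => hef (congrArg Subtype.val h1)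
  ck v s hs h := by
    classical
    by_cases hv : ∃ e ∈ c.D, E.src e = v
    · obtain ⟨e, he, rfl⟩ := hv
      have h1 : s = {e} := by
        ext f
        rw [Finset.mem_singleton, h f]
        exact ⟨fun hf => c.uniq e he f hf, fun hf => hf ▸ rfl⟩
      rw [h1, Finset.sum_singleton, c.ext_S l x x' he, c.ext_T l x x' he, mul_assoc,
        ← mul_assoc (l.TP _ _), c.t't hl he, ← mul_assoc, hx.xp e he, hx.xx' e he]
      rfl
    · have hsD : ∀ e ∈ s, e ∉ c.D := fun e he heD => hv ⟨e, heD, (h e).1 he⟩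
      have h1 := hl.ck v (s.subtype (· ∉ c.D)) (by
        obtain ⟨e, he⟩ := hs
        exact ⟨⟨e, hsD e he⟩, Finset.mem_subtype.2 he⟩) (fun e => by
        rw [Finset.mem_subtype]
        exact h e.1)
      refine h1.trans ?_
      refine Finset.sum_bij (fun e _ => e.1) (fun e he => Finset.mem_subtype.1 he)
        (fun e _ f _ hef => Subtype.ext hef)
        (fun e he => ⟨⟨e, hsD e he⟩, Finset.mem_subtype.2 he, rfl⟩) (fun e he => ?_)
      rw [c.ext_S' l x x' e.2, c.ext_T' l x x' e.2]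

theorem Cut.res_ext (l : Fam c.G R) (x x' : E.Ed → R) : c.res (c.ext l x x') = l := by
  ext e
  · rfl
  · exact c.ext_S' l x x' e.2
  · exact c.ext_T' l x x' e.2

theorem Cut.z_ext {l : Fam c.G R} (hl : IsLeavitt l) {x x' : E.Ed → R} (hx : c.IsUn l x x')
    {e : E.Ed} (h : e ∈ c.D) : c.z (c.ext l x x') e = x e := by
  unfold Cut.z
  rw [c.res_ext, c.ext_S l x x' h, mul_assoc, c.t't hl h, hx.xp e h]

theorem Cut.z'_ext {l : Fam c.G R} (hl : IsLeavitt l) {x x' : E.Ed → R} (hx : c.IsUn l x x')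
    {e : E.Ed} (h : e ∈ c.D) : c.z' (c.ext l x x') e = x' e := by
  unfold Cut.z'
  rw [c.res_ext, c.ext_T l x x' h, ← mul_assoc, c.t't hl h, hx.px' e h]

theorem Cut.isUn_z {l : Fam E R} (hl : IsLeavitt l) : c.IsUn (c.res l) (c.z l) (c.z' l) where
  xx' e h := by
    have h1 : l.P (E.src e) = l.S e * l.T e := by
      have h2 := hl.ck (E.src e) {e} (Finset.singleton_nonempty e) (fun f => by
        rw [Finset.mem_singleton]
        exact ⟨fun h3 => h3 ▸ rfl, c.uniq e h f⟩)
      rw [h2, Finset.sum_singleton]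
    unfold Cut.z Cut.z'
    rw [mul_assoc, ← mul_assoc ((c.res l).SP _ _), c.tt' (c.res_leavitt hl) h]
    change l.S e * (l.P (E.rng e) * l.T e) = l.P (E.src e)
    rw [hl.pt, h1]
  x'x e h := by
    unfold Cut.z Cut.z'
    rw [mul_assoc, ← mul_assoc (l.T e), hl.ts]
    change (c.res l).TP _ _ * ((c.res l).P _ * (c.res l).SP _ _) = _
    rw [(c.res_leavitt hl).P_SP (c.hpath e h).isPath, c.t't (c.res_leavitt hl) h]
  px e h := by
    unfold Cut.z
    rw [← mul_assoc]
    exact congrArg (· * _) (hl.ps e)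
  xp e h := by
    unfold Cut.z
    rw [mul_assoc, (c.res_leavitt hl).SP_P]
  px' e h := by
    unfold Cut.z'
    rw [← mul_assoc, (c.res_leavitt hl).P_TP]
  xp' e h := by
    unfold Cut.z'
    rw [mul_assoc]
    exact congrArg (_ * ·) (hl.tp e)

theorem Cut.ext_z {l : Fam E R} (hl : IsLeavitt l) :
    c.ext (c.res l) (c.z l) (c.z' l) = l := by
  ext e
  · rfl
  · by_cases h : e ∈ c.D
    · rw [c.ext_S _ _ _ h]
      unfold Cut.z
      rw [mul_assoc, c.tt' (c.res_leavitt hl) h]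
      exact hl.sp e
    · exact c.ext_S' _ _ _ h
  · by_cases h : e ∈ c.D
    · rw [c.ext_T _ _ _ h]
      unfold Cut.z'
      rw [← mul_assoc, c.tt' (c.res_leavitt hl) h]
      exact hl.pt e
    · exact c.ext_T' _ _ _ h

end Ring

section Star

variable {R : Type*} [NonUnitalRing R] [StarRing R]

theorem Cut.res_ck {l : Fam E R} (hl : IsCK l) : IsCK (c.res l) where
  lv := c.res_leavitt hl.lv
  sa v := hl.sa v
  st e := hl.st e.1

theorem Cut.ext_ck {l : Fam c.G R} (hl : IsCK l) {x x' : E.Ed → R} (hx : c.IsUn l x x')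
    (hs : ∀ e ∈ c.D, x' e = star (x e)) : IsCK (c.ext l x x') where
  lv := c.ext_leavitt hl.lv hx
  sa v := hl.sa v
  st e := by
    by_cases h : e ∈ c.D
    · rw [c.ext_S _ _ _ h, c.ext_T _ _ _ h, star_mul, Fam.star_TP hl, hs e h]
    · rw [c.ext_S' _ _ _ h, c.ext_T' _ _ _ h]
      exact hl.st ⟨e, h⟩

theorem Cut.star_z {l : Fam E R} (hl : IsCK l) (e : E.Ed) : star (c.z l e) = c.z' l e := by
  unfold Cut.z Cut.z'
  rw [star_mul, Fam.star_SP (c.res_ck hl), hl.st]

end Star

end Pool.Agent.Lib.MP_8f60dc_al
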