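import Pool.Agent.Lib.MP_8f60dc_al.NX.Img

/-!
# From the *-isomorphism of the acyclic parts to the *-isomorphism of the graph C*-algebras
-/

set_option autoImplicit false
set_option linter.unusedSectionVars false

namespace Pool.Agent.Lib.MP_8f60dc_al

noncomputable section

/-- Conjugation of a corner unit by a partial isometry. -/
theorem cu_conj {R : Type*} [NonUnitalRing R] [StarRing R] {P Q s z z' : R} (hPP : P * P = P)
    (h1 : s * star s = P) (h2 : star s * s = Q) (h : CU Q z z') :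
    CU P (s * z * star s) (s * z' * star s) := by
  have hQz : ∀ w, Q * w = w → P * (s * w * star s) = s * w * star s := by
    intro w hw
    calc P * (s * w * star s) = s * ((star s * s) * w) * star s := by
          rw [← h1]
          simp only [mul_assoc]
      _ = s * w * star s := by rw [h2, hw]
  have hzQ : ∀ w, w * Q = w → s * w * star s * P = s * w * star s := by
    intro w hw
    calc s * w * star s * P = s * (w * (star s * s)) * star s := by
          rw [← h1]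
          simp only [mul_assoc]
      _ = s * w * star s := by rw [h2, hw]
  have hmul : ∀ w w', w * Q = w → w * w' = Q → s * w * star s * (s * w' * star s) = P := by
    intro w w' hw hww
    calc s * w * star s * (s * w' * star s) = s * ((w * (star s * s)) * w') * star s := by
          simp only [mul_assoc]
      _ = s * (star s * s) * star s := by rw [h2, hw, hww]
      _ = (s * star s) * (s * star s) := by simp only [mul_assoc]
      _ = P := by rw [h1, hPP]
  exact ⟨hPP, hmul z z' h.xp h.xx', hmul z' z h.xp' h.x'x, hQz z h.px, hzQ z h.xp, hQz z' h.px',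
    hzQ z' h.xp'⟩

variable {E F : DGraph} {A B : Type} [NonUnitalCStarAlgebra A] [NonUnitalCStarAlgebra B]

/-- The data. -/
structure FinD (cE : Cut E) (cF : Cut F) (l : Fam E A) (m : Fam F B) where
  hA : IsGraphCStar E A l
  hB : IsGraphCStar F B m
  ψ : img (cE.res_ck hA.ck) →⋆ₙₐ[ℂ] img (cF.res_ck hB.ck)
  ψ' : img (cF.res_ck hB.ck) →⋆ₙₐ[ℂ] img (cE.res_ck hA.ck)
  lr : ∀ x, ψ' (ψ x) = x
  rl : ∀ x, ψ (ψ' x) = x
  σ : {e // e ∈ cE.D} ≃ {d // d ∈ cF.D}
  s : {e // e ∈ cE.D} → img (cF.res_ck hB.ck)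
  s1 : ∀ e, s e * star (s e) = ψ ((imf (cE.res_ck hA.ck)).P (E.src e.1))
  s2 : ∀ e, star (s e) * s e = (imf (cF.res_ck hB.ck)).P (F.src (σ e).1)

namespace FinD

variable {cE : Cut E} {cF : Cut F} {l : Fam E A} {m : Fam F B} (D : FinD cE cF l m)

/-- The inverse data. -/
def symm : FinD cF cE m l where
  hA := D.hB
  hB := D.hA
  ψ := D.ψ'
  ψ' := D.ψ
  lr := D.rl
  rl := D.lr
  σ := D.σ.symm
  s d := star (D.ψ' (D.s (D.σ.symm d)))
  s1 d := by
    rw [star_star, ← map_star, ← map_mul, D.s2, Equiv.apply_symm_apply]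
  s2 d := by
    rw [star_star, ← map_star, ← map_mul, D.s1, D.lr]

/-- The coercion of the image of the acyclic part. -/
def Θ : img (cE.res_ck D.hA.ck) →⋆ₙₐ[ℂ] B where
  toFun x := (D.ψ x : B)
  map_smul' t x := by
    rw [map_smul]
    rfl
  map_zero' := by
    rw [map_zero]
    rfl
  map_add' x y := by
    rw [map_add]
    rfl
  map_mul' x y := by
    rw [map_mul]
    rfl
  map_star' x := by
    rw [map_star]
    rfl

theorem Θ_apply (x : img (cE.res_ck D.hA.ck)) : D.Θ x = (D.ψ x : B) := rfl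

/-- The family of the acyclic part. -/
def base : Fam cE.G B := (imf (cE.res_ck D.hA.ck)).map D.Θ

theorem base_ck : IsCK D.base where
  lv := IsLeavitt.map D.Θ (imf_lv _)
  sa v := by
    change star (D.Θ _) = D.Θ _
    rw [← map_star, (imf_ck _).sa]
  st e := by
    change D.Θ _ = star (D.Θ _)
    rw [← map_star, ← (imf_ck _).st]

open Classical in
/-- The units. -/
def X (e : E.Ed) : B := if h : e ∈ cE.D then
  (D.s ⟨e, h⟩ : B) * cF.z m (D.σ ⟨e, h⟩).1 * star (D.s ⟨e, h⟩ : B) else 0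

theorem X_eq {e : E.Ed} (h : e ∈ cE.D) :
    D.X e = (D.s ⟨e, h⟩ : B) * cF.z m (D.σ ⟨e, h⟩).1 * star (D.s ⟨e, h⟩ : B) := dif_pos h

theorem star_X {e : E.Ed} (h : e ∈ cE.D) :
    star (D.X e) = (D.s ⟨e, h⟩ : B) * cF.z' m (D.σ ⟨e, h⟩).1 * star (D.s ⟨e, h⟩ : B) := by
  rw [D.X_eq h, star_mul, star_mul, star_star, cF.star_z D.hB.ck, mul_assoc]

theorem s1B {e : E.Ed} (h : e ∈ cE.D) :
    (D.s ⟨e, h⟩ : B) * star (D.s ⟨e, h⟩ : B) = D.base.P (E.src e) :=
  congrArg Subtype.val (D.s1 ⟨e, h⟩)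

theorem s2B {e : E.Ed} (h : e ∈ cE.D) :
    star (D.s ⟨e, h⟩ : B) * (D.s ⟨e, h⟩ : B) = m.P (F.src (D.σ ⟨e, h⟩).1) := by
  have h1 := congrArg Subtype.val (D.s2 ⟨e, h⟩)
  rw [coe_P] at h1
  exact h1

theorem cuX {e : E.Ed} (h : e ∈ cE.D) : CU (D.base.P (E.src e)) (D.X e) (star (D.X e)) := by
  rw [D.star_X h, D.X_eq h]
  exact cu_conj (D.base_ck.lv.idem _) (D.s1B h) (D.s2B h) (cF.cu D.hB.ck.lv (D.σ ⟨e, h⟩).2)

theorem isUnX : cE.IsUn D.base D.X (fun e => star (D.X e)) where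
  xx' _ h := (D.cuX h).xx'
  x'x _ h := (D.cuX h).x'x
  px _ h := (D.cuX h).px
  xp _ h := (D.cuX h).xp
  px' _ h := (D.cuX h).px'
  xp' _ h := (D.cuX h).xp'

/-- The family in `B`. -/
def n : Fam E B := cE.ext D.base D.X (fun e => star (D.X e))

theorem n_ck : IsCK D.n := cE.ext_ck D.base_ck D.isUnX fun _ _ => rfl

theorem exists_f : ∃ f : SHom A B, l.map f = D.n := (D.hA.univ B D.n D.n_ck).exists

/-- The homomorphism. -/
def f : SHom A B := Classical.choose D.exists_f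

theorem f_map : l.map D.f = D.n := Classical.choose_spec D.exists_f

/-- The homomorphism on the acyclic part. -/
theorem f_img (x : img (cE.res_ck D.hA.ck)) : D.f (x : A) = (D.ψ x : B) := by
  obtain ⟨y, rfl⟩ := toImg_surj _ x
  have h1 : cE.res (l.map D.f) = D.base := by
    rw [D.f_map]
    exact cE.res_ext _ _ _
  have h2 : (lf cE.G).map ((D.f : A →ₙₐ[ℂ] B).comp (lLift (cE.res_ck D.hA.ck).lv)) =
      (lf cE.G).map ((D.Θ : img (cE.res_ck D.hA.ck) →ₙₐ[ℂ] B).comp
        (toImg (cE.res_ck D.hA.ck))) := by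
    change ((lf cE.G).map (lLift (cE.res_ck D.hA.ck).lv)).map D.f = D.base
    rw [lLift_lf, cE.res_map]
    exact h1
  exact lpa_ext h2 y

theorem f_z {e : E.Ed} (h : e ∈ cE.D) : D.f (cE.z l e) = D.X e := by
  rw [← cE.map_z, D.f_map]
  exact cE.z_ext D.base_ck.lv D.isUnX h

/-- A homomorphism which fixes the acyclic part and the units is the identity. -/
theorem eq_id (hA : IsGraphCStar E A l) (h : SHom A A)
    (h1 : ∀ x : img (cE.res_ck hA.ck), h (x : A) = x)
    (h2 : ∀ e ∈ cE.D, h (cE.z l e) = cE.z l e) : h = NonUnitalStarAlgHom.id ℂ A := by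
  apply (hA.univ A l hA.ck).unique _ rfl
  have hl : IsLeavitt (l.map h) := IsLeavitt.map h hA.ck.lv
  have h3 : cE.res (l.map h) = cE.res l := by
    ext e
    · have h4 := h1 ((imf (cE.res_ck hA.ck)).P e)
      rw [coe_P] at h4
      exact h4
    · have h4 := h1 ((imf (cE.res_ck hA.ck)).S e)
      rw [coe_S] at h4
      exact h4
    · have h4 := h1 ((imf (cE.res_ck hA.ck)).T e)
      rw [coe_T] at h4
      exact h4
  have h5 : ∀ e ∈ cE.D, cE.z (l.map h) e = cE.z l e := fun e he => by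
    rw [cE.map_z, h2 e he]
  have h6 : ∀ e ∈ cE.D, cE.z' (l.map h) e = cE.z' l e := fun e he => by
    rw [cE.map_z', ← cE.star_z hA.ck, map_star, h2 e he]
  calc l.map h = cE.ext (cE.res (l.map h)) (cE.z (l.map h)) (cE.z' (l.map h)) :=
        (cE.ext_z hl).symm
    _ = cE.ext (cE.res l) (cE.z l) (cE.z' l) := by
        rw [h3]
        exact cE.ext_congr _ h5 h6
    _ = l := cE.ext_z hA.ck.lv

theorem gf : D.symm.f.comp D.f = NonUnitalStarAlgHom.id ℂ A := by
  apply eq_id (cE := cE) D.hA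
  · intro x
    change D.symm.f (D.f (x : A)) = x
    rw [D.f_img]
    have h1 := D.symm.f_img (D.ψ x)
    rw [h1]
    change ((D.ψ' (D.ψ x) : img (cE.res_ck D.hA.ck)) : A) = x
    rw [D.lr]
  · intro e he
    change D.symm.f (D.f (cE.z l e)) = _
    have hcu := cE.cu D.hA.ck.lv he
    rw [D.f_z he, D.X_eq he, map_mul, map_mul, map_star]
    have h1 := D.symm.f_img (D.s ⟨e, he⟩)
    have h2 := D.symm.f_z (D.σ ⟨e, he⟩).2
    rw [D.symm.X_eq (D.σ ⟨e, he⟩).2] at h2
    rw [h1, h2]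
    change ((D.ψ' (D.s ⟨e, he⟩) : img (cE.res_ck D.hA.ck)) : A) *
      (star ((D.ψ' (D.s (D.σ.symm (D.σ ⟨e, he⟩))) : img (cE.res_ck D.hA.ck)) : A) *
        cE.z l (D.σ.symm (D.σ ⟨e, he⟩)).1 *
        star (star ((D.ψ' (D.s (D.σ.symm (D.σ ⟨e, he⟩))) : img (cE.res_ck D.hA.ck)) : A))) *
      star ((D.ψ' (D.s ⟨e, he⟩) : img (cE.res_ck D.hA.ck)) : A) = cE.z l e
    rw [Equiv.symm_apply_apply, star_star]
    have h3 : ((D.ψ' (D.s ⟨e, he⟩) : img (cE.res_ck D.hA.ck)) : A) *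
        star ((D.ψ' (D.s ⟨e, he⟩) : img (cE.res_ck D.hA.ck)) : A) = l.P (E.src e) := by
      have h4 : D.ψ' (D.s ⟨e, he⟩) * star (D.ψ' (D.s ⟨e, he⟩)) =
          (imf (cE.res_ck D.hA.ck)).P (E.src e) := by
        rw [← map_star, ← map_mul, D.s1, D.lr]
      have h5 := congrArg Subtype.val h4
      rw [coe_P] at h5
      exact h5
    calc _ = (((D.ψ' (D.s ⟨e, he⟩) : img (cE.res_ck D.hA.ck)) : A) *
          star ((D.ψ' (D.s ⟨e, he⟩) : img (cE.res_ck D.hA.ck)) : A)) * cE.z l e *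
          (((D.ψ' (D.s ⟨e, he⟩) : img (cE.res_ck D.hA.ck)) : A) *
          star ((D.ψ' (D.s ⟨e, he⟩) : img (cE.res_ck D.hA.ck)) : A)) := by
          simp only [mul_assoc]
      _ = cE.z l e := by rw [h3, hcu.px, hcu.xp]

theorem fg (y : B) : D.f (D.symm.f y) = y := by
  have h1 : ∀ x, D.symm.f (D.f x) = x := fun x => DFunLike.congr_fun D.gf x
  have h2 : ∀ y, D.symm.symm.f (D.symm.f y) = y := fun y => DFunLike.congr_fun D.symm.gf y
  have h3 : ∀ x, D.symm.symm.f x = D.f x := fun x => by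
    have h4 := h2 (D.f x)
    rwa [h1] at h4
  rw [← h3]
  exact h2 y

/-- The isomorphism. -/
def equiv : A ≃⋆ₐ[ℂ] B :=
  { D.f with
    toFun := D.f
    invFun := D.symm.f
    left_inv := fun x => DFunLike.congr_fun D.gf x
    right_inv := fun x => D.fg x
    map_smul' := fun t x => map_smul D.f t x
    map_star' := fun x => map_star D.f x }

theorem equiv_apply (x : A) : D.equiv x = D.f x := rfl

/-- The isomorphism respects the Leavitt path algebras. -/
theorem f_range (x : LPA E) : ∃ y : LPA F, D.f (lLift D.hA.ck.lv x) = lLift D.hB.ck.lv y := by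
  let R : Submodule ℂ B := LinearMap.range (lLift D.hB.ck.lv : LPA F →ₗ[ℂ] B)
  have hR : ∀ {b : B}, b ∈ R ↔ ∃ y, lLift D.hB.ck.lv y = b := Iff.rfl
  have hmul : ∀ a ∈ R, ∀ b ∈ R, a * b ∈ R := by
    rintro _ ⟨a, rfl⟩ _ ⟨b, rfl⟩
    exact ⟨a * b, map_mul (lLift D.hB.ck.lv) a b⟩
  have himg : ∀ y : img (cF.res_ck D.hB.ck), (y : B) ∈ R := by
    intro y
    obtain ⟨w, rfl⟩ := toImg_surj _ y
    refine ⟨cF.iota w, ?_⟩
    have h1 : (lf cF.G).map ((lLift D.hB.ck.lv).comp cF.iota) =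
        (lf cF.G).map (lLift (cF.res_ck D.hB.ck).lv) := by
      change ((lf cF.G).map cF.iota).map (lLift D.hB.ck.lv) = _
      rw [cF.iota_lf, cF.res_map, lLift_lf, lLift_lf]
    exact lpa_ext h1 w
  have hstar : ∀ y : img (cF.res_ck D.hB.ck), star (y : B) ∈ R := fun y => himg (star y)
  have hz : ∀ d, cF.z m d ∈ R := by
    intro d
    refine ⟨cF.z (lf F) d, ?_⟩
    change lLift D.hB.ck.lv _ = _
    rw [← cF.map_z, lLift_lf]
  have hz' : ∀ d, cF.z' m d ∈ R := by
    intro d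
    refine ⟨cF.z' (lf F) d, ?_⟩
    change lLift D.hB.ck.lv _ = _
    rw [← cF.map_z', lLift_lf]
  have hX : ∀ e ∈ cE.D, D.X e ∈ R := by
    intro e he
    rw [D.X_eq he]
    exact hmul _ (hmul _ (himg _) _ (hz _)) _ (hstar _)
  have hX' : ∀ e ∈ cE.D, star (D.X e) ∈ R := by
    intro e he
    rw [D.star_X he]
    exact hmul _ (hmul _ (himg _) _ (hz' _)) _ (hstar _)
  have hSP : ∀ w p, D.base.SP w p ∈ R := by
    intro w p
    unfold base
    rw [Fam.map_SP]
    exact himg _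
  have hTP : ∀ w p, D.base.TP w p ∈ R := by
    intro w p
    unfold base
    rw [Fam.map_TP]
    exact himg _
  let Y : Submodule ℂ (LPA E) :=
    R.comap ((D.f : A →ₙₐ[ℂ] B).comp (lLift D.hA.ck.lv) : LPA E →ₗ[ℂ] B)
  have hY : ∀ x, x ∈ Y ↔ D.f (lLift D.hA.ck.lv x) ∈ R := fun x => Iff.rfl
  have hYm : ∀ a ∈ Y, ∀ b ∈ Y, a * b ∈ Y := by
    intro a ha b hb
    rw [hY] at ha hb ⊢
    rw [map_mul, map_mul]
    exact hmul _ ha _ hb
  have hfam : (lf E).map (fun x => D.f (lLift D.hA.ck.lv x)) = D.n := by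
    change ((lf E).map (lLift D.hA.ck.lv)).map D.f = D.n
    rw [lLift_lf, D.f_map]
  have hP : ∀ v, (lf E).P v ∈ Y := by
    intro v
    rw [hY]
    have h1 : D.f (lLift D.hA.ck.lv ((lf E).P v)) = D.n.P v := congrFun (congrArg Fam.P hfam) v
    rw [h1]
    exact himg _
  have hS : ∀ e, (lf E).S e ∈ Y := by
    intro e
    rw [hY]
    have h1 : D.f (lLift D.hA.ck.lv ((lf E).S e)) = D.n.S e := congrFun (congrArg Fam.S hfam) e
    rw [h1]
    unfold n
    by_cases he : e ∈ cE.D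
    · rw [cE.ext_S _ _ _ he]
      exact hmul _ (hX e he) _ (hTP _ _)
    · rw [cE.ext_S' _ _ _ he]
      exact himg _
  have hT : ∀ e, (lf E).T e ∈ Y := by
    intro e
    rw [hY]
    have h1 : D.f (lLift D.hA.ck.lv ((lf E).T e)) = D.n.T e := congrFun (congrArg Fam.T hfam) e
    rw [h1]
    unfold n
    by_cases he : e ∈ cE.D
    · rw [cE.ext_T _ _ _ he]
      exact hmul _ (hSP _ _) _ (hX' e he)
    · rw [cE.ext_T' _ _ _ he]
      exact himg _
  have hx : x ∈ Y := lpa_top Y hP hS hT (fun v => hYm _ (hP v)) (fun e => hYm _ (hS e))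
    (fun e => hYm _ (hT e)) x
  obtain ⟨y, hy⟩ := (hY x).1 hx
  exact ⟨y, hy.symm⟩

end FinD

end

end Pool.Agent.Lib.MP_8f60dc_al
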