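import Pool.Agent.Lib.MP_8f60dc_al.NX.Str

/-!
# The forward step
-/

set_option autoImplicit false
set_option linter.unusedSectionVars false

namespace Pool.Agent.Lib.MP_8f60dc_al

noncomputable section

section

variable {B : Type*} [NonUnitalCStarAlgebra B]

/-- The unital *-subalgebra defined by a *-closed subalgebra. -/
def unitSub (K : Submodule ℂ B) (hmul : ∀ a ∈ K, ∀ b ∈ K, a * b ∈ K)
    (hstar : ∀ a ∈ K, star a ∈ K) : StarSubalgebra ℂ (Unitization ℂ B) where
  carrier := {u | u.snd ∈ K}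
  mul_mem' {a b} ha hb := by
    change (a * b).snd ∈ K
    rw [Unitization.snd_mul]
    exact K.add_mem (K.add_mem (K.smul_mem _ hb) (K.smul_mem _ ha)) (hmul _ ha _ hb)
  add_mem' {a b} ha hb := K.add_mem ha hb
  algebraMap_mem' r := by
    change (algebraMap ℂ (Unitization ℂ B) r).snd ∈ K
    have h1 : (algebraMap ℂ (Unitization ℂ B) r).snd = 0 := rfl
    rw [h1]
    exact K.zero_mem
  star_mem' {a} ha := hstar _ ha

theorem unitSub_mem {K : Submodule ℂ B} {hmul : ∀ a ∈ K, ∀ b ∈ K, a * b ∈ K}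
    {hstar : ∀ a ∈ K, star a ∈ K} {u : Unitization ℂ B} :
    u ∈ unitSub K hmul hstar ↔ u.snd ∈ K := Iff.rfl

theorem unitSub_fd (K : Submodule ℂ B) [FiniteDimensional ℂ K]
    (hmul : ∀ a ∈ K, ∀ b ∈ K, a * b ∈ K) (hstar : ∀ a ∈ K, star a ∈ K) :
    FiniteDimensional ℂ (unitSub K hmul hstar) := by
  let f : unitSub K hmul hstar →ₗ[ℂ] ℂ × K :=
    { toFun := fun u => (u.1.fst, ⟨u.1.snd, u.2⟩)
      map_add' := fun _ _ => rfl
      map_smul' := fun _ _ => rfl }
  apply Module.Finite.of_injective f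
  intro u v huv
  apply Subtype.ext
  apply Unitization.ext
  · have h1 : (f u).1 = (f v).1 := by rw [huv]
    exact h1
  · have h1 : ((f u).2 : B) = (f v).2 := by rw [huv]
    exact h1

theorem unitSub_closed (K : Submodule ℂ B) [FiniteDimensional ℂ K]
    (hmul : ∀ a ∈ K, ∀ b ∈ K, a * b ∈ K) (hstar : ∀ a ∈ K, star a ∈ K) :
    IsClosed ((unitSub K hmul hstar : StarSubalgebra ℂ (Unitization ℂ B)) :
      Set (Unitization ℂ B)) := by
  have := unitSub_fd K hmul hstar
  exact Submodule.closed_of_finiteDimensional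
    (Subalgebra.toSubmodule (unitSub K hmul hstar).toSubalgebra)

/-- Square roots in the unital *-subalgebra. -/
theorem exists_W1 (K : Submodule ℂ B) [FiniteDimensional ℂ K]
    (hmul : ∀ a ∈ K, ∀ b ∈ K, a * b ∈ K) (hstar : ∀ a ∈ K, star a ∈ K) {κ : Type*} [Fintype κ]
    (y v : κ → Unitization ℂ B) (hy : ∀ i, (y i).snd ∈ K) (hv : ∀ i, (v i).snd ∈ K)
    (h : ∑ o, v o * y o = 1) :
    ∃ W W' : Unitization ℂ B, W.snd ∈ K ∧ W'.snd ∈ K ∧ W * W' = 1 ∧ W' * W = 1 ∧ star W = W ∧
      W * W = ∑ o, star (y o) * y o ∧ ∀ u : Unitization ℂ B, u.snd ∈ K →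
        (∑ o, star (y o) * y o) * u = u * (∑ o, star (y o) * y o) → W * u = u * W := by
  have hc := unitSub_closed K hmul hstar
  have hf := unitSub_fd K hmul hstar
  let N := unitSub K hmul hstar
  let _ : CStarAlgebra N := StarSubalgebra.cstarAlgebra N (h_closed := hc)
  let y' : κ → N := fun o => ⟨y o, hy o⟩
  let v' : κ → N := fun o => ⟨v o, hv o⟩
  have hsum : ∀ g : κ → N, ((∑ o, g o : N) : Unitization ℂ B) = ∑ o, (g o : Unitization ℂ B) :=
    fun g => map_sum N.subtype g _
  have h' : ∑ o, v' o * y' o = 1 := by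
    apply Subtype.ext
    rw [hsum]
    exact h
  obtain ⟨W, W', h1, h2, h3, h4, h5⟩ := exists_W y' v' h'
  have h4' : (W : Unitization ℂ B) * W = ∑ o, star (y o) * y o := by
    have h6 := congrArg (Subtype.val) h4
    rw [hsum] at h6
    exact h6
  refine ⟨W, W', W.2, W'.2, congrArg Subtype.val h1, congrArg Subtype.val h2,
    congrArg Subtype.val h3, h4', ?_⟩
  intro u hu hcomm
  have h6 := h5 ⟨u, hu⟩ (by
    rw [← h4]
    apply Subtype.ext
    change (W : Unitization ℂ B) * W * u = u * ((W : Unitization ℂ B) * W)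
    rw [h4']
    exact hcomm)
  exact congrArg Subtype.val h6

end

variable {R : Type*} [NonUnitalRing R] [StarRing R] [Module ℂ R] [IsScalarTower ℂ R R]
  [SMulCommClass ℂ R R] [StarModule ℂ R]

theorem star_mem_muSpan {ι κ : Type*} {z y : ι → R} {v : ι → κ}
    (hs : ∀ i, star (z i) = y i) {a : R} (ha : a ∈ muSpan z y v) : star a ∈ muSpan z y v := by
  unfold muSpan at ha
  induction ha using Submodule.span_induction with
  | mem x hx =>
    obtain ⟨j, k, hjk, rfl⟩ := hx
    rw [star_mul, hs, ← hs k, star_star]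
    exact MU.mem hjk.symm
  | zero => rw [star_zero]; exact Submodule.zero_mem _
  | add x y _ _ h h' => rw [star_add]; exact Submodule.add_mem _ h h'
  | smul t x _ h => rw [star_smul]; exact Submodule.smul_mem _ _ h

/-- The forward step. -/
theorem forward {B : Type*} [NonUnitalCStarAlgebra B] {SB : NonUnitalStarSubalgebra ℂ B}
    (hB : HasPieces SB) {ι κ : Type*} [Fintype ι] {z y : ι → R} {q : κ → R} {v : ι → κ}
    (h : MU z y q v) (hs : ∀ i, star (z i) = y i) (β : R →ₙₐ[ℂ] SB) :
    ∃ α α' : SB →ₙₐ[ℂ] SB, (∀ x, α' (α x) = x) ∧ (∀ x, α (α' x) = x) ∧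
      (∀ J, IsId J → ∀ x ∈ J, α x ∈ J) ∧ (∀ J, IsId J → ∀ x ∈ J, α' x ∈ J) ∧
      (∀ c ∈ muSpan z y v, α (β (star c)) = star (α (β c))) ∧
      ∀ c ∈ muSpan z y v, β (star c) = star (β c) → α (β c) = β c := by
  classical
  obtain ⟨ι', κ', hfi, z', y', q', v', hmu, hs', hF⟩ :=
    hB (Finset.univ.image (fun i => β (z i)) ∪ Finset.univ.image (fun i => β (y i)))
  have hzK : ∀ i, β (z i) ∈ muSpan z' y' v' := fun i =>
    hF _ (Finset.mem_union_left _ (Finset.mem_image_of_mem _ (Finset.mem_univ i)))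
  have hyK : ∀ i, β (y i) ∈ muSpan z' y' v' := fun i =>
    hF _ (Finset.mem_union_right _ (Finset.mem_image_of_mem _ (Finset.mem_univ i)))
  have hKfd : FiniteDimensional ℂ (muSpan z' y' v') := MU.finite_span
  let sb : SB →ₗ[ℂ] B :=
    { toFun := fun x => (x : B)
      map_add' := fun _ _ => rfl
      map_smul' := fun _ _ => rfl }
  obtain ⟨K, hK⟩ : ∃ K, K = (muSpan z' y' v').map sb := ⟨_, rfl⟩
  have hKm : ∀ {x : SB}, x ∈ muSpan z' y' v' → (x : B) ∈ K := by
    intro x hx
    rw [hK]
    exact ⟨x, hx, rfl⟩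
  have hKfd' : FiniteDimensional ℂ K := by
    rw [hK]
    infer_instance
  have hKSB : ∀ x ∈ K, x ∈ SB := by
    intro x hx
    rw [hK] at hx
    obtain ⟨x, -, rfl⟩ := hx
    exact x.2
  have hmul : ∀ a ∈ K, ∀ b ∈ K, a * b ∈ K := by
    intro a ha b hb
    rw [hK] at ha hb
    obtain ⟨a, ha, rfl⟩ := ha
    obtain ⟨b, hb, rfl⟩ := hb
    exact hKm (hmu.mul_mem ha hb)
  have hstar : ∀ a ∈ K, star a ∈ K := by
    intro a ha
    rw [hK] at ha
    obtain ⟨a, ha, rfl⟩ := ha
    exact hKm (star_mem_muSpan hs' ha)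
  let θ : R → Unitization ℂ B := fun a => ((β a : B) : Unitization ℂ B)
  have θmul : ∀ a b, θ (a * b) = θ a * θ b := by
    intro a b
    change ((β (a * b) : B) : Unitization ℂ B) = _
    rw [map_mul]
    exact Unitization.inr_mul ℂ _ _
  have θadd : ∀ a b, θ (a + b) = θ a + θ b := by
    intro a b
    change ((β (a + b) : B) : Unitization ℂ B) = _
    rw [map_add]
    exact Unitization.inr_add ℂ _ _
  have θsmul : ∀ (t : ℂ) a, θ (t • a) = t • θ a := by
    intro t a
    change ((β (t • a) : B) : Unitization ℂ B) = _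
    rw [map_smul]
    exact Unitization.inr_smul ℂ _ _
  have θzero : θ 0 = 0 := by
    change ((β 0 : B) : Unitization ℂ B) = _
    rw [map_zero]
    exact Unitization.inr_zero ℂ
  have θsum : ∀ (s : Finset ι) (g : ι → R), θ (∑ i ∈ s, g i) = ∑ i ∈ s, θ (g i) := by
    intro s g
    induction s using Finset.induction_on with
    | empty => rw [Finset.sum_empty, Finset.sum_empty, θzero]
    | insert a s ha ih => rw [Finset.sum_insert ha, Finset.sum_insert ha, θadd, ih]
  have hcK : ∀ c ∈ muSpan z y v, β c ∈ muSpan z' y' v' := by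
    intro c hc
    unfold muSpan at hc
    induction hc using Submodule.span_induction with
    | mem x hx =>
      obtain ⟨j, k, hjk, rfl⟩ := hx
      rw [map_mul]
      exact hmu.mul_mem (hzK j) (hyK k)
    | zero => rw [map_zero]; exact Submodule.zero_mem _
    | add x y _ _ h h' => rw [map_add]; exact Submodule.add_mem _ h h'
    | smul t x _ h => rw [map_smul]; exact Submodule.smul_mem _ _ h
  obtain ⟨P, hP⟩ : ∃ P, P = ∑ i, θ (z i) * θ (y i) := ⟨_, rfl⟩
  have hPK : P.snd ∈ K := by
    have h1 : P = θ (∑ i, z i * y i) := by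
      rw [hP, θsum]
      exact Finset.sum_congr rfl fun i _ => (θmul _ _).symm
    rw [h1]
    change (β (∑ i, z i * y i) : B) ∈ K
    apply hKm
    rw [map_sum]
    apply Submodule.sum_mem
    intro i _
    rw [map_mul]
    exact hmu.mul_mem (hzK i) (hyK i)
  have hPc : ∀ c ∈ muSpan z y v, P * θ c = θ c := by
    intro c hc
    have h1 : P = θ (∑ i, z i * y i) := by
      rw [hP, θsum]
      exact Finset.sum_congr rfl fun i _ => (θmul _ _).symm
    rw [h1, ← θmul, h.unit_mul hc]
  let Y : Option ι → Unitization ℂ B := fun o => o.elim (1 - P) (fun i => θ (y i))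
  let V : Option ι → Unitization ℂ B := fun o => o.elim 1 (fun i => θ (z i))
  have hYK : ∀ o, (Y o).snd ∈ K := by
    rintro (_ | i)
    · change (0 : B) - P.snd ∈ K
      exact K.sub_mem K.zero_mem hPK
    · exact hKm (hyK i)
  have hVK : ∀ o, (V o).snd ∈ K := by
    rintro (_ | i)
    · exact K.zero_mem
    · exact hKm (hzK i)
  have hone : ∑ o, V o * Y o = 1 := by
    rw [Fintype.sum_option]
    change 1 * (1 - P) + ∑ i, θ (z i) * θ (y i) = 1
    rw [one_mul, ← hP, sub_add_cancel]
  obtain ⟨W, W', hW, hW', hWW', hW'W, hWs, hWW, hWc⟩ := exists_W1 K hmul hstar Y V hYK hVK hone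
  obtain ⟨H, hH⟩ : ∃ H, H = ∑ o, star (Y o) * Y o := ⟨_, rfl⟩
  rw [← hH] at hWW hWc
  -- the main identity
  have hHc : ∀ c ∈ muSpan z y v, H * θ c = star (H * θ (star c)) := by
    have hprod : ∀ j k, v j = v k → H * θ (z j * y k) = star (θ (y j)) * θ (y k) := by
      intro j k hjk
      rw [hH, Fintype.sum_option, add_mul]
      change star (1 - P) * (1 - P) * θ (z j * y k) +
        (∑ i, star (θ (y i)) * θ (y i)) * θ (z j * y k) = _
      rw [mul_assoc, sub_mul, one_mul, hPc _ (MU.mem hjk), sub_self, mul_zero, zero_add,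
        Finset.sum_mul, Finset.sum_eq_single j]
      · rw [mul_assoc, ← θmul, h.yzy hjk rfl]
      · intro i _ hi
        rw [mul_assoc, ← θmul, h.yzy0 _ hi, θzero, mul_zero]
      · intro hj
        exact absurd (Finset.mem_univ j) hj
    intro c hc
    unfold muSpan at hc
    induction hc using Submodule.span_induction with
    | mem x hx =>
      obtain ⟨j, k, hjk, rfl⟩ := hx
      have h1 : star (z j * y k) = z k * y j := by
        rw [star_mul, hs, ← hs k, star_star]
      rw [h1, hprod j k hjk, hprod k j hjk.symm, star_mul, star_star]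
    | zero => rw [star_zero, θzero, mul_zero, star_zero]
    | add x y _ _ h h' => rw [star_add, θadd, θadd, mul_add, mul_add, star_add, h, h']
    | smul t x _ h =>
      rw [star_smul, θsmul, θsmul, mul_smul_comm, mul_smul_comm, star_smul, h, star_star]
  have hW's : star W' = W' := by
    calc star W' = star W' * (W * W') := by rw [hWW', mul_one]
      _ = star (W * W') * W' := by rw [star_mul, hWs, mul_assoc]
      _ = W' := by rw [hWW', star_one, one_mul]
  refine ⟨adj SB W W' (hKSB _ hW) (hKSB _ hW') hW'W, adj SB W' W (hKSB _ hW') (hKSB _ hW) hWW',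
    adj_adj _ _ _ _, adj_adj _ _ _ _, fun J hJ x hx => adj_ideal _ _ _ hJ hx,
    fun J hJ x hx => adj_ideal _ _ _ hJ hx, ?_, ?_⟩
  · intro c hc
    apply Subtype.ext
    apply Unitization.inr_injective (R := ℂ)
    have e1 : ((star (adj SB W W' (hKSB _ hW) (hKSB _ hW') hW'W (β c)) : SB) : B) =
        star (adj SB W W' (hKSB _ hW) (hKSB _ hW') hW'W (β c) : B) := rfl
    rw [e1, Unitization.inr_star, adj_coe, adj_coe]
    change W * θ (star c) * W' = star (W * θ c * W')
    have h1 : W * (W * θ (star c)) = star (θ c) * W * W := by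
      have h2 := hHc _ (star_mem_muSpan hs hc)
      rw [star_star, ← hWW, star_mul, star_mul, hWs] at h2
      rw [← mul_assoc, h2, mul_assoc]
    calc W * θ (star c) * W' = W' * (W * (W * θ (star c))) * W' := by
          rw [← mul_assoc W', hW'W, one_mul]
      _ = W' * (star (θ c) * W) * (W * W') := by
          rw [h1]
          simp only [mul_assoc]
      _ = W' * (star (θ c) * W) := by rw [hWW', mul_one]
      _ = star (W * θ c * W') := by rw [star_mul, star_mul, hWs, hW's]
  · intro c hc hcs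
    apply Subtype.ext
    apply Unitization.inr_injective (R := ℂ)
    rw [adj_coe]
    change W * θ c * W' = θ c
    have h1 : θ (star c) = star (θ c) := by
      change ((β (star c) : B) : Unitization ℂ B) = star ((β c : B) : Unitization ℂ B)
      rw [hcs, ← Unitization.inr_star]
      rfl
    have h2 : H * θ c = θ c * H := by
      rw [hHc c hc, h1, star_mul, star_star, ← hWW, star_mul, hWs]
    have h3 : W * θ c = θ c * W := hWc _ (hKm (hcK c hc)) h2
    rw [h3, mul_assoc, hWW', mul_one]

end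

end Pool.Agent.Lib.MP_8f60dc_al
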