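import Pool.Agent.Lib.MP_8f60dc_al.NX.Rec

/-!
# Recognition: the isomorphism of the acyclic parts
-/

set_option autoImplicit false
set_option linter.unusedSectionVars false

namespace Pool.Agent.Lib.MP_8f60dc_al

noncomputable section

theorem Cut.ext_congr {E : DGraph} (c : Cut E) {R : Type*} [NonUnitalRing R] (l : Fam c.G R)
    {x x' y y' : E.Ed → R} (h : ∀ e ∈ c.D, x e = y e) (h' : ∀ e ∈ c.D, x' e = y' e) :
    c.ext l x x' = c.ext l y y' := by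
  ext e
  · rfl
  · by_cases he : e ∈ c.D
    · rw [c.ext_S _ _ _ he, c.ext_S _ _ _ he, h e he]
    · rw [c.ext_S' _ _ _ he, c.ext_S' _ _ _ he]
  · by_cases he : e ∈ c.D
    · rw [c.ext_T _ _ _ he, c.ext_T _ _ _ he, h' e he]
    · rw [c.ext_T' _ _ _ he, c.ext_T' _ _ _ he]

theorem Cut.ev_congr {E : DGraph} (c : Cut E) {a a' : E.Ed → ℂˣ} (h : ∀ e ∈ c.D, a e = a' e)
    (x : LPA E) : c.ev a x = c.ev a' x := by
  apply lpa_ext
  rw [c.ev_lf, c.ev_lf]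
  apply c.ext_congr
  · intro e he
    rw [h e he]
  · intro e he
    rw [h e he]

namespace LIso

variable {E F : DGraph} {cE : Cut E} {cF : Cut F} (I : LIso cE cF)

include I in
/-- The isomorphism of the acyclic parts. -/
theorem recognition : ∃ (σ : {e // e ∈ cE.D} ≃ {d // d ∈ cF.D})
    (β : LPA cE.G →ₙₐ[ℂ] LPA cF.G) (γ : LPA cF.G →ₙₐ[ℂ] LPA cE.G),
    (∀ x, γ (β x) = x) ∧ (∀ x, β (γ x) = x) ∧
      ∀ e, β ((lf cE.G).P (E.src e.1)) ∈ idl {(lf cF.G).P (F.src (σ e).1)} := by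
  obtain ⟨σ, hσ⟩ := I.exists_sigma
  obtain ⟨μ, hμ⟩ := I.exists_mu 1
  obtain ⟨a, ha⟩ := I.symm.exists_mu μ
  have ha1 : ∀ e ∈ cE.D, a e = 1 := by
    intro e he
    have h1 := ha (cE.z (lf E) e - ((a e : ℂˣ) : ℂ) • (lf E).P (E.src e)) (by
      rw [map_sub, map_smul, cE.ev_z a he, cE.ev_P, sub_self])
    have h2 := hμ _ h1
    change cE.ev 1 (I.Ψ (I.Φ _)) = 0 at h2
    rw [I.l, map_sub, map_smul, cE.ev_z 1 he, cE.ev_P, ← sub_smul] at h2
    rcases smul_eq_zero.1 h2 with h3 | h3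
    · apply Units.ext
      exact (sub_eq_zero.1 h3).symm
    · exact absurd h3 (I.hE _)
  have hμ' : ∀ y, cE.ev 1 y = 0 → cF.ev μ (I.Φ y) = 0 := by
    intro y hy
    apply ha
    rw [cE.ev_congr ha1]
    exact hy
  refine ⟨σ, (cF.ev μ).comp (I.Φ.comp cE.iota), (cE.ev 1).comp (I.Ψ.comp cF.iota), ?_, ?_, ?_⟩
  · intro b
    change cE.ev 1 (I.Ψ (cF.iota (cF.ev μ (I.Φ (cE.iota b))))) = b
    have h1 := hμ (cF.iota (cF.ev μ (I.Φ (cE.iota b))) - I.Φ (cE.iota b)) (by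
      rw [map_sub, cF.ev_iota, sub_self])
    rw [map_sub, map_sub, I.l, cE.ev_iota, sub_eq_zero] at h1
    exact h1
  · intro b
    change cF.ev μ (I.Φ (cE.iota (cE.ev 1 (I.Ψ (cF.iota b))))) = b
    have h1 := hμ' (cE.iota (cE.ev 1 (I.Ψ (cF.iota b))) - I.Ψ (cF.iota b)) (by
      rw [map_sub, cE.ev_iota, sub_self])
    rw [map_sub, map_sub, I.r, cF.ev_iota, sub_eq_zero] at h1
    exact h1
  · intro e
    change cF.ev μ (I.Φ (cE.iota ((lf cE.G).P (E.src e.1)))) ∈ _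
    rw [cE.iota_P]
    have h1 := idl_map (cF.ev μ) (hσ e).1
    rwa [Set.image_singleton, cF.ev_P] at h1

end LIso

end

end Pool.Agent.Lib.MP_8f60dc_al
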