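import Pool.Agent.Lib.MP_8f60dc_al.NX.Itw
import Pool.Agent.Lib.MP_8f60dc_al.NX.Rec2

/-!
# The image of the Leavitt path algebra of an acyclic graph in a C*-algebra
-/

set_option autoImplicit false
set_option linter.unusedSectionVars false

namespace Pool.Agent.Lib.MP_8f60dc_al

noncomputable section

variable {G : DGraph} {A : Type*} [NonUnitalCStarAlgebra A] {l : Fam G A}

theorem lLift_word (hl : IsLeavitt l) (v : G.V) (p q : List G.Ed) :
    lLift hl ((lf G).SP v p * (lf G).TP v q) = l.SP v p * l.TP v q := by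
  rw [map_mul, ← Fam.map_SP, ← Fam.map_TP, lLift_lf]

/-- The image is closed under the involution. -/
theorem star_lLift (hl : IsCK l) (x : LPA G) : ∃ y, lLift hl.lv y = star (lLift hl.lv x) := by
  have hx := lpa_words x
  induction hx using Submodule.span_induction with
  | mem x hx =>
    obtain ⟨v, p, q, rfl⟩ := hx
    refine ⟨(lf G).SP v q * (lf G).TP v p, ?_⟩
    rw [lLift_word, lLift_word, star_mul, Fam.star_SP hl, Fam.star_TP hl]
  | zero => exact ⟨0, by rw [map_zero, star_zero]⟩
  | add x y _ _ h h' =>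
    obtain ⟨a, ha⟩ := h
    obtain ⟨b, hb⟩ := h'
    exact ⟨a + b, by rw [map_add, map_add, star_add, ha, hb]⟩
  | smul t x _ h =>
    obtain ⟨a, ha⟩ := h
    exact ⟨star t • a, by rw [map_smul, map_smul, star_smul, ha]⟩

/-- The image. -/
def img (hl : IsCK l) : NonUnitalStarSubalgebra ℂ A where
  carrier := Set.range (lLift hl.lv)
  add_mem' := by
    rintro _ _ ⟨x, rfl⟩ ⟨y, rfl⟩
    exact ⟨x + y, map_add _ _ _⟩
  zero_mem' := ⟨0, map_zero _⟩
  mul_mem' := by
    rintro _ _ ⟨x, rfl⟩ ⟨y, rfl⟩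
    exact ⟨x * y, map_mul _ _ _⟩
  smul_mem' := by
    rintro t _ ⟨x, rfl⟩
    exact ⟨t • x, map_smul _ _ _⟩
  star_mem' := by
    rintro _ ⟨x, rfl⟩
    exact star_lLift hl x

/-- The map onto the image. -/
def toImg (hl : IsCK l) : LPA G →ₙₐ[ℂ] img hl where
  toFun x := ⟨lLift hl.lv x, x, rfl⟩
  map_smul' _ _ := Subtype.ext (map_smul _ _ _)
  map_zero' := Subtype.ext (map_zero _)
  map_add' _ _ := Subtype.ext (map_add _ _ _)
  map_mul' _ _ := Subtype.ext (map_mul _ _ _)

theorem toImg_surj (hl : IsCK l) : Function.Surjective (toImg hl) := by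
  rintro ⟨_, x, rfl⟩
  exact ⟨x, rfl⟩

theorem toImg_inj (hl : IsCK l) (hac : G.Acyclic) (hne : ∀ v, l.P v ≠ 0) :
    Function.Injective (toImg hl) := fun _ _ h =>
  lLift_injective hac hl.lv hne (congrArg Subtype.val h)

/-- The family in the image. -/
def imf (hl : IsCK l) : Fam G (img hl) := (lf G).map (toImg hl)

theorem imf_lv (hl : IsCK l) : IsLeavitt (imf hl) := IsLeavitt.map (toImg hl) lf_leavitt

theorem coe_P (hl : IsCK l) (v : G.V) : ((imf hl).P v : A) = l.P v :=
  congrFun (congrArg Fam.P (lLift_lf hl.lv)) v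

theorem coe_S (hl : IsCK l) (e : G.Ed) : ((imf hl).S e : A) = l.S e :=
  congrFun (congrArg Fam.S (lLift_lf hl.lv)) e

theorem coe_T (hl : IsCK l) (e : G.Ed) : ((imf hl).T e : A) = l.T e :=
  congrFun (congrArg Fam.T (lLift_lf hl.lv)) e

theorem imf_ck (hl : IsCK l) : IsCK (imf hl) where
  lv := imf_lv hl
  sa v := Subtype.ext (by
    change star ((imf hl).P v : A) = _
    rw [coe_P]
    exact hl.sa v)
  st e := Subtype.ext (by
    change ((imf hl).T e : A) = star ((imf hl).S e : A)
    rw [coe_T, coe_S]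
    exact hl.st e)

theorem star_q {R : Type*} [NonUnitalRing R] [StarRing R] {l : Fam G R} (hl : IsCK l)
    (X : Finset G.Ed) (v : G.V) : star (l.q X v) = l.q X v := by
  classical
  unfold Fam.q
  rw [star_sub, hl.sa, star_sum]
  congr 1
  apply Finset.sum_congr rfl
  intro e _
  rw [star_mul, ← hl.st, hl.st e, star_star]

/-- The image has pieces. -/
theorem img_pieces (hl : IsCK l) (hac : G.Acyclic) : HasPieces (img hl) := by
  classical
  intro F
  choose r hr using toImg_surj hl
  obtain ⟨X, Vs, h⟩ := exists_pc hac (F.image r)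
  have hfin := PI_finite hac X Vs
  refine ⟨PI X Vs, G.V, Fintype.ofFinite _, (imf hl).pz X Vs, (imf hl).py X Vs, (imf hl).q X,
    PI.v, mu_pieces (imf_lv hl) X Vs, ?_, ?_⟩
  · intro i
    unfold Fam.pz Fam.py
    rw [star_mul, star_q (imf_ck hl), Fam.star_SP (imf_ck hl)]
  · intro x hx
    have h1 := Fam.map_pc (toImg hl) (lf G) X Vs (h (r x) (Finset.mem_image_of_mem r hx))
    rw [hr x] at h1
    exact h1

/-- A countable spanning family. -/
theorem img_count (hl : IsCK l) [Countable G.V] [Countable G.Ed] :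
    ∃ sa : ℕ → img hl, Submodule.span ℂ (Set.range sa) = ⊤ := by
  have hc : (insert 0 (wordSet (imf hl))).Countable := by
    apply Set.Countable.insert
    apply (Set.countable_range fun x : G.V × List G.Ed × List G.Ed =>
      (imf hl).SP x.1 x.2.1 * (imf hl).TP x.1 x.2.2).mono
    rintro _ ⟨v, p, q, rfl⟩
    exact ⟨(v, p, q), rfl⟩
  obtain ⟨sa, hsa⟩ := hc.exists_eq_range ⟨0, Set.mem_insert _ _⟩
  refine ⟨sa, ?_⟩
  rw [← hsa, eq_top_iff]
  intro x _
  obtain ⟨y, rfl⟩ := toImg_surj hl x
  have hy := lpa_words y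
  induction hy using Submodule.span_induction with
  | mem y hy =>
    obtain ⟨v, p, q, rfl⟩ := hy
    apply Submodule.subset_span
    right
    refine ⟨v, p, q, ?_⟩
    rw [map_mul, ← Fam.map_SP, ← Fam.map_TP]
    rfl
  | zero => rw [map_zero]; exact Submodule.zero_mem _
  | add x y _ _ h h' => rw [map_add]; exact Submodule.add_mem _ (h trivial) (h' trivial)
  | smul t x _ h => rw [map_smul]; exact Submodule.smul_mem _ _ (h trivial)

/-- The corner of a sink in the image. -/
theorem img_corner (hl : IsCK l) {w : G.V} (hw : G.Sink w) (x : img hl) :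
    ∃ c : ℂ, (imf hl).P w * x * (imf hl).P w = c • (imf hl).P w := by
  obtain ⟨y, rfl⟩ := toImg_surj hl x
  obtain ⟨c, hc⟩ := corner_sink hw y
  refine ⟨c, ?_⟩
  have h1 := congrArg (toImg hl) hc
  rw [map_mul, map_mul, map_smul] at h1
  exact h1

/-- Partial isometries between one-dimensional corners. -/
theorem exists_pi {B : Type*} [NonUnitalCStarAlgebra B] {SB : NonUnitalStarSubalgebra ℂ B}
    {P Q : SB} (hP : star P = P) (hPP : P * P = P) (hQ : star Q = Q) (hQQ : Q * Q = Q)
    (h0 : P ≠ 0) (hPQ : P ∈ idl {Q}) (cP : ∀ x, ∃ c : ℂ, P * x * P = c • P)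
    (cQ : ∀ x, ∃ c : ℂ, Q * x * Q = c • Q) : ∃ s : SB, s * star s = P ∧ star s * s = Q := by
  have key : ∃ a, P * a * Q ≠ 0 := by
    by_contra hcon
    push Not at hcon
    apply h0
    have h1 : ∀ x ∈ idl {Q}, P * x = 0 := by
      intro x hx
      unfold idl at hx
      induction hx using Submodule.span_induction with
      | mem x hx =>
        obtain ⟨a, y, hy, b, rfl⟩ := hx
        rw [Set.mem_singleton_iff.1 hy, ← mul_assoc, ← mul_assoc, hcon, zero_mul]
      | zero => rw [mul_zero]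
      | add x y _ _ h h' => rw [mul_add, h, h', add_zero]
      | smul t x _ h => rw [mul_smul_comm, h, smul_zero]
    rw [← hPP]
    exact h1 P hPQ
  obtain ⟨a, ha⟩ := key
  obtain ⟨x, hx⟩ : ∃ x, x = P * a * Q := ⟨_, rfl⟩
  rw [← hx] at ha
  have hPx : P * x = x := by rw [hx, ← mul_assoc, ← mul_assoc, hPP]
  have hxQ : x * Q = x := by rw [hx, mul_assoc, hQQ]
  obtain ⟨c, hc⟩ := cP (x * star x)
  obtain ⟨d, hd⟩ := cQ (star x * x)
  have hsx : star x * P = star x := by
    have h1 := congrArg star hPx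
    rwa [star_mul, hP] at h1
  have hQsx : Q * star x = star x := by
    have h1 := congrArg star hxQ
    rwa [star_mul, hQ] at h1
  have hc' : x * star x = c • P := by
    rw [← hc, ← mul_assoc, hPx, mul_assoc, hsx]
  have hd' : star x * x = d • Q := by
    rw [← hd, ← mul_assoc, hQsx, mul_assoc, hxQ]
  -- c is positive
  let _ := CStarAlgebra.spectralOrder B
  have := CStarAlgebra.spectralOrderedRing B
  have hxB : (x : B) * star (x : B) = c • (P : B) := congrArg Subtype.val hc'
  have hPB : (P : B) * star (P : B) = (P : B) := by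
    have h1 : (P : B) * (P : B) = P := congrArg Subtype.val hPP
    have h2 : star (P : B) = P := congrArg Subtype.val hP
    rw [h2, h1]
  have hx0 : (x : B) ≠ 0 := fun h => ha (Subtype.ext h)
  have hP0 : (P : B) ≠ 0 := fun h => h0 (Subtype.ext h)
  have hcr : c = (c.re : ℂ) := by
    have h1 : star (x * star x) = x * star x := by rw [star_mul, star_star]
    rw [hc', star_smul, hP] at h1
    have h2 : (star c - c) • P = 0 := by rw [sub_smul, h1, sub_self]
    rcases smul_eq_zero.1 h2 with h3 | h3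
    · exact (Complex.conj_eq_iff_re.1 (sub_eq_zero.1 h3)).symm
    · exact absurd h3 h0
  have hPnn : (0 : B) ≤ P := by
    rw [← hPB]
    exact mul_star_self_nonneg _
  have hcpos : 0 < c.re := by
    by_contra hneg
    push Not at hneg
    have h1 : (0 : B) ≤ (x : B) * star (x : B) := mul_star_self_nonneg _
    have h2 : (x : B) * star (x : B) = -((-c.re) • (P : B)) := by
      rw [hxB, neg_smul, neg_neg]
      conv_lhs => rw [hcr]
      exact Complex.coe_smul _ _
    have h3 : (0 : B) ≤ (-c.re) • (P : B) := smul_nonneg (by linarith) hPnn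
    have h4 : (x : B) * star (x : B) ≤ 0 := by
      rw [h2]
      exact neg_nonpos.2 h3
    have h5 : (x : B) * star (x : B) = 0 := le_antisymm h4 h1
    exact hx0 ((CStarRing.mul_star_self_eq_zero_iff _).1 h5)
  have hcd : c = d := by
    have h1 : x * star x * x = c • x := by rw [hc', smul_mul_assoc, hPx]
    have h2 : x * star x * x = d • x := by rw [mul_assoc, hd', mul_smul_comm, hxQ]
    have h3 : (c - d) • x = 0 := by rw [sub_smul, ← h1, ← h2, sub_self]
    rcases smul_eq_zero.1 h3 with h4 | h4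
    · exact sub_eq_zero.1 h4
    · exact absurd h4 ha
  obtain ⟨r, hr⟩ : ∃ r : ℝ, r = Real.sqrt c.re := ⟨_, rfl⟩
  have hr0 : r ≠ 0 := by
    rw [hr]
    exact (Real.sqrt_pos.2 hcpos).ne'
  have hrr : r * r = c.re := by
    rw [hr]
    exact Real.mul_self_sqrt hcpos.le
  have hrc : ((r⁻¹ : ℝ) : ℂ) * ((r⁻¹ : ℝ) : ℂ) * c = 1 := by
    have hr1 : (r : ℂ) ≠ 0 := Complex.ofReal_ne_zero.2 hr0
    rw [hcr, ← hrr]
    push_cast
    field_simp
  have hst : star ((r⁻¹ : ℝ) : ℂ) = ((r⁻¹ : ℝ) : ℂ) := Complex.conj_ofReal _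
  refine ⟨((r⁻¹ : ℝ) : ℂ) • x, ?_, ?_⟩
  · rw [star_smul, smul_mul_smul_comm, hst, hc', smul_smul, hrc, one_smul]
  · rw [star_smul, smul_mul_smul_comm, hst, hd', ← hcd, smul_smul, hrc, one_smul]

end

end Pool.Agent.Lib.MP_8f60dc_al
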