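import Pool.Agent.Lib.MP_8f60dc_al.NX.Fwd

/-!
# The two-sided intertwining
-/

set_option autoImplicit false
set_option linter.unusedSectionVars false

namespace Pool.Agent.Lib.MP_8f60dc_al

noncomputable section

/-- An isomorphism which preserves the involution on a finite dimensional *-closed subspace. -/
structure Ste (R S : Type*) [NonUnitalRing R] [StarRing R] [Module ℂ R] [NonUnitalRing S]
    [StarRing S] [Module ℂ S] where
  β : R →ₙₐ[ℂ] S
  γ : S →ₙₐ[ℂ] R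
  lr : ∀ x, γ (β x) = x
  rl : ∀ x, β (γ x) = x
  D : Submodule ℂ R
  fin : D.FG
  st : ∀ x ∈ D, star x ∈ D
  pr : ∀ x ∈ D, β (star x) = star (β x)

/-- The same ideals. -/
def IEq {R S : Type*} [NonUnitalRing R] [Module ℂ R] [NonUnitalRing S] [Module ℂ S]
    (β β' : R →ₙₐ[ℂ] S) : Prop := ∀ J, IsId J → ∀ a, β a ∈ J ↔ β' a ∈ J

/-- The inverse. -/
def Ste.symm {R S : Type*} [NonUnitalRing R] [StarRing R] [Module ℂ R] [NonUnitalRing S]
    [StarRing S] [Module ℂ S] (s : Ste R S) : Ste S R where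
  β := s.γ
  γ := s.β
  lr := s.rl
  rl := s.lr
  D := s.D.map (s.β : R →ₗ[ℂ] S)
  fin := s.fin.map _
  st := by
    rintro _ ⟨x, hx, rfl⟩
    exact ⟨star x, s.st x hx, s.pr x hx⟩
  pr := by
    rintro _ ⟨x, hx, rfl⟩
    change s.γ (star (s.β x)) = star (s.γ (s.β x))
    rw [← s.pr x hx, s.lr, s.lr]

section

variable {R : Type*} [NonUnitalRing R] [StarRing R] [Module ℂ R] [IsScalarTower ℂ R R]
  [SMulCommClass ℂ R R] [StarModule ℂ R]

theorem fwd {B : Type*} [NonUnitalCStarAlgebra B] {SB : NonUnitalStarSubalgebra ℂ B}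
    (hR : HasPieces R) (hB : HasPieces SB) (s : Ste R SB) (a : R) :
    ∃ s' : Ste R SB, s.D ≤ s'.D ∧ a ∈ s'.D ∧ (∀ d ∈ s.D, s'.β d = s.β d) ∧ IEq s.β s'.β := by
  classical
  obtain ⟨F, hF⟩ := s.fin
  obtain ⟨ι, κ, hfi, z, y, q, v, hmu, hs, hm⟩ := hR (insert a F)
  obtain ⟨α, α', h1, h2, h3, h4, h5, h6⟩ := forward hB hmu hs s.β
  have hD : s.D ≤ muSpan z y v := by
    rw [← hF]
    exact Submodule.span_le.2 fun x hx => hm x (Finset.mem_insert_of_mem hx)
  have hfd : FiniteDimensional ℂ (muSpan z y v) := MU.finite_span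
  refine ⟨⟨α.comp s.β, s.γ.comp α', ?_, ?_, muSpan z y v, Module.Finite.iff_fg.1 hfd,
    fun x hx => star_mem_muSpan hs hx, h5⟩, hD, hm a (Finset.mem_insert_self _ _), ?_, ?_⟩
  · intro x
    change s.γ (α' (α (s.β x))) = x
    rw [h1, s.lr]
  · intro x
    change α (s.β (s.γ (α' x))) = x
    rw [s.rl, h2]
  · intro d hd
    exact h6 d (hD hd) (s.pr d hd)
  · intro J hJ a
    constructor
    · exact fun h => h3 J hJ _ h
    · intro h
      have h7 := h4 J hJ _ h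
      change α' (α (s.β a)) ∈ J at h7
      rwa [h1] at h7

end

variable {A B : Type*} [NonUnitalCStarAlgebra A] [NonUnitalCStarAlgebra B]
  {SA : NonUnitalStarSubalgebra ℂ A} {SB : NonUnitalStarSubalgebra ℂ B}

theorem bwd (hA : HasPieces SA) (hB : HasPieces SB) (s : Ste SA SB) (b : SB) :
    ∃ s' : Ste SA SB, s.D ≤ s'.D ∧ (∃ a ∈ s'.D, s'.β a = b) ∧ (∀ d ∈ s.D, s'.β d = s.β d) ∧
      IEq s.β s'.β := by
  obtain ⟨t, h1, h2, h3, h4⟩ := fwd hB hA s.symm b
  have h5 : ∀ d ∈ s.D, s.β d ∈ t.D ∧ t.β (s.β d) = d := by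
    intro d hd
    have h6 : s.β d ∈ s.symm.D := ⟨d, hd, rfl⟩
    refine ⟨h1 h6, ?_⟩
    rw [h3 _ h6]
    exact s.lr d
  refine ⟨t.symm, ?_, ?_, ?_, ?_⟩
  · intro d hd
    exact ⟨s.β d, (h5 d hd).1, (h5 d hd).2⟩
  · exact ⟨t.β b, ⟨b, h2, rfl⟩, t.lr b⟩
  · intro d hd
    change t.γ d = s.β d
    have h6 := t.lr (s.β d)
    rwa [(h5 d hd).2] at h6
  · intro J hJ a
    change s.β a ∈ J ↔ t.γ a ∈ J
    have hK : IsId (J.comap (s.β : SA →ₗ[ℂ] SB)) := by
      constructor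
      · intro a x hx
        change s.β (a * x) ∈ J
        rw [map_mul]
        exact hJ.left _ _ hx
      · intro a x hx
        change s.β (x * a) ∈ J
        rw [map_mul]
        exact hJ.right _ _ hx
    have h6 := h4 _ hK (t.γ a)
    change s.β (s.γ (t.γ a)) ∈ J ↔ s.β (t.β (t.γ a)) ∈ J at h6
    rw [s.rl, t.rl] at h6
    exact h6.symm

theorem IEq.trans {R S : Type*} [NonUnitalRing R] [Module ℂ R] [NonUnitalRing S] [Module ℂ S]
    {β β' β'' : R →ₙₐ[ℂ] S} (h : IEq β β') (h' : IEq β' β'') : IEq β β'' :=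
  fun J hJ a => (h J hJ a).trans (h' J hJ a)

theorem both (hA : HasPieces SA) (hB : HasPieces SB) (a : SA) (b : SB) (s : Ste SA SB) :
    ∃ s' : Ste SA SB, s.D ≤ s'.D ∧ a ∈ s'.D ∧ (∃ a ∈ s'.D, s'.β a = b) ∧
      (∀ d ∈ s.D, s'.β d = s.β d) ∧ IEq s.β s'.β := by
  obtain ⟨t, h1, h2, h3, h4⟩ := fwd hA hB s a
  obtain ⟨u, h5, h6, h7, h8⟩ := bwd hA hB t b
  refine ⟨u, h1.trans h5, h5 h2, h6, ?_, h4.trans h8⟩
  intro d hd
  rw [h7 d (h1 hd), h3 d hd]

/-- Two-sided intertwining: isomorphic algebras are *-isomorphic, with the same ideals. -/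
theorem straighten (hA : HasPieces SA) (hB : HasPieces SB) {sa : ℕ → SA} {sb : ℕ → SB}
    (hsa : Submodule.span ℂ (Set.range sa) = ⊤) (hsb : Submodule.span ℂ (Set.range sb) = ⊤)
    (β : SA →ₙₐ[ℂ] SB) (γ : SB →ₙₐ[ℂ] SA) (lr : ∀ x, γ (β x) = x) (rl : ∀ x, β (γ x) = x) :
    ∃ ψ : SA →⋆ₙₐ[ℂ] SB, Function.Bijective ψ ∧ ∀ J, IsId J → ∀ a, β a ∈ J → ψ a ∈ J := by
  let s0 : Ste SA SB := ⟨β, γ, lr, rl, ⊥, Submodule.fg_bot, fun x hx => by
    rw [Submodule.mem_bot] at hx ⊢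
    rw [hx, star_zero], fun x hx => by
    rw [Submodule.mem_bot] at hx
    rw [hx, star_zero, map_zero, star_zero]⟩
  choose f hf1 hf2 hf3 hf4 hf5 using fun (n : ℕ) (s : Ste SA SB) => both hA hB (sa n) (sb n) s
  let u : ℕ → Ste SA SB := fun n => Nat.rec s0 (fun n s => f n s) n
  have hu : ∀ n, u (n + 1) = f n (u n) := fun n => rfl
  have mono : ∀ m n, m ≤ n → (u m).D ≤ (u n).D ∧ ∀ d ∈ (u m).D, (u n).β d = (u m).β d := by
    intro m n hmn
    induction n, hmn using Nat.le_induction with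
    | base => exact ⟨le_refl _, fun _ _ => rfl⟩
    | succ n _ ih =>
      rw [hu]
      exact ⟨ih.1.trans (hf1 n _), fun d hd => by rw [hf4 n _ d (ih.1 hd), ih.2 d hd]⟩
  have hieq : ∀ n, IEq β (u n).β := by
    intro n
    induction n with
    | zero => exact fun J _ a => Iff.rfl
    | succ n ih =>
      rw [hu]
      exact ih.trans (hf5 n _)
  have hex : ∀ a : SA, ∃ n, a ∈ (u n).D := by
    intro a
    have ha : a ∈ Submodule.span ℂ (Set.range sa) := by rw [hsa]; trivial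
    induction ha using Submodule.span_induction with
    | mem x hx =>
      obtain ⟨n, rfl⟩ := hx
      exact ⟨n + 1, by rw [hu]; exact hf2 n _⟩
    | zero => exact ⟨0, Submodule.zero_mem _⟩
    | add x y _ _ h h' =>
      obtain ⟨m, hm⟩ := h
      obtain ⟨n, hn⟩ := h'
      exact ⟨max m n, Submodule.add_mem _ ((mono m _ (le_max_left _ _)).1 hm)
        ((mono n _ (le_max_right _ _)).1 hn)⟩
    | smul t x _ h =>
      obtain ⟨m, hm⟩ := h
      exact ⟨m, Submodule.smul_mem _ _ hm⟩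
  have hsurj : ∀ b : SB, ∃ n, ∃ a ∈ (u n).D, (u n).β a = b := by
    intro b
    have hb : b ∈ Submodule.span ℂ (Set.range sb) := by rw [hsb]; trivial
    induction hb using Submodule.span_induction with
    | mem x hx =>
      obtain ⟨n, rfl⟩ := hx
      exact ⟨n + 1, by rw [hu]; exact hf3 n _⟩
    | zero => exact ⟨0, 0, Submodule.zero_mem _, map_zero _⟩
    | add x y _ _ h h' =>
      obtain ⟨m, a, ha, rfl⟩ := h
      obtain ⟨n, a', ha', rfl⟩ := h'
      have h1 := mono m (max m n) (le_max_left _ _)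
      have h2 := mono n (max m n) (le_max_right _ _)
      refine ⟨max m n, a + a', Submodule.add_mem _ (h1.1 ha) (h2.1 ha'), ?_⟩
      rw [map_add, h1.2 a ha, h2.2 a' ha']
    | smul t x _ h =>
      obtain ⟨m, a, ha, rfl⟩ := h
      exact ⟨m, t • a, Submodule.smul_mem _ _ ha, map_smul _ _ _⟩
  choose N hN using hex
  obtain ⟨ψ, hψ0⟩ : ∃ ψ : SA → SB, ∀ a, ψ a = (u (N a)).β a := ⟨_, fun _ => rfl⟩
  have hψ : ∀ n a, a ∈ (u n).D → ψ a = (u n).β a := by
    intro n a ha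
    rw [hψ0, ← (mono n (max n (N a)) (le_max_left _ _)).2 a ha,
      ← (mono (N a) (max n (N a)) (le_max_right _ _)).2 a (hN a)]
  have two : ∀ a b : SA, ∃ n, a ∈ (u n).D ∧ b ∈ (u n).D := fun a b =>
    ⟨max (N a) (N b), (mono _ _ (le_max_left _ _)).1 (hN a),
      (mono _ _ (le_max_right _ _)).1 (hN b)⟩
  have three : ∀ a b c : SA, ∃ n, a ∈ (u n).D ∧ b ∈ (u n).D ∧ c ∈ (u n).D := by
    intro a b c
    obtain ⟨n, h1, h2⟩ := two a b
    have h3 := mono n (max n (N c)) (le_max_left _ _)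
    exact ⟨max n (N c), h3.1 h1, h3.1 h2, (mono _ _ (le_max_right _ _)).1 (hN c)⟩
  let Ψ : SA →⋆ₙₐ[ℂ] SB :=
    { toFun := ψ
      map_smul' := fun r x => by
        obtain ⟨n, h1, h2⟩ := two x (r • x)
        rw [hψ n _ h1, hψ n _ h2]
        exact map_smul _ _ _
      map_zero' := by
        rw [hψ 0 0 (Submodule.zero_mem _), map_zero]
      map_add' := fun x y => by
        obtain ⟨n, h1, h2, h3⟩ := three x y (x + y)
        rw [hψ n _ h1, hψ n _ h2, hψ n _ h3, map_add]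
      map_mul' := fun x y => by
        obtain ⟨n, h1, h2, h3⟩ := three x y (x * y)
        rw [hψ n _ h1, hψ n _ h2, hψ n _ h3, map_mul]
      map_star' := fun x => by
        obtain ⟨n, h1, h2⟩ := two x (star x)
        rw [hψ n _ h1, hψ n _ h2, (u n).pr x h1] }
  refine ⟨Ψ, ⟨?_, ?_⟩, ?_⟩
  · intro a b hab
    obtain ⟨n, h1, h2⟩ := two a b
    change ψ a = ψ b at hab
    rw [hψ n _ h1, hψ n _ h2] at hab
    rw [← (u n).lr a, hab, (u n).lr]
  · intro b
    obtain ⟨n, a, ha, rfl⟩ := hsurj b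
    exact ⟨a, hψ n a ha⟩
  · intro J hJ a ha
    change ψ a ∈ J
    rw [hψ0]
    exact (hieq _ J hJ a).1 ha

end

end Pool.Agent.Lib.MP_8f60dc_al
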