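import Pool.Agent.Lib.MP_8f60dc_al.NX.Rep
import Pool.Agent.Lib.MP_8f60dc_al.NX.Corner

/-!
# Vertices do not vanish; local units of the ideal of the cycles
-/

set_option autoImplicit false
set_option linter.unusedSectionVars false

namespace Pool.Agent.Lib.MP_8f60dc_al

open LaurentPolynomial
open scoped LaurentPolynomial

noncomputable section

/-- The vertices of the Leavitt path algebra of a countable graph do not vanish. -/
theorem lf_P_ne (G : DGraph) [Countable G.V] [Countable G.Ed] (v : G.V) : (lf G).P v ≠ 0 := by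
  intro h
  obtain ⟨l, hl, hne⟩ := exists_rep (E := G)
  apply hne v
  have h1 : (lf G).map (lLift hl.lv) = l := lLift_lf hl.lv
  rw [← h1]
  change lLift hl.lv ((lf G).P v) = 0
  rw [h, map_zero]

/-- The vertices of the graph C*-algebra of a countable graph do not vanish. -/
theorem cstar_P_ne {G : DGraph} [Countable G.V] [Countable G.Ed] {A : Type}
    [NonUnitalCStarAlgebra A] {l : Fam G A} (hA : IsGraphCStar G A l) (v : G.V) : l.P v ≠ 0 := by
  intro h
  obtain ⟨m, hm, hne⟩ := exists_rep (E := G)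
  obtain ⟨f, hf, -⟩ := hA.univ BK m hm
  apply hne v
  rw [← hf]
  change f (l.P v) = 0
  rw [h, map_zero]

variable {E : DGraph} (c : Cut E)

theorem q_sink {G : DGraph} {R : Type*} [NonUnitalRing R] (l : Fam G R) (X : Finset G.Ed)
    {v : G.V} (hv : G.Sink v) : l.q X v = l.P v := by
  classical
  unfold Fam.q
  rw [Finset.filter_eq_empty_iff.2 fun e _ => hv e, Finset.sum_empty, sub_zero]

open Classical in
/-- Orthogonality of the words which end in sinks. -/
theorem sink_orth {G : DGraph} {R : Type*} [NonUnitalRing R] {l : Fam G R} (hl : IsLeavitt l)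
    {u u' v v' : G.V} {p p' : List G.Ed} (hv : G.Sink v) (hv' : G.Sink v') (h : IsPath G p u v)
    (h' : IsPath G p' u' v') :
    l.TP v p * l.SP v' p' = if (v, p) = (v', p') then l.P v else 0 := by
  have h1 := hl.qq (p.toFinset ∪ p'.toFinset) p (u := u) (u' := u') (v := v) (v' := v')
    (p' := p') ⟨h, fun e he => by simp [he]⟩ ⟨h', fun e he => by simp [he]⟩
  rw [q_sink l _ hv, q_sink l _ hv', hl.SP_P, hl.P_TP] at h1
  exact h1

/-- Left factors of the ideal generated by a cyclic vertex. -/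
theorem Cut.mul_P_mem {e : E.Ed} (he : e ∈ c.D) (a : LPA E) :
    a * (lf E).P (E.src e) ∈ Submodule.span ℂ
      {x | ∃ p y, x = (c.res (lf E)).SP (E.src e) p * y} := by
  refine rmul_span (s := wordSet (c.res (lf E)) ∪ c.cycSet) _ ?_ a (c.X_top a)
  rintro y (⟨v, p, q, rfl⟩ | ⟨e', he', p, q, g, rfl⟩)
  · by_cases h : v ≠ E.src e ∨ q ≠ []
    · have h1 : (c.res (lf E)).TP v q * (lf E).P (E.src e) = 0 := c.rl.TP_sink (c.sink he) v q h
      rw [mul_assoc, h1, mul_zero]
      exact Submodule.zero_mem _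
    · push Not at h
      obtain ⟨rfl, rfl⟩ := h
      rw [mul_assoc]
      exact Submodule.subset_span ⟨p, _, rfl⟩
  · by_cases h : E.src e' ≠ E.src e ∨ q ≠ []
    · have h1 : (c.res (lf E)).TP (E.src e') q * (lf E).P (E.src e) = 0 :=
        c.rl.TP_sink (c.sink he) _ q h
      rw [mul_assoc, mul_assoc, h1, mul_zero, mul_zero]
      exact Submodule.zero_mem _
    · push Not at h
      obtain ⟨h1, rfl⟩ := h
      rw [mul_assoc, h1]
      exact Submodule.subset_span ⟨p, _, rfl⟩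

/-- The cyclic vertices. -/
def Cut.Ps : Set (LPA E) := {y | ∃ e ∈ c.D, y = (lf E).P (E.src e)}

/-- Good indices for local units. -/
def Cut.good (x : E.V × List c.G.Ed) : Prop :=
  (∃ e ∈ c.D, E.src e = x.1) ∧ ∃ u, IsPath c.G x.2 u x.1

/-- Local units. -/
def Cut.lu (Λ : Finset (E.V × List c.G.Ed)) : LPA E :=
  ∑ x ∈ Λ, (c.res (lf E)).SP x.1 x.2 * (c.res (lf E)).TP x.1 x.2

theorem Cut.lu_mem (Λ : Finset (E.V × List c.G.Ed)) (h : ∀ x ∈ Λ, c.good x) :
    c.lu Λ ∈ idl c.Ps := by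
  unfold Cut.lu
  apply Submodule.sum_mem
  intro x hx
  obtain ⟨⟨e, he, hex⟩, -⟩ := h x hx
  have h1 := c.rl.SP_P x.1 x.2
  rw [← h1]
  apply mem_idl
  exact ⟨e, he, by rw [hex]; rfl⟩

/-- The space of elements with local units. -/
def Cut.LS : Submodule ℂ (LPA E) where
  carrier := {x | ∃ Λ0 : Finset (E.V × List c.G.Ed), (∀ y ∈ Λ0, c.good y) ∧
    ∀ Λ, Λ0 ⊆ Λ → (∀ y ∈ Λ, c.good y) → c.lu Λ * x = x}
  add_mem' := by
    classical
    rintro x y ⟨Λ1, h1, h2⟩ ⟨Λ2, h3, h4⟩
    refine ⟨Λ1 ∪ Λ2, ?_, ?_⟩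
    · intro z hz
      rcases Finset.mem_union.1 hz with h | h
      · exact h1 z h
      · exact h3 z h
    · intro Λ hΛ hg
      rw [mul_add, h2 Λ (Finset.subset_union_left.trans hΛ) hg,
        h4 Λ (Finset.subset_union_right.trans hΛ) hg]
  zero_mem' := ⟨∅, by simp, fun Λ _ _ => mul_zero _⟩
  smul_mem' := by
    rintro t x ⟨Λ1, h1, h2⟩
    exact ⟨Λ1, h1, fun Λ h h' => by rw [mul_smul_comm, h2 Λ h h']⟩

theorem Cut.LS_word {e : E.Ed} (he : e ∈ c.D) (p : List c.G.Ed) (y : LPA E) :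
    (c.res (lf E)).SP (E.src e) p * y ∈ c.LS := by
  classical
  by_cases h : ∃ u, IsPath c.G p u (E.src e)
  · obtain ⟨u, hu⟩ := h
    refine ⟨{(E.src e, p)}, ?_, ?_⟩
    · intro z hz
      rw [Finset.mem_singleton.1 hz]
      exact ⟨⟨e, he, rfl⟩, u, hu⟩
    · intro Λ hΛ hg
      have hm : (E.src e, p) ∈ Λ := hΛ (Finset.mem_singleton_self _)
      unfold Cut.lu
      rw [Finset.sum_mul, Finset.sum_eq_single (E.src e, p)]
      · rw [mul_assoc, ← mul_assoc ((c.res (lf E)).TP _ _),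
          sink_orth c.rl (c.sink he) (c.sink he) hu hu, if_pos rfl, ← mul_assoc]
        rw [c.rl.SP_P]
      · rintro ⟨w, p'⟩ hx hne
        obtain ⟨⟨e', he', hw⟩, u', hu'⟩ := hg _ hx
        change E.src e' = w at hw
        subst hw
        rw [mul_assoc, ← mul_assoc ((c.res (lf E)).TP _ _),
          sink_orth c.rl (c.sink he') (c.sink he) hu' hu, if_neg hne, zero_mul, mul_zero]
      · intro h
        exact absurd hm h
  · rw [c.rl.SP_zero (not_exists.1 h), zero_mul]
    exact Submodule.zero_mem _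

theorem Cut.mem_LS {x : LPA E} (hx : x ∈ idl c.Ps) : x ∈ c.LS := by
  unfold idl at hx
  refine (Submodule.span_le (p := c.LS)).2 ?_ hx
  rintro _ ⟨a, y, ⟨e, he, rfl⟩, b, rfl⟩
  have h1 := c.mul_P_mem he a
  refine rmul_span (s := {x | ∃ p y, x = (c.res (lf E)).SP (E.src e) p * y}) b ?_ _ h1
  rintro _ ⟨p, y, rfl⟩
  rw [mul_assoc]
  exact c.LS_word he p _

/-- Local units exist. -/
theorem Cut.exists_lu {x : LPA E} (hx : x ∈ idl c.Ps) : ∃ g ∈ idl c.Ps, g * x = x := by
  obtain ⟨Λ, h1, h2⟩ := c.mem_LS hx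
  exact ⟨c.lu Λ, c.lu_mem Λ h1, h2 Λ (Finset.Subset.refl _) h1⟩

end

end Pool.Agent.Lib.MP_8f60dc_al
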