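import Pool.Agent.Lib.MP_8f60dc_al.NX.Span

/-!
# Matrix units: abstract systems
-/

set_option autoImplicit false
set_option linter.unusedSectionVars false

namespace Pool.Agent.Lib.MP_8f60dc_al

variable {R : Type*} [NonUnitalRing R] [Module ℂ R] [IsScalarTower ℂ R R] [SMulCommClass ℂ R R]
variable {ι κ : Type*}

open Classical in
/-- A system of matrix units `z j * y k`, `v j = v k`. -/
structure MU (z y : ι → R) (q : κ → R) (v : ι → κ) : Prop where
  yz : ∀ i j, y i * z j = if i = j then q (v i) else 0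
  qy : ∀ i, q (v i) * y i = y i
  zq : ∀ i, z i * q (v i) = z i

/-- The span of the matrix units. -/
def muSpan (z y : ι → R) (v : ι → κ) : Submodule ℂ R :=
  Submodule.span ℂ {x | ∃ j k, v j = v k ∧ x = z j * y k}

namespace MU

variable {z y : ι → R} {q : κ → R} {v : ι → κ} (h : MU z y q v)

theorem mem {j k : ι} (hv : v j = v k) : z j * y k ∈ muSpan z y v :=
  Submodule.subset_span ⟨j, k, hv, rfl⟩

include h

theorem yzy {i j k : ι} (hv : v j = v k) (hij : i = j) : y i * (z j * y k) = y k := by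
  subst hij
  rw [← mul_assoc, h.yz, if_pos rfl, hv, h.qy]

theorem yzy0 {i j : ι} (k : ι) (hij : i ≠ j) : y i * (z j * y k) = 0 := by
  rw [← mul_assoc, h.yz, if_neg hij, zero_mul]

theorem zyz {i j k : ι} (hv : v j = v k) (hki : k = i) : z j * y k * z i = z j := by
  subst hki
  rw [mul_assoc, h.yz, if_pos rfl, ← hv, h.zq]

theorem zyz0 {i k : ι} (j : ι) (hki : k ≠ i) : z j * y k * z i = 0 := by
  rw [mul_assoc, h.yz, if_neg hki, mul_zero]

/-- The span is closed under multiplication. -/
theorem mul_mem {a b : R} (ha : a ∈ muSpan z y v) (hb : b ∈ muSpan z y v) :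
    a * b ∈ muSpan z y v := by
  classical
  refine lmul_span (s := {x | ∃ j k, v j = v k ∧ x = z j * y k}) a ?_ b hb
  rintro _ ⟨j, k, hjk, rfl⟩
  refine rmul_span (s := {x | ∃ j k, v j = v k ∧ x = z j * y k}) _ ?_ a ha
  rintro _ ⟨j', k', hjk', rfl⟩
  by_cases hk : k' = j
  · rw [mul_assoc, h.yzy hjk hk]
    exact mem (by rw [hjk', hk, hjk])
  · rw [mul_assoc, h.yzy0 k hk, mul_zero]
    exact Submodule.zero_mem _

/-- Corners of elements of the span. -/
theorem corner {a : R} (ha : a ∈ muSpan z y v) (i k : ι) :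
    ∃ c : ℂ, y i * a * z k = c • q (v i) := by
  classical
  unfold muSpan at ha
  induction ha using Submodule.span_induction with
  | mem x hx =>
    obtain ⟨j, k', hjk, rfl⟩ := hx
    by_cases hi : i = j
    · rw [h.yzy hjk hi, h.yz]
      by_cases hk : k' = k
      · refine ⟨1, ?_⟩
        rw [if_pos hk, one_smul, hi, hjk]
      · exact ⟨0, by rw [if_neg hk, zero_smul]⟩
    · exact ⟨0, by rw [h.yzy0 _ hi, zero_mul, zero_smul]⟩
  | zero => exact ⟨0, by rw [mul_zero, zero_mul, zero_smul]⟩
  | add x y _ _ h1 h2 =>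
    obtain ⟨c, hc⟩ := h1
    obtain ⟨d, hd⟩ := h2
    exact ⟨c + d, by rw [mul_add, add_mul, hc, hd, add_smul]⟩
  | smul t x _ h1 =>
    obtain ⟨c, hc⟩ := h1
    exact ⟨t * c, by rw [mul_smul_comm, smul_mul_assoc, hc, smul_smul]⟩

variable [Fintype ι]

/-- The unit on the left. -/
theorem unit_mul {a : R} (ha : a ∈ muSpan z y v) : (∑ i, z i * y i) * a = a := by
  classical
  unfold muSpan at ha
  induction ha using Submodule.span_induction with
  | mem x hx =>
    obtain ⟨j, k, hjk, rfl⟩ := hx
    rw [Finset.sum_mul, Finset.sum_eq_single j]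
    · rw [mul_assoc, h.yzy hjk rfl]
    · intro i _ hi
      rw [mul_assoc, h.yzy0 _ hi, mul_zero]
    · intro hj
      exact absurd (Finset.mem_univ j) hj
  | zero => rw [mul_zero]
  | add x y _ _ h1 h2 => rw [mul_add, h1, h2]
  | smul t x _ h1 => rw [mul_smul_comm, h1]

/-- The unit on the right. -/
theorem mul_unit {a : R} (ha : a ∈ muSpan z y v) : a * (∑ i, z i * y i) = a := by
  classical
  unfold muSpan at ha
  induction ha using Submodule.span_induction with
  | mem x hx =>
    obtain ⟨j, k, hjk, rfl⟩ := hx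
    rw [Finset.mul_sum, Finset.sum_eq_single k]
    · rw [← mul_assoc, h.zyz hjk rfl]
    · intro i _ hi
      rw [← mul_assoc, h.zyz0 _ (Ne.symm hi), zero_mul]
    · intro hj
      exact absurd (Finset.mem_univ k) hj
  | zero => rw [zero_mul]
  | add x y _ _ h1 h2 => rw [add_mul, h1, h2]
  | smul t x _ h1 => rw [smul_mul_assoc, h1]

/-- An element of the span vanishes if its corners vanish. -/
theorem eq_zero {a : R} (ha : a ∈ muSpan z y v) (h0 : ∀ i k, y i * a * z k = 0) : a = 0 := by
  rw [← h.mul_unit ha, ← h.unit_mul ha, Finset.mul_sum]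
  apply Finset.sum_eq_zero
  intro k _
  rw [Finset.sum_mul, Finset.sum_mul]
  apply Finset.sum_eq_zero
  intro i _
  have h1 : z i * y i * a * (z k * y k) = z i * (y i * a * z k) * y k := by
    simp only [mul_assoc]
  rw [h1, h0, mul_zero, zero_mul]

omit h in
theorem finite_span : FiniteDimensional ℂ (muSpan z y v) := by
  apply FiniteDimensional.span_of_finite
  apply (Set.finite_range fun x : ι × ι => z x.1 * y x.2).subset
  rintro _ ⟨j, k, -, rfl⟩
  exact ⟨(j, k), rfl⟩

end MU

end Pool.Agent.Lib.MP_8f60dc_al
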