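import Pool.Agent.Lib.MP_8f60dc_al.NX.MU

/-!
# Matrix units in Leavitt families of acyclic graphs
-/

set_option autoImplicit false
set_option linter.unusedSectionVars false

namespace Pool.Agent.Lib.MP_8f60dc_al

open Relation

variable {E : DGraph}

/-- Paths with edges in `X`. -/
def XPath (X : Finset E.Ed) (u v : E.V) (p : List E.Ed) : Prop :=
  IsPath E p u v ∧ ∀ e ∈ p, e ∈ X

/-- The successor relation of a finite set of edges. -/
def XRel (X : Finset E.Ed) (w v : E.V) : Prop := ∃ e ∈ X, E.src e = v ∧ E.rng e = w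

theorem XRel.of {X : Finset E.Ed} {u : E.V} {e : E.Ed} (h : e ∈ X ∧ E.src e = u) :
    XRel X (E.rng e) u := ⟨e, h.1, h.2, rfl⟩

theorem xrel_wf (hac : E.Acyclic) (X : Finset E.Ed) : WellFounded (XRel X) := by
  rw [wellFounded_iff_isEmpty_descending_chain]
  constructor
  rintro ⟨f, hf⟩
  choose e he h1 h2 using hf
  have h3 : ∀ i j : ℕ, i < j → TransGen E.Step (f i) (f j) := by
    intro i j hij
    induction j, hij using Nat.le_induction with
    | base => exact .single ⟨e i, h1 i, h2 i⟩
    | succ j _ ih => exact ih.tail ⟨e j, h1 j, h2 j⟩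
  obtain ⟨i, j, hij, hne⟩ : ∃ i j : ℕ, e i = e j ∧ i ≠ j := by
    by_contra hcon
    push Not at hcon
    have hinj : Function.Injective fun i : ℕ => (⟨e i, he i⟩ : X) := by
      intro i j hij
      exact hcon i j (congrArg Subtype.val hij)
    exact not_injective_infinite_finite _ hinj
  have h4 : f i = f j := by rw [← h1 i, ← h1 j, hij]
  rcases lt_or_gt_of_ne hne with h | h
  · have := h3 i j h
    rw [h4] at this
    exact hac _ this
  · have := h3 j i h
    rw [h4] at this
    exact hac _ this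

section Ring

variable {R : Type*} [NonUnitalRing R]

open Classical in
/-- The gap projections. -/
noncomputable def Fam.q (l : Fam E R) (X : Finset E.Ed) (v : E.V) : R :=
  l.P v - ∑ e ∈ X.filter (fun e => E.src e = v), l.S e * l.T e

variable {l : Fam E R} (hl : IsLeavitt l) (X : Finset E.Ed)

include hl

theorem IsLeavitt.P_q (v : E.V) : l.P v * l.q X v = l.q X v := by
  classical
  unfold Fam.q
  rw [mul_sub, hl.idem, Finset.mul_sum]
  congr 1
  apply Finset.sum_congr rfl
  intro e he
  rw [← (Finset.mem_filter.1 he).2, ← mul_assoc, hl.ps]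

theorem IsLeavitt.q_P (v : E.V) : l.q X v * l.P v = l.q X v := by
  classical
  unfold Fam.q
  rw [sub_mul, hl.idem, Finset.sum_mul]
  congr 1
  apply Finset.sum_congr rfl
  intro e he
  rw [← (Finset.mem_filter.1 he).2, mul_assoc, hl.tp]

theorem IsLeavitt.q_S (v : E.V) {e : E.Ed} (he : e ∈ X) : l.q X v * l.S e = 0 := by
  classical
  by_cases h : E.src e = v
  · subst h
    unfold Fam.q
    rw [sub_mul, hl.ps, Finset.sum_mul, Finset.sum_eq_single e]
    · rw [mul_assoc, hl.ts, hl.sp, sub_self]
    · intro f _ hf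
      rw [mul_assoc, hl.ts0 f e hf, mul_zero]
    · intro h'
      exact (h' (Finset.mem_filter.2 ⟨he, rfl⟩)).elim
  · rw [← hl.q_P X, mul_assoc, hl.PS0 h, mul_zero]

theorem IsLeavitt.T_q (v : E.V) {e : E.Ed} (he : e ∈ X) : l.T e * l.q X v = 0 := by
  classical
  by_cases h : E.src e = v
  · subst h
    unfold Fam.q
    rw [mul_sub, hl.tp, Finset.mul_sum, Finset.sum_eq_single e]
    · rw [← mul_assoc, hl.ts, hl.pt, sub_self]
    · intro f _ hf
      rw [← mul_assoc, hl.ts0 e f (Ne.symm hf), zero_mul]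
    · intro h'
      exact (h' (Finset.mem_filter.2 ⟨he, rfl⟩)).elim
  · rw [← hl.P_q X, ← mul_assoc, hl.TP0 h, zero_mul]

theorem IsLeavitt.q_q (v : E.V) : l.q X v * l.q X v = l.q X v := by
  classical
  conv_lhs => rw [show l.q X v * l.q X v = l.q X v * (l.P v -
    ∑ e ∈ X.filter (fun e => E.src e = v), l.S e * l.T e) from rfl]
  rw [mul_sub, hl.q_P, Finset.mul_sum, Finset.sum_eq_zero, sub_zero]
  intro e he
  rw [← mul_assoc, hl.q_S X v (Finset.mem_filter.1 he).1, zero_mul]

theorem IsLeavitt.q_q0 {v w : E.V} (h : v ≠ w) : l.q X v * l.q X w = 0 := by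
  rw [← hl.q_P X v, ← hl.P_q X w, mul_assoc, ← mul_assoc (l.P v), hl.orth _ _ h, zero_mul,
    mul_zero]

open Classical in
/-- Orthogonality. -/
theorem IsLeavitt.qq (p : List E.Ed) : ∀ {u u' v v' : E.V} {p' : List E.Ed}, XPath X u v p →
    XPath X u' v' p' → l.q X v * l.TP v p * (l.SP v' p' * l.q X v') =
      if (v, p) = (v', p') then l.q X v else 0 := by
  induction p with
  | nil =>
    intro u u' v v' p' h h'
    rw [Fam.TP_nil, hl.q_P]
    cases p' with
    | nil =>
      rw [Fam.SP_nil, hl.P_q]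
      split_ifs with h1
      · rw [Prod.mk.injEq] at h1
        rw [← h1.1, hl.q_q]
      · apply hl.q_q0
        intro h2
        exact h1 (by rw [h2])
    | cons e p' =>
      rw [Fam.SP_cons, ← mul_assoc, ← mul_assoc, hl.q_S X v (h'.2 e (List.mem_cons_self)), zero_mul,
        zero_mul, if_neg (by simp)]
  | cons e p ih =>
    intro u u' v v' p' h h'
    cases p' with
    | nil =>
      rw [Fam.TP_cons, Fam.SP_nil, hl.P_q, mul_assoc, mul_assoc,
        hl.T_q X v' (h.2 e (List.mem_cons_self)), mul_zero, mul_zero, if_neg (by simp)]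
    | cons f p' =>
      rw [Fam.TP_cons, Fam.SP_cons]
      have e1 : l.q X v * (l.TP v p * l.T e) * (l.S f * l.SP v' p' * l.q X v') =
          l.q X v * l.TP v p * (l.T e * l.S f) * (l.SP v' p' * l.q X v') := by
        simp only [mul_assoc]
      rw [e1]
      by_cases hef : e = f
      · subst hef
        have hp : XPath X (E.rng e) v p := ⟨h.1.2, fun g hg => h.2 g (List.mem_cons_of_mem _ hg)⟩
        have hp' : XPath X (E.rng e) v' p' :=
          ⟨h'.1.2, fun g hg => h'.2 g (List.mem_cons_of_mem _ hg)⟩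
        rw [hl.ts, mul_assoc (l.q X v), hl.TP_P hp.1, ih hp hp']
        congr 1
        simp
      · rw [hl.ts0 e f hef, mul_zero, zero_mul, if_neg (by simp [hef])]

/-- Vertices as sums over paths. -/
theorem exists_paths (hac : E.Acyclic) (u : E.V) : ∃ Λ : Finset (E.V × List E.Ed),
    (∀ x, x ∈ Λ ↔ XPath X u x.1 x.2) ∧
      l.P u = ∑ x ∈ Λ, l.SP x.1 x.2 * (l.q X x.1 * l.TP x.1 x.2) := by
  classical
  induction u using (xrel_wf hac X).induction with
  | _ u ih =>
  choose Λ hΛ hP using ih
  let F : E.Ed → Finset (E.V × List E.Ed) := fun e => if h : e ∈ X ∧ E.src e = u then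
    (Λ (E.rng e) (XRel.of h)).image (fun x => (x.1, e :: x.2)) else ∅
  have hF : ∀ e (h : e ∈ X ∧ E.src e = u), F e =
      (Λ (E.rng e) (XRel.of h)).image (fun x => (x.1, e :: x.2)) := fun e h => dif_pos h
  have hFm : ∀ e ∈ X.filter (fun e => E.src e = u), ∀ x, x ∈ F e ↔
      ∃ p, x.2 = e :: p ∧ XPath X (E.rng e) x.1 p := by
    intro e he x
    rw [Finset.mem_filter] at he
    rw [hF e he, Finset.mem_image]
    constructor
    · rintro ⟨y, hy, rfl⟩
      exact ⟨y.2, rfl, (hΛ _ _ y).1 hy⟩
    · rintro ⟨p, hp, hx⟩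
      exact ⟨(x.1, p), (hΛ _ _ (x.1, p)).2 hx, by rw [← hp]⟩
  refine ⟨insert (u, []) ((X.filter (fun e => E.src e = u)).biUnion F), ?_, ?_⟩
  · rintro ⟨v, p⟩
    rw [Finset.mem_insert, Finset.mem_biUnion]
    constructor
    · rintro (h | ⟨e, he, hx⟩)
      · rw [Prod.mk.injEq] at h
        obtain ⟨rfl, rfl⟩ := h
        exact ⟨rfl, by simp⟩
      · obtain ⟨p', hp', h1, h2⟩ := (hFm e he _).1 hx
        rw [Finset.mem_filter] at he
        change p = e :: p' at hp'
        subst hp'
        refine ⟨⟨he.2, h1⟩, ?_⟩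
        intro f hf
        rcases List.mem_cons.1 hf with h3 | h3
        · rw [h3]
          exact he.1
        · exact h2 f h3
    · rintro ⟨h1, h2⟩
      cases p with
      | nil =>
        left
        change u = v at h1
        rw [h1]
      | cons e p =>
        right
        have h3 : e ∈ X.filter (fun e => E.src e = u) :=
          Finset.mem_filter.2 ⟨h2 e (List.mem_cons_self), h1.1⟩
        exact ⟨e, h3, (hFm e h3 _).2 ⟨p, rfl, h1.2, fun f hf => h2 f (List.mem_cons_of_mem _ hf)⟩⟩
  · rw [Finset.sum_insert, Finset.sum_biUnion]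
    · have h1 : ∀ e ∈ X.filter (fun e => E.src e = u),
          ∑ x ∈ F e, l.SP x.1 x.2 * (l.q X x.1 * l.TP x.1 x.2) = l.S e * l.T e := by
        intro e he
        rw [Finset.mem_filter] at he
        rw [hF e he, Finset.sum_image]
        · have h2 : ∀ x ∈ Λ (E.rng e) (XRel.of he),
              l.SP x.1 (e :: x.2) * (l.q X x.1 * l.TP x.1 (e :: x.2)) =
                l.S e * (l.SP x.1 x.2 * (l.q X x.1 * l.TP x.1 x.2)) * l.T e := by
            intro x _
            rw [Fam.SP_cons, Fam.TP_cons]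
            simp only [mul_assoc]
          rw [Finset.sum_congr rfl h2, ← Finset.sum_mul, ← Finset.mul_sum, ← hP, hl.sp]
        · intro x _ y _ hxy
          simp only [Prod.mk.injEq, List.cons.injEq, true_and] at hxy
          exact Prod.ext hxy.1 hxy.2
      rw [Finset.sum_congr rfl h1]
      change l.P u = l.P u * (l.q X u * l.P u) + _
      rw [hl.q_P, hl.P_q]
      unfold Fam.q
      rw [sub_add_cancel]
    · intro e he f hf hef
      rw [Function.onFun, Finset.disjoint_left]
      intro x hx hx'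
      obtain ⟨p, hp, -⟩ := (hFm e he x).1 hx
      obtain ⟨p', hp', -⟩ := (hFm f hf x).1 hx'
      rw [hp] at hp'
      exact hef (List.cons.inj hp').1
    · rw [Finset.mem_biUnion]
      rintro ⟨e, he, hx⟩
      obtain ⟨p, hp, -⟩ := (hFm e he _).1 hx
      simp at hp

end Ring

end Pool.Agent.Lib.MP_8f60dc_al
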