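import Pool.Agent.Lib.MP_8f60dc_al.NX.LU

/-!
# Recognition of the cycles by the algebra
-/

set_option autoImplicit false
set_option linter.unusedSectionVars false

namespace Pool.Agent.Lib.MP_8f60dc_al

open LaurentPolynomial
open scoped LaurentPolynomial

noncomputable section

/-- A unit of a commutative corner goes to a multiple of the idempotent, if the other corner of the
Morita context is one-dimensional. -/
theorem morita {R S : Type*} [NonUnitalRing R] [Module ℂ R] [IsScalarTower ℂ R R]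
    [SMulCommClass ℂ R R] [NonUnitalRing S] [Module ℂ S] [IsScalarTower ℂ S S]
    [SMulCommClass ℂ S S] (g : R →ₙₐ[ℂ] S) {p Q u u' : R} (hpp : p * p = p) (hQQ : Q * Q = Q)
    (huu' : u * u' = Q) (hQu : Q * u = u) (huQ : u * Q = u)
    (comm : ∀ x, Q * x * Q = x → u * x = x * u) (hp : p ∈ idl {Q}) (hQ : Q ∈ idl {p})
    (corner : ∀ x, ∃ c : ℂ, g (p * x * p) = c • g p) (hne : g p ≠ 0) :
    ∃ μ : ℂˣ, g u = (μ : ℂ) • g Q := by
  have h1 : ∀ y ∈ idl {Q}, ∃ z, ∀ x, Q * x = x → u * x * y = x * z := by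
    intro y hy
    unfold idl at hy
    induction hy using Submodule.span_induction with
    | mem y hy =>
      obtain ⟨a, q, hq, b, rfl⟩ := hy
      rw [Set.mem_singleton_iff.1 hq]
      refine ⟨a * u * b, fun x hx => ?_⟩
      have h2 := comm (x * a * Q) (by
        rw [← mul_assoc, ← mul_assoc, hx, mul_assoc _ Q Q, hQQ])
      calc u * x * (a * Q * b) = (u * (x * a * Q)) * b := by simp only [mul_assoc]
        _ = (x * a * Q * u) * b := by rw [h2]
        _ = x * (a * u * b) := by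
          rw [mul_assoc _ Q u, hQu]
          simp only [mul_assoc]
    | zero => exact ⟨0, fun x _ => by rw [mul_zero, mul_zero]⟩
    | add y y' _ _ h h' =>
      obtain ⟨z, hz⟩ := h
      obtain ⟨z', hz'⟩ := h'
      exact ⟨z + z', fun x hx => by rw [mul_add, mul_add, hz x hx, hz' x hx]⟩
    | smul t y _ h =>
      obtain ⟨z, hz⟩ := h
      exact ⟨t • z, fun x hx => by rw [mul_smul_comm, mul_smul_comm, hz x hx]⟩
  obtain ⟨z, hz⟩ := h1 p hp
  obtain ⟨c, hc⟩ := corner z
  have h3 : ∀ y ∈ idl {p}, g (u * (Q * y)) = c • g (Q * y) := by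
    intro y hy
    unfold idl at hy
    induction hy using Submodule.span_induction with
    | mem y hy =>
      obtain ⟨b, q, hq, a, rfl⟩ := hy
      rw [Set.mem_singleton_iff.1 hq]
      have h4 := hz (Q * b * p) (by rw [← mul_assoc, ← mul_assoc, hQQ])
      have h5 : u * (Q * (b * p * a)) = Q * b * (p * z * p) * a := by
        calc u * (Q * (b * p * a)) = u * (Q * (b * (p * p) * a)) := by rw [hpp]
          _ = u * (Q * (b * (p * (p * p)) * a)) := by rw [hpp, hpp]
          _ = (u * (Q * b * p) * p) * p * a := by simp only [mul_assoc]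
          _ = (Q * b * p * z) * p * a := by rw [h4]
          _ = Q * b * (p * z * p) * a := by simp only [mul_assoc]
      have h6 : Q * (b * p * a) = Q * b * p * a := by simp only [mul_assoc]
      rw [h5, h6, map_mul, map_mul, hc, mul_smul_comm, smul_mul_assoc, ← map_mul, ← map_mul]
    | zero => rw [mul_zero, mul_zero, map_zero, smul_zero]
    | add y y' _ _ h h' => rw [mul_add, mul_add, map_add, map_add, h, h', smul_add]
    | smul t y _ h =>
      rw [mul_smul_comm, mul_smul_comm, map_smul, map_smul, h, smul_comm]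
  have h4 : g u = c • g Q := by
    have h5 := h3 Q hQ
    rwa [hQQ, huQ] at h5
  have hc0 : c ≠ 0 := by
    intro h0
    rw [h0, zero_smul] at h4
    apply hne
    have h5 : g Q = 0 := by rw [← huu', map_mul, h4, zero_mul]
    have h6 : ∀ y ∈ idl {Q}, g y = 0 := by
      intro y hy
      unfold idl at hy
      induction hy using Submodule.span_induction with
      | mem y hy =>
        obtain ⟨a, q, hq, b, rfl⟩ := hy
        rw [Set.mem_singleton_iff.1 hq, map_mul, map_mul, h5, mul_zero, zero_mul]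
      | zero => exact map_zero g
      | add y y' _ _ h h' => rw [map_add, h, h', add_zero]
      | smul t y _ h => rw [map_smul, h, smul_zero]
    exact h6 p hp
  exact ⟨Units.mk0 c hc0, h4⟩

section One

variable {E : DGraph} (c : Cut E)

theorem Cut.N_le (a : E.Ed → ℂˣ) : c.N a ≤ idl c.Ps := by
  apply idl_le idl_left idl_right
  rintro _ ⟨e, he, rfl⟩
  have hcu := c.cu (lf_leavitt (E := E)) he
  have h1 : (lf E).P (E.src e) ∈ idl c.Ps :=
    idl_subset (p := (lf E).P (E.src e)) ⟨e, he, rfl⟩ (by rw [hcu.pp, hcu.pp])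
  have h2 : (lf E).P (E.src e) * (c.z (lf E) e - ((a e : ℂˣ) : ℂ) • (lf E).P (E.src e)) =
      c.z (lf E) e - ((a e : ℂˣ) : ℂ) • (lf E).P (E.src e) := by
    rw [mul_sub, hcu.px, mul_smul_comm, hcu.pp]
  rw [← h2]
  exact idl_right _ _ h1

theorem P_mem_idl {G : DGraph} (v : G.V) : (lf G).P v ∈ idl {(lf G).P v} :=
  idl_subset (p := (lf G).P v) (Set.mem_singleton _) (by rw [lf_leavitt.idem, lf_leavitt.idem])

/-- The ideals of different cyclic vertices are orthogonal. -/
theorem Cut.idl_mul_zero {e e' : E.Ed} (he : e ∈ c.D) (he' : e' ∈ c.D) (hne : e ≠ e')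
    {x y : LPA E} (hx : x ∈ idl {(lf E).P (E.src e)}) (hy : y ∈ idl {(lf E).P (E.src e')}) :
    x * y = 0 := by
  suffices h : x * y ∈ (⊥ : Submodule ℂ (LPA E)) by exact (Submodule.mem_bot ℂ).1 h
  unfold idl at hx hy
  refine lmul_span x ?_ y hy
  rintro _ ⟨a, q, hq, b, rfl⟩
  refine rmul_span _ ?_ x hx
  rintro _ ⟨a', q', hq', b', rfl⟩
  rw [Set.mem_singleton_iff.1 hq, Set.mem_singleton_iff.1 hq', Submodule.mem_bot]
  calc a' * (lf E).P (E.src e) * b' * (a * (lf E).P (E.src e') * b)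
      = a' * ((lf E).P (E.src e) * (b' * a) * (lf E).P (E.src e')) * b := by
        simp only [mul_assoc]
    _ = 0 := by rw [c.corner2 he he' hne, mul_zero, zero_mul]

theorem Cut.P_ne (hP : ∀ v, (lf c.G).P v ≠ 0) (v : E.V) : (lf E).P v ≠ 0 := by
  intro h
  apply hP v
  rw [← c.ev_P 1 v, h, map_zero]

/-- An idempotent in the ideal of the cyclic vertices whose corner is a domain belongs to one of
them. -/
theorem Cut.one_ideal {Q : LPA E} (hQ : Q ∈ idl c.Ps) (hQQ : Q * Q = Q) (h0 : Q ≠ 0)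
    (dom : ∀ x y, Q * x * Q = x → Q * y * Q = y → x * y = 0 → x = 0 ∨ y = 0) :
    ∃ d ∈ c.D, Q ∈ idl {(lf E).P (E.src d)} := by
  have hQ3 : Q * Q * Q = Q := by rw [hQQ, hQQ]
  have key : ∃ d ∈ c.D, ∃ a b, Q * (a * (lf E).P (E.src d) * b) * Q ≠ 0 := by
    by_contra hcon
    push Not at hcon
    apply h0
    have h1 : ∀ x ∈ idl c.Ps, Q * x * Q = 0 := by
      intro x hx
      unfold idl at hx
      induction hx using Submodule.span_induction with
      | mem x hx =>
        obtain ⟨a, y, ⟨d, hd, rfl⟩, b, rfl⟩ := hx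
        exact hcon d hd a b
      | zero => rw [mul_zero, zero_mul]
      | add x y _ _ h h' => rw [mul_add, add_mul, h, h', add_zero]
      | smul t x _ h => rw [mul_smul_comm, smul_mul_assoc, h, smul_zero]
    rw [← hQ3]
    exact h1 Q hQ
  obtain ⟨d, hd, a, b, hne⟩ := key
  refine ⟨d, hd, ?_⟩
  have h1 : ∀ x ∈ idl c.Ps, Q * x * Q ∈ idl {(lf E).P (E.src d)} := by
    intro x hx
    unfold idl at hx
    induction hx using Submodule.span_induction with
    | mem x hx =>
      obtain ⟨a', y, ⟨d', hd', rfl⟩, b', rfl⟩ := hx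
      by_cases hdd : d = d'
      · rw [← hdd]
        exact idl_right _ _ (idl_left _ _ (mem_idl (Set.mem_singleton _) _ _))
      · have h2 : ∀ x : LPA E, Q * (Q * x * Q) * Q = Q * x * Q := by
          intro x
          calc Q * (Q * x * Q) * Q = (Q * Q) * x * (Q * Q) := by simp only [mul_assoc]
            _ = Q * x * Q := by rw [hQQ]
        have h3 : Q * (a * (lf E).P (E.src d) * b) * Q * (Q * (a' * (lf E).P (E.src d') * b') * Q)
            = 0 := by
          calc Q * (a * (lf E).P (E.src d) * b) * Q * (Q * (a' * (lf E).P (E.src d') * b') * Q)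
              = Q * a * ((lf E).P (E.src d) * (b * Q * Q * a') * (lf E).P (E.src d')) * b' * Q := by
                simp only [mul_assoc]
            _ = 0 := by rw [c.corner2 hd hd' hdd, mul_zero, zero_mul, zero_mul]
        rcases dom _ _ (h2 _) (h2 _) h3 with h4 | h4
        · exact absurd h4 hne
        · rw [h4]
          exact Submodule.zero_mem _
    | zero => rw [mul_zero, zero_mul]; exact Submodule.zero_mem _
    | add x y _ _ h h' => rw [mul_add, add_mul]; exact Submodule.add_mem _ h h'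
    | smul t x _ h => rw [mul_smul_comm, smul_mul_assoc]; exact Submodule.smul_mem _ t h
  rw [← hQ3]
  exact h1 Q hQ

end One

/-- Isomorphisms of Leavitt path algebras of cut graphs. -/
structure LIso {E F : DGraph} (cE : Cut E) (cF : Cut F) where
  Φ : LPA E →ₙₐ[ℂ] LPA F
  Ψ : LPA F →ₙₐ[ℂ] LPA E
  l : ∀ x, Ψ (Φ x) = x
  r : ∀ x, Φ (Ψ x) = x
  hE : ∀ v, (lf cE.G).P v ≠ 0
  hF : ∀ v, (lf cF.G).P v ≠ 0

namespace LIso

variable {E F : DGraph} {cE : Cut E} {cF : Cut F}

/-- The inverse. -/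
def symm (I : LIso cE cF) : LIso cF cE := ⟨I.Ψ, I.Φ, I.r, I.l, I.hF, I.hE⟩

variable (I : LIso cE cF)

/-- A nonzero polynomial in the unit of a cycle goes to the ideal of the cycles. -/
theorem exists_poly {e : E.Ed} (he : e ∈ cE.D) :
    ∃ f : Polynomial ℂ, f ≠ 0 ∧ I.Φ (cE.ps he (Polynomial.toLaurent f)) ∈ idl cF.Ps := by
  classical
  let θ : LPA E →ₙₐ[ℂ] LPA cF.G := (cF.ev 1).comp I.Φ
  obtain ⟨X, Vs, hpc⟩ := exists_pc cF.acyc
    {θ ((lf E).P (E.src e)), θ (cE.z (lf E) e)}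
  have hfin := PI_finite cF.acyc X Vs
  have := Fintype.ofFinite (PI X Vs)
  have hmu := mu_pieces (lf_leavitt (E := cF.G)) X Vs
  have hfd : FiniteDimensional ℂ ((lf cF.G).pc X Vs) := MU.finite_span
  let L : Polynomial ℂ →ₗ[ℂ] LPA cF.G :=
    (θ : LPA E →ₗ[ℂ] LPA cF.G) ∘ₗ (cE.ps he : ℂ[T;T⁻¹] →ₗ[ℂ] LPA E) ∘ₗ
      (Polynomial.toLaurentAlg (R := ℂ)).toLinearMap
  have hL : ∀ f, L f = θ (cE.ps he (Polynomial.toLaurent f)) := fun f => rfl
  have hmem : ∀ f, L f ∈ (lf cF.G).pc X Vs := by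
    intro f
    induction f using Polynomial.induction_on with
    | C a =>
      have h1 : (Polynomial.C a : Polynomial ℂ) = a • 1 := by
        rw [Polynomial.smul_eq_C_mul, mul_one]
      rw [h1, map_smul, hL, map_one]
      apply Submodule.smul_mem
      have h2 : cE.ps he 1 = (lf E).P (E.src e) := CU.psi_one _
      rw [h2]
      exact hpc _ (Finset.mem_insert_self _ _)
    | add p q hp hq =>
      rw [map_add]
      exact Submodule.add_mem _ hp hq
    | monomial n a h =>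
      have h1 : (Polynomial.C a * Polynomial.X ^ (n + 1) : Polynomial ℂ) =
          Polynomial.X * (Polynomial.C a * Polynomial.X ^ n) := by ring
      rw [h1, hL, map_mul, Polynomial.toLaurent_X, map_mul, map_mul, ← hL]
      have h2 : cE.ps he (T 1) = cE.z (lf E) e := CU.psi_T1 _
      rw [h2]
      exact hmu.mul_mem (hpc _ (Finset.mem_insert_of_mem (Finset.mem_singleton_self _))) h
  have hninj : ¬ Function.Injective L := by
    intro hinj
    apply Polynomial.not_finite (R := ℂ)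
    exact Module.Finite.of_injective (L.codRestrict ((lf cF.G).pc X Vs) hmem) (by
      intro x y hxy
      exact hinj (congrArg Subtype.val hxy))
  rw [injective_iff_map_eq_zero] at hninj
  push Not at hninj
  obtain ⟨f, hf, hf0⟩ := hninj
  refine ⟨f, hf0, ?_⟩
  apply cF.N_le 1
  rw [cF.mem_N_iff]
  exact hf

/-- Cyclic vertices go to the ideal of the cyclic vertices. -/
theorem P_mem {e : E.Ed} (he : e ∈ cE.D) : I.Φ ((lf E).P (E.src e)) ∈ idl cF.Ps := by
  obtain ⟨f, hf, hmem⟩ := I.exists_poly he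
  obtain ⟨g, hg, hgf⟩ := cF.exists_lu hmem
  have hcu := cE.cu (lf_leavitt (E := E)) he
  have h1 : I.Ψ g * cE.ps he (Polynomial.toLaurent f) = cE.ps he (Polynomial.toLaurent f) := by
    have h2 := congrArg I.Ψ hgf
    rwa [map_mul, I.l] at h2
  set p := (lf E).P (E.src e) with hp
  have hps : p * cE.ps he (Polynomial.toLaurent f) = cE.ps he (Polynomial.toLaurent f) :=
    hcu.p_psi _
  have hps' : cE.ps he (Polynomial.toLaurent f) * p = cE.ps he (Polynomial.toLaurent f) :=
    hcu.psi_p _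
  have h2 : (p * I.Ψ g * p - p) * cE.ps he (Polynomial.toLaurent f) = 0 := by
    rw [sub_mul, mul_assoc, hps, mul_assoc, h1, hps, sub_self]
  have h3 : p * (p * I.Ψ g * p - p) * p = p * I.Ψ g * p - p := by
    rw [mul_sub, sub_mul, hcu.pp, hcu.pp]
    congr 1
    calc p * (p * I.Ψ g * p) * p = (p * p) * I.Ψ g * (p * p) := by simp only [mul_assoc]
      _ = p * I.Ψ g * p := by rw [hcu.pp]
  rcases cE.corner_domain he (I.hE _) h3 (by rw [hps, hps']) h2 with h4 | h4
  · have h5 : I.Φ p = I.Φ p * g * I.Φ p := by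
      have h6 : p = p * I.Ψ g * p := (sub_eq_zero.1 h4).symm
      have h7 := congrArg I.Φ h6
      rwa [map_mul, map_mul, I.r] at h7
    rw [h5]
    exact idl_right _ _ (idl_left _ _ hg)
  · exfalso
    have h5 := cE.ps_inj he (I.hE _) _ h4
    apply hf
    apply Polynomial.toLaurent_injective
    rw [h5, map_zero]

theorem P_ne {e : E.Ed} : I.Φ ((lf E).P (E.src e)) ≠ 0 := by
  intro h
  apply cE.P_ne I.hE (E.src e)
  rw [← I.l ((lf E).P (E.src e)), h, map_zero]

theorem exists_d {e : E.Ed} (he : e ∈ cE.D) :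
    ∃ d ∈ cF.D, I.Φ ((lf E).P (E.src e)) ∈ idl {(lf F).P (F.src d)} := by
  apply cF.one_ideal (I.P_mem he)
  · rw [← map_mul, lf_leavitt.idem]
  · exact I.P_ne
  · intro x y hx hy hxy
    have h1 : I.Ψ x * I.Ψ y = 0 := by rw [← map_mul, hxy, map_zero]
    have h2 : (lf E).P (E.src e) * I.Ψ x * (lf E).P (E.src e) = I.Ψ x := by
      have := congrArg I.Ψ hx
      rwa [map_mul, map_mul, I.l] at this
    have h3 : (lf E).P (E.src e) * I.Ψ y * (lf E).P (E.src e) = I.Ψ y := by
      have := congrArg I.Ψ hy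
      rwa [map_mul, map_mul, I.l] at this
    rcases cE.corner_domain he (I.hE _) h2 h3 h1 with h4 | h4
    · left
      rw [← I.r x, h4, map_zero]
    · right
      rw [← I.r y, h4, map_zero]

/-- Corresponding cyclic vertices. -/
def Rl (e : E.Ed) (d : F.Ed) : Prop :=
  I.Φ ((lf E).P (E.src e)) ∈ idl {(lf F).P (F.src d)} ∧
    I.Ψ ((lf F).P (F.src d)) ∈ idl {(lf E).P (E.src e)}

theorem exists_Rl {e : E.Ed} (he : e ∈ cE.D) : ∃ d ∈ cF.D, I.Rl e d := by
  obtain ⟨d, hd, h1⟩ := I.exists_d he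
  obtain ⟨e', he', h2⟩ := I.symm.exists_d hd
  refine ⟨d, hd, h1, ?_⟩
  by_cases hee : e = e'
  · rw [hee]
    exact h2
  · exfalso
    have h3 : I.Ψ (I.Φ ((lf E).P (E.src e))) ∈ idl {(lf E).P (E.src e')} := by
      refine idl_map_le I.Ψ ?_ h1
      intro x hx
      rw [Set.mem_singleton_iff.1 hx]
      exact h2
    rw [I.l] at h3
    have h4 := cE.idl_mul_zero he he' hee (P_mem_idl _) h3
    rw [lf_leavitt.idem] at h4
    exact cE.P_ne I.hE _ h4

theorem Rl_uniq {e : E.Ed} {d d' : F.Ed} (hd : d ∈ cF.D) (hd' : d' ∈ cF.D) (h : I.Rl e d)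
    (h' : I.Rl e d') : d = d' := by
  by_contra hne
  have h4 := cF.idl_mul_zero hd hd' hne h.1 h'.1
  rw [← map_mul, lf_leavitt.idem] at h4
  exact I.P_ne h4

theorem Rl_symm {e : E.Ed} {d : F.Ed} (h : I.Rl e d) : I.symm.Rl d e := ⟨h.2, h.1⟩

/-- The bijection of the cycles. -/
theorem exists_sigma : ∃ σ : {e // e ∈ cE.D} ≃ {d // d ∈ cF.D}, ∀ e, I.Rl e.1 (σ e).1 := by
  choose s hs1 hs2 using fun e : {e // e ∈ cE.D} => I.exists_Rl e.2
  choose t ht1 ht2 using fun d : {d // d ∈ cF.D} => I.symm.exists_Rl d.2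
  refine ⟨⟨fun e => ⟨s e, hs1 e⟩, fun d => ⟨t d, ht1 d⟩, ?_, ?_⟩, hs2⟩
  · intro e
    apply Subtype.ext
    exact I.symm.Rl_uniq (ht1 _) e.2 (ht2 ⟨s e, hs1 e⟩) (I.Rl_symm (hs2 e))
  · intro d
    apply Subtype.ext
    exact I.Rl_uniq (hs1 _) d.2 (hs2 ⟨t d, ht1 d⟩) (I.symm.Rl_symm (ht2 d))

theorem exists_mu1 (a : E.Ed → ℂˣ) {e : E.Ed} {d : F.Ed} (he : e ∈ cE.D) (hd : d ∈ cF.D)
    (h : I.Rl e d) : ∃ μ : ℂˣ, cE.ev a (I.Ψ (cF.z (lf F) d)) =
      (μ : ℂ) • cE.ev a (I.Ψ ((lf F).P (F.src d))) := by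
  have hcu := cF.cu (lf_leavitt (E := F)) hd
  refine morita (cE.ev a) (p := (lf E).P (E.src e)) (Q := I.Ψ ((lf F).P (F.src d)))
    (u := I.Ψ (cF.z (lf F) d)) (u' := I.Ψ (cF.z' (lf F) d)) (lf_leavitt.idem _)
    (by rw [← map_mul, hcu.pp]) (by rw [← map_mul, hcu.xx']) (by rw [← map_mul, hcu.px])
    (by rw [← map_mul, hcu.xp]) ?_ ?_ h.2 ?_ ?_
  · intro x hx
    have h1 : (lf F).P (F.src d) * I.Φ x * (lf F).P (F.src d) = I.Φ x := by
      have := congrArg I.Φ hx
      rwa [map_mul, map_mul, I.r] at this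
    have h2 := cF.corner_comm hd (cF.z (lf F) d) (I.Φ x) (by rw [hcu.px, hcu.xp]) h1
    have h3 := congrArg I.Ψ h2
    rwa [map_mul, map_mul, I.l] at h3
  · have h1 := idl_map I.Ψ h.1
    rwa [I.l, Set.image_singleton] at h1
  · intro x
    obtain ⟨t, ht⟩ := corner_sink (cE.sink he) (cE.ev a x)
    refine ⟨t, ?_⟩
    rw [map_mul, map_mul, cE.ev_P]
    exact ht
  · rw [cE.ev_P]
    exact I.hE _

theorem exists_mu (a : E.Ed → ℂˣ) :
    ∃ μ : F.Ed → ℂˣ, ∀ x, cF.ev μ x = 0 → cE.ev a (I.Ψ x) = 0 := by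
  have h1 : ∀ d, ∃ μ : ℂˣ, d ∈ cF.D → cE.ev a (I.Ψ (cF.z (lf F) d)) =
      (μ : ℂ) • cE.ev a (I.Ψ ((lf F).P (F.src d))) := by
    intro d
    by_cases hd : d ∈ cF.D
    · obtain ⟨e, he, h⟩ := I.symm.exists_Rl hd
      obtain ⟨μ, hμ⟩ := I.exists_mu1 a he hd (I.symm.Rl_symm h)
      exact ⟨μ, fun _ => hμ⟩
    · exact ⟨1, fun h => absurd h hd⟩
  choose μ hμ using h1
  refine ⟨μ, fun x hx => ?_⟩
  have h2 := (cF.mem_N_iff μ x).2 hx
  clear hx
  unfold Cut.N idl at h2
  induction h2 using Submodule.span_induction with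
  | mem y hy =>
    obtain ⟨b, y, ⟨d, hd, rfl⟩, b', rfl⟩ := hy
    rw [map_mul, map_mul, map_mul, map_mul, map_sub, map_sub, map_smul, map_smul, hμ d hd,
      sub_self, mul_zero, zero_mul]
  | zero => rw [map_zero, map_zero]
  | add x y _ _ h h' => rw [map_add, map_add, h, h', add_zero]
  | smul t x _ h => rw [map_smul, map_smul, h, smul_zero]

end LIso

end

end Pool.Agent.Lib.MP_8f60dc_al
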