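import Pool.Agent.Lib.MP_8f60dc_al.NX.Sys

/-!
# A representation of a countable graph on a Hilbert space, without vanishing vertices
-/

set_option autoImplicit false

namespace Pool.Agent.Lib.MP_8f60dc_al

noncomputable section

/-- The Hilbert space. -/
abbrev K2 : Type := lp (fun _ : ℕ => ℂ) 2

/-- The bounded operators. -/
abbrev BK : Type := K2 →L[ℂ] K2

/-- The standard basis. -/
def stb : HilbertBasis ℕ ℂ K2 := HilbertBasis.ofRepr (LinearIsometryEquiv.refl ℂ K2)

theorem stb_single (n : ℕ) : stb n = lp.single 2 n (1 : ℂ) := by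
  have h := stb.repr_symm_single n
  exact h.symm

theorem ext_stb {F : Type*} [NormedAddCommGroup F] [NormedSpace ℂ F] {f g : K2 →L[ℂ] F}
    (h : ∀ n, f (stb n) = g (stb n)) : f = g := by
  refine lp.ext_continuousLinearMap (𝕜 := ℂ) (by simp) fun i => ?_
  ext
  rw [ContinuousLinearMap.comp_apply, ContinuousLinearMap.comp_apply,
    lp.singleContinuousLinearMap_apply, ← stb_single]
  exact h i

/-- The isometry defined by an injection. -/
def yL (φ : ℕ → ℕ) (h : Function.Injective φ) : K2 →ₗᵢ[ℂ] K2 :=
  (stb.orthonormal.comp φ h).orthogonalFamily.linearIsometry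

/-- The isometry defined by an injection, as an operator. -/
def Y (φ : ℕ → ℕ) (h : Function.Injective φ) : BK := (yL φ h).toContinuousLinearMap

theorem Y_stb (φ : ℕ → ℕ) (h : Function.Injective φ) (n : ℕ) : Y φ h (stb n) = stb (φ n) := by
  change yL φ h (stb n) = _
  unfold yL
  rw [stb_single n, OrthogonalFamily.linearIsometry_apply_single]
  simp

theorem Y_star_self (φ : ℕ → ℕ) (h : Function.Injective φ) : star (Y φ h) * Y φ h = 1 :=
  (ContinuousLinearMap.norm_map_iff_adjoint_comp_self (Y φ h)).1 fun x => (yL φ h).norm_map x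

theorem Y_star_stb (φ : ℕ → ℕ) (h : Function.Injective φ) {k : ℕ} (hk : ∀ n, φ n ≠ k) :
    star (Y φ h) (stb k) = 0 := by
  have h1 : (innerSL ℂ (stb k)).comp (Y φ h) = 0 := by
    apply ext_stb
    intro n
    rw [ContinuousLinearMap.comp_apply, Y_stb]
    exact stb.orthonormal.2 (hk n).symm
  apply ext_inner_right ℂ
  intro x
  have h2 : inner ℂ (star (Y φ h) (stb k)) x = inner ℂ (stb k) (Y φ h x) :=
    ContinuousLinearMap.adjoint_inner_left (Y φ h) x (stb k)
  rw [h2, inner_zero_left]
  exact DFunLike.congr_fun h1 x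

theorem Y_star_Y (φ ψ : ℕ → ℕ) (h : Function.Injective φ) (h' : Function.Injective ψ)
    (hd : ∀ n m, φ n ≠ ψ m) : star (Y φ h) * Y ψ h' = 0 := by
  apply ext_stb
  intro n
  change star (Y φ h) (Y ψ h' (stb n)) = 0
  rw [Y_stb]
  exact Y_star_stb φ h fun m => hd m n

theorem Y_sum {ι : Type*} (s : Finset ι) (φ : ι → ℕ → ℕ) (h : ∀ i, Function.Injective (φ i))
    (hd : ∀ i ∈ s, ∀ j ∈ s, ∀ n m, φ i n = φ j m → i = j) (hs : ∀ k, ∃ i ∈ s, ∃ n, φ i n = k) :
    ∑ i ∈ s, Y (φ i) (h i) * star (Y (φ i) (h i)) = 1 := by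
  apply ext_stb
  intro k
  obtain ⟨i, hi, n, rfl⟩ := hs k
  rw [sum_apply, Finset.sum_eq_single i]
  · change Y (φ i) (h i) (star (Y (φ i) (h i)) (stb (φ i n))) = stb (φ i n)
    have h1 : star (Y (φ i) (h i)) (stb (φ i n)) = stb n := by
      rw [← Y_stb (φ i) (h i)]
      exact DFunLike.congr_fun (Y_star_self (φ i) (h i)) (stb n)
    rw [h1, Y_stb]
  · intro j hj hne
    change Y (φ j) (h j) (star (Y (φ j) (h j)) (stb (φ i n))) = 0
    rw [Y_star_stb (φ j) (h j) (fun m hm => hne (hd j hj i hi m n hm)), map_zero]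
  · intro hi'
    exact absurd hi hi'

variable (E : DGraph) [Countable E.V] [Countable E.Ed]

/-- Injections for the edges. -/
theorem exists_rho : ∃ ρ : E.Ed → ℕ → ℕ, (∀ e, Function.Injective (ρ e)) ∧
    (∀ e f n m, E.src e = E.src f → ρ e n = ρ f m → e = f) ∧
    ∀ e k, ∃ f n, E.src f = E.src e ∧ ρ f n = k := by
  have h : ∀ v : E.V, Nonempty {e : E.Ed // E.src e = v} →
      Nonempty ({e : E.Ed // E.src e = v} × ℕ ≃ ℕ) := by
    intro v hv
    exact nonempty_equiv_of_countable
  let g : ∀ v : E.V, Nonempty {e : E.Ed // E.src e = v} → ({e : E.Ed // E.src e = v} × ℕ ≃ ℕ) :=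
    fun v hv => (h v hv).some
  let ρ : E.Ed → ℕ → ℕ := fun e n => g (E.src e) ⟨⟨e, rfl⟩⟩ (⟨e, rfl⟩, n)
  have key : ∀ e f n m, (hs : E.src e = E.src f) → ρ e n = ρ f m → e = f ∧ n = m := by
    intro e f n m hs h1
    have h2 : ρ e n = g (E.src f) ⟨⟨f, rfl⟩⟩ (⟨e, hs⟩, n) := by
      change g (E.src e) ⟨⟨e, rfl⟩⟩ (⟨e, rfl⟩, n) = _
      have : ∀ (w : E.V) (hw : E.src e = w), g (E.src e) ⟨⟨e, rfl⟩⟩ (⟨e, rfl⟩, n) =
          g w ⟨⟨e, hw⟩⟩ (⟨e, hw⟩, n) := by
        intro w hw
        subst hw
        rfl
      exact this _ hs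
    rw [h2] at h1
    have h3 := (g (E.src f) ⟨⟨f, rfl⟩⟩).injective h1
    rw [Prod.mk.injEq] at h3
    exact ⟨congrArg Subtype.val h3.1, h3.2⟩
  refine ⟨ρ, fun e n m h1 => (key e e n m rfl h1).2, fun e f n m hs h1 => (key e f n m hs h1).1,
    fun e k => ?_⟩
  obtain ⟨⟨⟨f, hf⟩, n⟩, hfn⟩ := (g (E.src e) ⟨⟨e, rfl⟩⟩).surjective k
  refine ⟨f, n, hf, ?_⟩
  change g (E.src f) ⟨⟨f, rfl⟩⟩ (⟨f, rfl⟩, n) = k
  rw [← hfn]
  have : ∀ (w : E.V) (hw : E.src f = w) (hne : Nonempty {e : E.Ed // E.src e = w}),
      g (E.src f) ⟨⟨f, rfl⟩⟩ (⟨f, rfl⟩, n) = g w hne (⟨f, hw⟩, n) := by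
    intro w hw hne
    subst hw
    rfl
  exact this _ hf ⟨⟨e, rfl⟩⟩

/-- Every countable graph has a Cuntz-Krieger family of operators without vanishing vertices. -/
theorem exists_rep : ∃ l : Fam E BK, IsCK l ∧ ∀ v, l.P v ≠ 0 := by
  obtain ⟨ρ, hρ, hd, hs⟩ := exists_rho E
  obtain ⟨enc, henc⟩ := Countable.exists_injective_nat E.V
  have hW : ∀ v, Function.Injective fun n : ℕ => Nat.pair (enc v) n := by
    intro v n m h
    exact (Nat.pair_eq_pair.1 h).2
  set W : E.V → BK := fun v => Y _ (hW v) with hWdef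
  set Z : E.Ed → BK := fun e => Y (ρ e) (hρ e) with hZdef
  have hWW : ∀ v, star (W v) * W v = 1 := fun v => Y_star_self _ _
  have hWW0 : ∀ v w, v ≠ w → star (W v) * W w = 0 := by
    intro v w h
    apply Y_star_Y
    intro n m hnm
    exact h (henc (Nat.pair_eq_pair.1 hnm).1)
  have hZZ : ∀ e, star (Z e) * Z e = 1 := fun e => Y_star_self _ _
  have hZZ0 : ∀ e f, E.src e = E.src f → e ≠ f → star (Z e) * Z f = 0 := by
    intro e f h1 h2
    apply Y_star_Y
    intro n m hnm
    exact h2 (hd e f n m h1 hnm)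
  refine ⟨⟨fun v => W v * star (W v), fun e => W (E.src e) * Z e * star (W (E.rng e)),
    fun e => W (E.rng e) * star (Z e) * star (W (E.src e))⟩, ⟨?_, ?_, ?_⟩, ?_⟩
  · refine ⟨?_, ?_, ?_, ?_, ?_, ?_, ?_, ?_, ?_⟩
    · intro v
      change W v * star (W v) * (W v * star (W v)) = W v * star (W v)
      calc W v * star (W v) * (W v * star (W v)) = W v * (star (W v) * W v) * star (W v) := by
            simp only [mul_assoc]
        _ = W v * star (W v) := by rw [hWW, mul_one]
    · intro v w h
      change W v * star (W v) * (W w * star (W w)) = 0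
      calc W v * star (W v) * (W w * star (W w)) = W v * (star (W v) * W w) * star (W w) := by
            simp only [mul_assoc]
        _ = 0 := by rw [hWW0 v w h, mul_zero, zero_mul]
    · intro e
      change W (E.src e) * star (W (E.src e)) * (W (E.src e) * Z e * star (W (E.rng e))) = _
      calc W (E.src e) * star (W (E.src e)) * (W (E.src e) * Z e * star (W (E.rng e)))
          = W (E.src e) * (star (W (E.src e)) * W (E.src e)) * Z e * star (W (E.rng e)) := by
            simp only [mul_assoc]
        _ = _ := by rw [hWW, mul_one]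
    · intro e
      change W (E.src e) * Z e * star (W (E.rng e)) * (W (E.rng e) * star (W (E.rng e))) = _
      calc W (E.src e) * Z e * star (W (E.rng e)) * (W (E.rng e) * star (W (E.rng e)))
          = W (E.src e) * Z e * (star (W (E.rng e)) * W (E.rng e)) * star (W (E.rng e)) := by
            simp only [mul_assoc]
        _ = _ := by rw [hWW, mul_one]
    · intro e
      change W (E.rng e) * star (W (E.rng e)) * (W (E.rng e) * star (Z e) * star (W (E.src e))) = _
      calc W (E.rng e) * star (W (E.rng e)) * (W (E.rng e) * star (Z e) * star (W (E.src e)))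
          = W (E.rng e) * (star (W (E.rng e)) * W (E.rng e)) * star (Z e) * star (W (E.src e)) := by
            simp only [mul_assoc]
        _ = _ := by rw [hWW, mul_one]
    · intro e
      change W (E.rng e) * star (Z e) * star (W (E.src e)) * (W (E.src e) * star (W (E.src e))) = _
      calc W (E.rng e) * star (Z e) * star (W (E.src e)) * (W (E.src e) * star (W (E.src e)))
          = W (E.rng e) * star (Z e) * (star (W (E.src e)) * W (E.src e)) * star (W (E.src e)) := by
            simp only [mul_assoc]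
        _ = _ := by rw [hWW, mul_one]
    · intro e
      change W (E.rng e) * star (Z e) * star (W (E.src e)) *
        (W (E.src e) * Z e * star (W (E.rng e))) = W (E.rng e) * star (W (E.rng e))
      calc W (E.rng e) * star (Z e) * star (W (E.src e)) * (W (E.src e) * Z e * star (W (E.rng e)))
          = W (E.rng e) * (star (Z e) * ((star (W (E.src e)) * W (E.src e)) * Z e)) *
              star (W (E.rng e)) := by simp only [mul_assoc]
        _ = _ := by rw [hWW, one_mul, hZZ, mul_one]
    · intro e f hef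
      change W (E.rng e) * star (Z e) * star (W (E.src e)) *
        (W (E.src f) * Z f * star (W (E.rng f))) = 0
      calc W (E.rng e) * star (Z e) * star (W (E.src e)) * (W (E.src f) * Z f * star (W (E.rng f)))
          = W (E.rng e) * (star (Z e) * ((star (W (E.src e)) * W (E.src f)) * Z f)) *
              star (W (E.rng f)) := by simp only [mul_assoc]
        _ = 0 := by
            by_cases h : E.src e = E.src f
            · rw [h, hWW, one_mul, hZZ0 e f h hef, mul_zero, zero_mul]
            · rw [hWW0 _ _ h, zero_mul, mul_zero, mul_zero, zero_mul]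
    · intro v s hs' h
      change W v * star (W v) = ∑ e ∈ s, W (E.src e) * Z e * star (W (E.rng e)) *
        (W (E.rng e) * star (Z e) * star (W (E.src e)))
      have h1 : ∀ e ∈ s, W (E.src e) * Z e * star (W (E.rng e)) *
          (W (E.rng e) * star (Z e) * star (W (E.src e))) =
          W v * (Z e * star (Z e)) * star (W v) := by
        intro e he
        rw [(h e).1 he]
        calc W v * Z e * star (W (E.rng e)) * (W (E.rng e) * star (Z e) * star (W v))
            = W v * (Z e * ((star (W (E.rng e)) * W (E.rng e)) * star (Z e))) * star (W v) := by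
              simp only [mul_assoc]
          _ = _ := by rw [hWW, one_mul]
      rw [Finset.sum_congr rfl h1, ← Finset.sum_mul, ← Finset.mul_sum,
        Y_sum s ρ hρ (fun e he f hf n m hnm => hd e f n m
          (((h e).1 he).trans ((h f).1 hf).symm) hnm) (fun k => by
          obtain ⟨e, he⟩ := hs'
          obtain ⟨f, n, hf, hfn⟩ := hs e k
          exact ⟨f, (h f).2 (hf.trans ((h e).1 he)), n, hfn⟩), mul_one]
  · intro v
    change star (W v * star (W v)) = W v * star (W v)
    rw [star_mul, star_star]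
  · intro e
    change W (E.rng e) * star (Z e) * star (W (E.src e)) =
      star (W (E.src e) * Z e * star (W (E.rng e)))
    rw [star_mul, star_mul, star_star, mul_assoc]
  · intro v h
    change W v * star (W v) = 0 at h
    have h1 : star (W v) * (W v * star (W v)) * W v = 1 := by
      calc star (W v) * (W v * star (W v)) * W v = (star (W v) * W v) * (star (W v) * W v) := by
            simp only [mul_assoc]
        _ = 1 := by rw [hWW, mul_one]
    rw [h, mul_zero, zero_mul] at h1
    have h2 : (0 : K2) = stb 0 := DFunLike.congr_fun h1 (stb 0)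
    have h3 := stb.orthonormal.1 0
    rw [← h2, norm_zero] at h3
    exact zero_ne_one h3

end

end Pool.Agent.Lib.MP_8f60dc_al
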