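import Pool.Agent.Lib.MP_8f60dc_al.NX.MU
import Pool.Agent.Lib.MP_8f60dc_al.CS

/-!
# Straightening an algebra homomorphism on a system of matrix units
-/

set_option autoImplicit false
set_option linter.unusedSectionVars false

namespace Pool.Agent.Lib.MP_8f60dc_al

noncomputable section

/-- Square roots in finite dimensional C*-algebras. -/
theorem exists_W {N : Type*} [CStarAlgebra N] [FiniteDimensional ℂ N] {κ : Type*} [Fintype κ]
    (y v : κ → N) (h : ∑ o, v o * y o = 1) :
    ∃ W W' : N, W * W' = 1 ∧ W' * W = 1 ∧ star W = W ∧ W * W = ∑ o, star (y o) * y o ∧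
      ∀ u, (∑ o, star (y o) * y o) * u = u * (∑ o, star (y o) * y o) → W * u = u * W := by
  let _ := CStarAlgebra.spectralOrder N
  have := CStarAlgebra.spectralOrderedRing N
  obtain ⟨H, hH⟩ : ∃ H, H = ∑ o, star (y o) * y o := ⟨_, rfl⟩
  rw [← hH]
  have h0 : 0 ≤ H := by
    rw [hH]
    exact Finset.sum_nonneg fun o _ => star_mul_self_nonneg _
  have hinj : ∀ x, H * x = 0 → x = 0 := by
    intro x hx
    have h1 : ∑ o, star (y o * x) * (y o * x) = 0 := by
      have h2 : ∑ o, star (y o * x) * (y o * x) = star x * (H * x) := by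
        rw [hH, Finset.sum_mul, Finset.mul_sum]
        apply Finset.sum_congr rfl
        intro o _
        rw [star_mul]
        simp only [mul_assoc]
      rw [h2, hx, mul_zero]
    have h2 := (Finset.sum_eq_zero_iff_of_nonneg (fun o _ => star_mul_self_nonneg _)).1 h1
    have h3 : ∀ o, y o * x = 0 := fun o =>
      (CStarRing.star_mul_self_eq_zero_iff _).1 (h2 o (Finset.mem_univ o))
    calc x = (∑ o, v o * y o) * x := by rw [h, one_mul]
      _ = ∑ o, v o * (y o * x) := by
        rw [Finset.sum_mul]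
        simp only [mul_assoc]
      _ = 0 := Finset.sum_eq_zero fun o _ => by rw [h3, mul_zero]
  have hsurj : Function.Surjective (LinearMap.mulLeft ℂ H) :=
    LinearMap.surjective_of_injective (by
      rw [injective_iff_map_eq_zero]
      exact hinj)
  obtain ⟨K, hK⟩ := hsurj 1
  change H * K = 1 at hK
  have hK' : K * H = 1 := by
    have h1 : H * (K * H - 1) = 0 := by
      rw [mul_sub, ← mul_assoc, hK, one_mul, mul_one, sub_self]
    exact sub_eq_zero.1 (hinj _ h1)
  obtain ⟨W, hW1, hW2, hW3⟩ := exists_sqrt ((pos_iff H).2 h0)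
  refine ⟨W, W * K, by rw [← mul_assoc, hW2, hK], ?_, hW1.sa, hW2, fun u hu => (hW3 u hu.symm).symm⟩
  have h4 : K * W = W * K := hW3 K (by rw [hK, hK'])
  rw [mul_assoc, h4, ← mul_assoc, hW2, hK]

/-- Two-sided ideals. -/
structure IsId {R : Type*} [NonUnitalRing R] [Module ℂ R] (J : Submodule ℂ R) : Prop where
  left : ∀ a, ∀ x ∈ J, a * x ∈ J
  right : ∀ a, ∀ x ∈ J, x * a ∈ J

/-- Finite subsets are contained in pieces. -/
def HasPieces (R : Type*) [NonUnitalRing R] [Module ℂ R] [StarRing R] : Prop :=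
  ∀ F : Finset R, ∃ (ι κ : Type) (_ : Fintype ι) (z y : ι → R) (q : κ → R) (v : ι → κ),
    MU z y q v ∧ (∀ i, star (z i) = y i) ∧ ∀ x ∈ F, x ∈ muSpan z y v

section

variable {B : Type*} [NonUnitalCStarAlgebra B] (SB : NonUnitalStarSubalgebra ℂ B)

theorem adj_mem {W W' : Unitization ℂ B} (hW : W.snd ∈ SB) (hW' : W'.snd ∈ SB) (x : SB) :
    (W * ((x : B) : Unitization ℂ B) * W').snd ∈ SB := by
  rw [Unitization.snd_mul, Unitization.snd_mul, Unitization.fst_mul, Unitization.fst_inr,
    Unitization.snd_inr, mul_zero, zero_smul, zero_smul, add_zero, zero_add]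
  have h1 : W.fst • (x : B) + W.snd * (x : B) ∈ SB :=
    add_mem (SMulMemClass.smul_mem _ x.2) (mul_mem hW x.2)
  exact add_mem (SMulMemClass.smul_mem _ h1) (mul_mem h1 hW')

theorem adj_eq {B : Type*} [NonUnitalCStarAlgebra B] (W W' : Unitization ℂ B) (x : B) :
    (((W * (x : Unitization ℂ B) * W').snd : B) : Unitization ℂ B) = W * x * W' := by
  apply Unitization.ext
  · rw [Unitization.fst_inr, Unitization.fst_mul, Unitization.fst_mul, Unitization.fst_inr,
      mul_zero, zero_mul]
  · rw [Unitization.snd_inr]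

/-- Conjugation. -/
def adj (W W' : Unitization ℂ B) (hW : W.snd ∈ SB) (hW' : W'.snd ∈ SB) (h : W' * W = 1) :
    SB →ₙₐ[ℂ] SB where
  toFun x := ⟨(W * ((x : B) : Unitization ℂ B) * W').snd, adj_mem SB hW hW' x⟩
  map_smul' r x := by
    apply Subtype.ext
    apply Unitization.inr_injective (R := ℂ)
    change (((W * ((r • (x : B) : B) : Unitization ℂ B) * W').snd : B) : Unitization ℂ B) =
      ((r • (W * ((x : B) : Unitization ℂ B) * W').snd : B) : Unitization ℂ B)
    rw [adj_eq, Unitization.inr_smul, Unitization.inr_smul, adj_eq, mul_smul_comm, smul_mul_assoc]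
  map_zero' := by
    apply Subtype.ext
    apply Unitization.inr_injective (R := ℂ)
    change (((W * ((0 : B) : Unitization ℂ B) * W').snd : B) : Unitization ℂ B) =
      ((0 : B) : Unitization ℂ B)
    rw [adj_eq, Unitization.inr_zero, mul_zero, zero_mul]
  map_add' x y := by
    apply Subtype.ext
    apply Unitization.inr_injective (R := ℂ)
    change (((W * (((x : B) + (y : B) : B) : Unitization ℂ B) * W').snd : B) : Unitization ℂ B) =
      (((W * ((x : B) : Unitization ℂ B) * W').snd +
        (W * ((y : B) : Unitization ℂ B) * W').snd : B) : Unitization ℂ B)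
    rw [adj_eq, Unitization.inr_add, Unitization.inr_add, adj_eq, adj_eq, mul_add, add_mul]
  map_mul' x y := by
    apply Subtype.ext
    apply Unitization.inr_injective (R := ℂ)
    change (((W * (((x : B) * (y : B) : B) : Unitization ℂ B) * W').snd : B) : Unitization ℂ B) =
      (((W * ((x : B) : Unitization ℂ B) * W').snd *
        (W * ((y : B) : Unitization ℂ B) * W').snd : B) : Unitization ℂ B)
    rw [adj_eq, Unitization.inr_mul, Unitization.inr_mul, adj_eq, adj_eq]
    calc W * (((x : B) : Unitization ℂ B) * ((y : B) : Unitization ℂ B)) * W'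
        = W * ((x : B) : Unitization ℂ B) * (1 * ((y : B) : Unitization ℂ B)) * W' := by
          rw [one_mul]
          simp only [mul_assoc]
      _ = W * ((x : B) : Unitization ℂ B) * W' * (W * ((y : B) : Unitization ℂ B) * W') := by
          rw [← h]
          simp only [mul_assoc]

variable {SB}

theorem adj_coe {W W' : Unitization ℂ B} (hW : W.snd ∈ SB) (hW' : W'.snd ∈ SB) (h : W' * W = 1)
    (x : SB) : ((adj SB W W' hW hW' h x : B) : Unitization ℂ B) = W * ((x : B) :
      Unitization ℂ B) * W' := adj_eq _ _ _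

theorem adj_adj {W W' : Unitization ℂ B} (hW : W.snd ∈ SB) (hW' : W'.snd ∈ SB) (h : W' * W = 1)
    (h' : W * W' = 1) (x : SB) : adj SB W' W hW' hW h' (adj SB W W' hW hW' h x) = x := by
  apply Subtype.ext
  apply Unitization.inr_injective (R := ℂ)
  rw [adj_coe, adj_coe]
  calc W' * (W * ((x : B) : Unitization ℂ B) * W') * W
      = (W' * W) * ((x : B) : Unitization ℂ B) * (W' * W) := by simp only [mul_assoc]
    _ = ((x : B) : Unitization ℂ B) := by rw [h, one_mul, mul_one]

theorem adj_ideal {W W' : Unitization ℂ B} (hW : W.snd ∈ SB) (hW' : W'.snd ∈ SB) (h : W' * W = 1)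
    {J : Submodule ℂ SB} (hJ : IsId J) {x : SB} (hx : x ∈ J) : adj SB W W' hW hW' h x ∈ J := by
  have h1 : adj SB W W' hW hW' h x = W'.fst • (W.fst • x + (⟨W.snd, hW⟩ : SB) * x) +
      (W.fst • x + (⟨W.snd, hW⟩ : SB) * x) * (⟨W'.snd, hW'⟩ : SB) := by
    apply Subtype.ext
    change (W * ((x : B) : Unitization ℂ B) * W').snd = W'.fst • (W.fst • (x : B) + W.snd * (x : B))
      + (W.fst • (x : B) + W.snd * (x : B)) * W'.snd
    rw [Unitization.snd_mul, Unitization.snd_mul, Unitization.fst_mul, Unitization.fst_inr,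
      Unitization.snd_inr, mul_zero, zero_smul, zero_smul, add_zero, zero_add]
  rw [h1]
  have h2 : W.fst • x + (⟨W.snd, hW⟩ : SB) * x ∈ J :=
    J.add_mem (J.smul_mem _ hx) (hJ.left _ _ hx)
  exact J.add_mem (J.smul_mem _ h2) (hJ.right _ _ h2)

end

end

end Pool.Agent.Lib.MP_8f60dc_al
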