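import Pool.Agent.Lib.MP_8f60dc_al.NX.Piece

/-!
# The systems of matrix units of an acyclic graph, local finiteness, injectivity
-/

set_option autoImplicit false
set_option linter.unusedSectionVars false

namespace Pool.Agent.Lib.MP_8f60dc_al

variable {E : DGraph}

/-- The indices: paths in `X` with source in `Vs`. -/
abbrev PI (X : Finset E.Ed) (Vs : Finset E.V) : Type :=
  {x : E.V × List E.Ed // ∃ u ∈ Vs, XPath X u x.1 x.2}

/-- The end of a path. -/
def PI.v {X : Finset E.Ed} {Vs : Finset E.V} (i : PI X Vs) : E.V := i.1.1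

theorem PI_finite (hac : E.Acyclic) (X : Finset E.Ed) (Vs : Finset E.V) : Finite (PI X Vs) := by
  have h1 : ∀ u, {x : E.V × List E.Ed | XPath X u x.1 x.2}.Finite := by
    intro u
    obtain ⟨Λ, hΛ, -⟩ := exists_paths (lf_leavitt (E := E)) X hac u
    exact Λ.finite_toSet.subset fun x hx => (hΛ x).2 hx
  have h2 : {x : E.V × List E.Ed | ∃ u ∈ Vs, XPath X u x.1 x.2} =
      ⋃ u ∈ Vs, {x : E.V × List E.Ed | XPath X u x.1 x.2} := by
    ext x
    simp
  have h3 : {x : E.V × List E.Ed | ∃ u ∈ Vs, XPath X u x.1 x.2}.Finite := by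
    rw [h2]
    exact Vs.finite_toSet.biUnion fun u _ => h1 u
  exact h3.to_subtype

noncomputable section

variable {R : Type*} [NonUnitalRing R]

/-- Left matrix unit factors. -/
def Fam.pz (l : Fam E R) (X : Finset E.Ed) (Vs : Finset E.V) (i : PI X Vs) : R :=
  l.SP i.1.1 i.1.2 * l.q X i.1.1

/-- Right matrix unit factors. -/
def Fam.py (l : Fam E R) (X : Finset E.Ed) (Vs : Finset E.V) (i : PI X Vs) : R :=
  l.q X i.1.1 * l.TP i.1.1 i.1.2

variable [Module ℂ R] [IsScalarTower ℂ R R] [SMulCommClass ℂ R R]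

theorem mu_pieces {l : Fam E R} (hl : IsLeavitt l) (X : Finset E.Ed) (Vs : Finset E.V) :
    MU (l.pz X Vs) (l.py X Vs) (l.q X) PI.v where
  yz i j := by
    classical
    obtain ⟨⟨v, p⟩, u, hu, h⟩ := i
    obtain ⟨⟨v', p'⟩, u', hu', h'⟩ := j
    have h1 := hl.qq X p h h'
    change l.q X v * l.TP v p * (l.SP v' p' * l.q X v') = _
    rw [h1]
    by_cases h2 : (v, p) = (v', p')
    · rw [if_pos h2, if_pos (Subtype.ext h2)]
      rfl
    · rw [if_neg h2, if_neg (fun h3 => h2 (congrArg Subtype.val h3))]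
  qy i := by
    change l.q X i.1.1 * (l.q X i.1.1 * l.TP i.1.1 i.1.2) = _
    rw [← mul_assoc, hl.q_q]
    rfl
  zq i := by
    change l.SP i.1.1 i.1.2 * l.q X i.1.1 * l.q X i.1.1 = _
    rw [mul_assoc, hl.q_q]
    rfl

/-- The pieces. -/
def Fam.pc (l : Fam E R) (X : Finset E.Ed) (Vs : Finset E.V) : Submodule ℂ R :=
  muSpan (l.pz X Vs) (l.py X Vs) PI.v

theorem mem_pc {l : Fam E R} (hl : IsLeavitt l) {X : Finset E.Ed} {Vs : Finset E.V} {u u' v : E.V}
    {p p' : List E.Ed} (hu : u ∈ Vs) (hu' : u' ∈ Vs) (h : XPath X u v p) (h' : XPath X u' v p') :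
    l.SP v p * (l.q X v * l.TP v p') ∈ l.pc X Vs := by
  have h1 : l.SP v p * (l.q X v * l.TP v p') =
      l.pz X Vs ⟨(v, p), u, hu, h⟩ * l.py X Vs ⟨(v, p'), u', hu', h'⟩ := by
    change _ = l.SP v p * l.q X v * (l.q X v * l.TP v p')
    rw [mul_assoc, ← mul_assoc (l.q X v) (l.q X v), hl.q_q]
  rw [h1]
  exact MU.mem rfl

theorem P_mem_pc {l : Fam E R} (hl : IsLeavitt l) (hac : E.Acyclic) {X : Finset E.Ed}
    {Vs : Finset E.V} {u : E.V} (hu : u ∈ Vs) : l.P u ∈ l.pc X Vs := by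
  obtain ⟨Λ, hΛ, hP⟩ := exists_paths hl X hac u
  rw [hP]
  apply Submodule.sum_mem
  intro x hx
  exact mem_pc hl hu hu ((hΛ x).1 hx) ((hΛ x).1 hx)

theorem S_mem_pc {l : Fam E R} (hl : IsLeavitt l) (hac : E.Acyclic) {X : Finset E.Ed}
    {Vs : Finset E.V} {e : E.Ed} (he : e ∈ X) (h1 : E.src e ∈ Vs) (h2 : E.rng e ∈ Vs) :
    l.S e ∈ l.pc X Vs := by
  obtain ⟨Λ, hΛ, hP⟩ := exists_paths hl X hac (E.rng e)
  rw [← hl.sp e, hP, Finset.mul_sum]
  apply Submodule.sum_mem
  intro x hx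
  have h3 := (hΛ x).1 hx
  have h4 := mem_pc hl (X := X) (p := e :: x.2) h1 h2 ⟨⟨rfl, h3.1⟩, fun f hf => by
    rcases List.mem_cons.1 hf with h | h
    · rw [h]
      exact he
    · exact h3.2 f h⟩ h3
  rwa [Fam.SP_cons, mul_assoc] at h4

theorem T_mem_pc {l : Fam E R} (hl : IsLeavitt l) (hac : E.Acyclic) {X : Finset E.Ed}
    {Vs : Finset E.V} {e : E.Ed} (he : e ∈ X) (h1 : E.src e ∈ Vs) (h2 : E.rng e ∈ Vs) :
    l.T e ∈ l.pc X Vs := by
  obtain ⟨Λ, hΛ, hP⟩ := exists_paths hl X hac (E.rng e)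
  rw [← hl.pt e, hP, Finset.sum_mul]
  apply Submodule.sum_mem
  intro x hx
  have h3 := (hΛ x).1 hx
  have h4 := mem_pc hl (X := X) (p' := e :: x.2) h2 h1 h3 ⟨⟨rfl, h3.1⟩, fun f hf => by
    rcases List.mem_cons.1 hf with h | h
    · rw [h]
      exact he
    · exact h3.2 f h⟩
  rw [Fam.TP_cons] at h4
  rw [mul_assoc, mul_assoc]
  exact h4

/-- Every element of the Leavitt path algebra is in all large pieces. -/
theorem eventually_pc (hac : E.Acyclic) (x : LPA E) : ∃ (X0 : Finset E.Ed) (Vs0 : Finset E.V),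
    ∀ X Vs, X0 ⊆ X → Vs0 ⊆ Vs → x ∈ (lf E).pc X Vs := by
  classical
  let Y : Submodule ℂ (LPA E) :=
    { carrier := {x | ∃ (X0 : Finset E.Ed) (Vs0 : Finset E.V),
        ∀ X Vs, X0 ⊆ X → Vs0 ⊆ Vs → x ∈ (lf E).pc X Vs}
      add_mem' := by
        rintro x y ⟨X1, V1, h1⟩ ⟨X2, V2, h2⟩
        refine ⟨X1 ∪ X2, V1 ∪ V2, fun X Vs hX hVs => ?_⟩
        exact Submodule.add_mem _
          (h1 X Vs (Finset.subset_union_left.trans hX) (Finset.subset_union_left.trans hVs))
          (h2 X Vs (Finset.subset_union_right.trans hX) (Finset.subset_union_right.trans hVs))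
      zero_mem' := ⟨∅, ∅, fun X Vs _ _ => Submodule.zero_mem _⟩
      smul_mem' := by
        rintro t x ⟨X1, V1, h1⟩
        exact ⟨X1, V1, fun X Vs hX hVs => Submodule.smul_mem _ t (h1 X Vs hX hVs)⟩ }
  have hmul : ∀ a ∈ Y, ∀ b ∈ Y, a * b ∈ Y := by
    rintro x ⟨X1, V1, h1⟩ y ⟨X2, V2, h2⟩
    refine ⟨X1 ∪ X2, V1 ∪ V2, fun X Vs hX hVs => ?_⟩
    exact (mu_pieces lf_leavitt X Vs).mul_mem
      (h1 X Vs (Finset.subset_union_left.trans hX) (Finset.subset_union_left.trans hVs))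
      (h2 X Vs (Finset.subset_union_right.trans hX) (Finset.subset_union_right.trans hVs))
  have hP : ∀ v, (lf E).P v ∈ Y := fun v =>
    ⟨∅, {v}, fun X Vs _ hVs => P_mem_pc lf_leavitt hac (hVs (Finset.mem_singleton_self v))⟩
  have hS : ∀ e, (lf E).S e ∈ Y := fun e =>
    ⟨{e}, {E.src e, E.rng e}, fun X Vs hX hVs => S_mem_pc lf_leavitt hac
      (hX (Finset.mem_singleton_self e)) (hVs (by simp)) (hVs (by simp))⟩
  have hT : ∀ e, (lf E).T e ∈ Y := fun e =>
    ⟨{e}, {E.src e, E.rng e}, fun X Vs hX hVs => T_mem_pc lf_leavitt hac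
      (hX (Finset.mem_singleton_self e)) (hVs (by simp)) (hVs (by simp))⟩
  exact lpa_top Y hP hS hT (fun v => hmul _ (hP v)) (fun e => hmul _ (hS e))
    (fun e => hmul _ (hT e)) x

/-- Finitely many elements are in one piece. -/
theorem exists_pc (hac : E.Acyclic) (F : Finset (LPA E)) :
    ∃ (X : Finset E.Ed) (Vs : Finset E.V), ∀ x ∈ F, x ∈ (lf E).pc X Vs := by
  classical
  suffices h : ∃ (X0 : Finset E.Ed) (Vs0 : Finset E.V),
      ∀ X Vs, X0 ⊆ X → Vs0 ⊆ Vs → ∀ x ∈ F, x ∈ (lf E).pc X Vs by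
    obtain ⟨X0, Vs0, h⟩ := h
    exact ⟨X0, Vs0, h X0 Vs0 (Finset.Subset.refl _) (Finset.Subset.refl _)⟩
  induction F using Finset.induction_on with
  | empty => exact ⟨∅, ∅, by simp⟩
  | insert x F _ ih =>
    obtain ⟨X1, V1, h1⟩ := ih
    obtain ⟨X2, V2, h2⟩ := eventually_pc hac x
    refine ⟨X1 ∪ X2, V1 ∪ V2, fun X Vs hX hVs y hy => ?_⟩
    rcases Finset.mem_insert.1 hy with h | h
    · rw [h]
      exact h2 X Vs (Finset.subset_union_right.trans hX) (Finset.subset_union_right.trans hVs)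
    · exact h1 X Vs (Finset.subset_union_left.trans hX) (Finset.subset_union_left.trans hVs) y h

section Map

variable {S : Type*} [NonUnitalRing S] [Module ℂ S] [IsScalarTower ℂ S S] [SMulCommClass ℂ S S]

theorem Fam.map_q (f : R →ₙₐ[ℂ] S) (l : Fam E R) (X : Finset E.Ed) (v : E.V) :
    (l.map f).q X v = f (l.q X v) := by
  classical
  unfold Fam.q
  rw [map_sub, map_sum]
  congr 1
  exact Finset.sum_congr rfl fun e _ => (map_mul f _ _).symm

theorem Fam.map_pz (f : R →ₙₐ[ℂ] S) (l : Fam E R) (X : Finset E.Ed) (Vs : Finset E.V)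
    (i : PI X Vs) : (l.map f).pz X Vs i = f (l.pz X Vs i) := by
  unfold Fam.pz
  rw [Fam.map_q, Fam.map_SP, map_mul]

theorem Fam.map_py (f : R →ₙₐ[ℂ] S) (l : Fam E R) (X : Finset E.Ed) (Vs : Finset E.V)
    (i : PI X Vs) : (l.map f).py X Vs i = f (l.py X Vs i) := by
  unfold Fam.py
  rw [Fam.map_q, Fam.map_TP, map_mul]

theorem Fam.map_pc (f : R →ₙₐ[ℂ] S) (l : Fam E R) (X : Finset E.Ed) (Vs : Finset E.V) {x : R}
    (hx : x ∈ l.pc X Vs) : f x ∈ (l.map f).pc X Vs := by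
  unfold Fam.pc muSpan at hx
  induction hx using Submodule.span_induction with
  | mem x hx =>
    obtain ⟨j, k, hjk, rfl⟩ := hx
    rw [map_mul, ← Fam.map_pz, ← Fam.map_py]
    exact MU.mem hjk
  | zero => rw [map_zero]; exact Submodule.zero_mem _
  | add x y _ _ h1 h2 => rw [map_add]; exact Submodule.add_mem _ h1 h2
  | smul t x _ h1 => rw [map_smul]; exact Submodule.smul_mem _ t h1

/-- If a gap projection vanishes in one family without vanishing vertices then in all families. -/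
theorem q_zero {l : Fam E R} (hl : IsLeavitt l) (hne : ∀ v, l.P v ≠ 0) {X : Finset E.Ed} {v : E.V}
    (h : l.q X v = 0) {m : Fam E S} (hm : IsLeavitt m) : m.q X v = 0 := by
  classical
  have h1 : ∀ f, E.src f = v → f ∈ X := by
    intro f hf
    by_contra hfX
    apply hne (E.rng f)
    have h2 : l.T f * l.q X v * l.S f = l.P (E.rng f) := by
      unfold Fam.q
      rw [mul_sub, sub_mul, ← hf, hl.tp, hl.ts, Finset.mul_sum, Finset.sum_mul,
        Finset.sum_eq_zero, sub_zero]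
      intro e he
      have hne : f ≠ e := by
        rintro rfl
        exact hfX (Finset.mem_filter.1 he).1
      rw [← mul_assoc, hl.ts0 f e hne, zero_mul, zero_mul]
    rw [← h2, h, mul_zero, zero_mul]
  by_cases h2 : ∃ f, E.src f = v
  · obtain ⟨f, hf⟩ := h2
    have h3 := hm.ck v (X.filter (fun e => E.src e = v))
      ⟨f, Finset.mem_filter.2 ⟨h1 f hf, hf⟩⟩ (fun e => by
        rw [Finset.mem_filter]
        exact ⟨fun h => h.2, fun h => ⟨h1 e h, h⟩⟩)
    unfold Fam.q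
    rw [h3, sub_self]
  · exfalso
    apply hne v
    have h3 : X.filter (fun e => E.src e = v) = ∅ := by
      apply Finset.filter_eq_empty_iff.2
      intro e _ he
      exact h2 ⟨e, he⟩
    unfold Fam.q at h
    rwa [h3, Finset.sum_empty, sub_zero] at h

end Map

/-- A Leavitt family of an acyclic graph without vanishing vertices gives an injective
homomorphism of the Leavitt path algebra. -/
theorem lLift_injective (hac : E.Acyclic) {l : Fam E R} (hl : IsLeavitt l)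
    (hne : ∀ v, l.P v ≠ 0) : Function.Injective (lLift hl) := by
  rw [injective_iff_map_eq_zero]
  intro x hx
  obtain ⟨X, Vs, h⟩ := exists_pc hac {x}
  have hx1 := h x (Finset.mem_singleton_self x)
  have hfin := PI_finite hac X Vs
  have := Fintype.ofFinite (PI X Vs)
  have hmu := mu_pieces (lf_leavitt (E := E)) X Vs
  refine hmu.eq_zero hx1 fun i k => ?_
  obtain ⟨c, hc⟩ := hmu.corner hx1 i k
  have h1 := congrArg (lLift hl) hc
  rw [map_mul, map_mul, hx, mul_zero, zero_mul, map_smul, ← Fam.map_q, lLift_lf hl] at h1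
  rcases smul_eq_zero.1 h1.symm with h2 | h2
  · rw [hc, h2, zero_smul]
  · rw [hc, q_zero hl hne h2 lf_leavitt, smul_zero]

end

end Pool.Agent.Lib.MP_8f60dc_al
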