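import Pool.Agent.Lib.MP_8f60dc_al.Univ
import Pool.Agent.Lib.MP_8f60dc_al.NX.Defs

/-!
# Words along paths in a Leavitt family
-/

set_option autoImplicit false

namespace Pool.Agent.Lib.MP_8f60dc_al

variable {E : DGraph}

/-- Acyclic graphs. -/
def DGraph.Acyclic (E : DGraph) : Prop := ∀ v, ¬ Relation.TransGen E.Step v v

/-- The list `p` is a path from `v` to `w`. -/
def IsPath (E : DGraph) : List E.Ed → E.V → E.V → Prop
  | [], v, w => v = w
  | e :: p, v, w => E.src e = v ∧ IsPath E p (E.rng e) w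

/-- The list `p` is a path from `v` to `w`, and each of its sources emits only one edge. -/
def IsUPath (E : DGraph) : List E.Ed → E.V → E.V → Prop
  | [], v, w => v = w
  | e :: p, v, w => E.src e = v ∧ (∀ f, E.src f = v → f = e) ∧ IsUPath E p (E.rng e) w

theorem IsUPath.isPath : ∀ {p : List E.Ed} {v w : E.V}, IsUPath E p v w → IsPath E p v w
  | [], _, _, h => h
  | _ :: _, _, _, h => ⟨h.1, IsUPath.isPath h.2.2⟩

section Ring

variable {R : Type*} [NonUnitalRing R]

/-- The product of the edges of a list, then the vertex `w`. -/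
def Fam.SP (l : Fam E R) (w : E.V) : List E.Ed → R
  | [] => l.P w
  | e :: p => l.S e * l.SP w p

/-- The product of the ghost edges of a list in reverse order, after the vertex `w`. -/
def Fam.TP (l : Fam E R) (w : E.V) : List E.Ed → R
  | [] => l.P w
  | e :: p => l.TP w p * l.T e

@[simp] theorem Fam.SP_nil (l : Fam E R) (w : E.V) : l.SP w [] = l.P w := rfl
@[simp] theorem Fam.TP_nil (l : Fam E R) (w : E.V) : l.TP w [] = l.P w := rfl
@[simp] theorem Fam.SP_cons (l : Fam E R) (w : E.V) (e : E.Ed) (p : List E.Ed) :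
    l.SP w (e :: p) = l.S e * l.SP w p := rfl
@[simp] theorem Fam.TP_cons (l : Fam E R) (w : E.V) (e : E.Ed) (p : List E.Ed) :
    l.TP w (e :: p) = l.TP w p * l.T e := rfl

theorem Fam.map_SP {C F : Type*} [NonUnitalRing C] [FunLike F R C] [NonUnitalRingHomClass F R C]
    (f : F) (l : Fam E R) (w : E.V) (p : List E.Ed) : (l.map f).SP w p = f (l.SP w p) := by
  induction p with
  | nil => rfl
  | cons e p ih =>
    rw [Fam.SP_cons, Fam.SP_cons, ih, map_mul]
    rfl

theorem Fam.map_TP {C F : Type*} [NonUnitalRing C] [FunLike F R C] [NonUnitalRingHomClass F R C]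
    (f : F) (l : Fam E R) (w : E.V) (p : List E.Ed) : (l.map f).TP w p = f (l.TP w p) := by
  induction p with
  | nil => rfl
  | cons e p ih =>
    rw [Fam.TP_cons, Fam.TP_cons, ih, map_mul]
    rfl

namespace IsLeavitt

variable {l : Fam E R} (hl : IsLeavitt l)

include hl

theorem PP (v w : E.V) [Decidable (v = w)] : l.P v * l.P w = if v = w then l.P v else 0 := by
  split_ifs with h
  · subst h
    exact hl.idem v
  · exact hl.orth v w h

theorem PS0 {v : E.V} {e : E.Ed} (h : E.src e ≠ v) : l.P v * l.S e = 0 := by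
  rw [← hl.ps e, ← mul_assoc, hl.orth _ _ h.symm, zero_mul]

theorem SP0 {v : E.V} {e : E.Ed} (h : E.rng e ≠ v) : l.S e * l.P v = 0 := by
  rw [← hl.sp e, mul_assoc, hl.orth _ _ h, mul_zero]

theorem PT0 {v : E.V} {e : E.Ed} (h : E.rng e ≠ v) : l.P v * l.T e = 0 := by
  rw [← hl.pt e, ← mul_assoc, hl.orth _ _ h.symm, zero_mul]

theorem TP0 {v : E.V} {e : E.Ed} (h : E.src e ≠ v) : l.T e * l.P v = 0 := by
  rw [← hl.tp e, mul_assoc, hl.orth _ _ h, mul_zero]

theorem SS0 {e f : E.Ed} (h : E.rng e ≠ E.src f) : l.S e * l.S f = 0 := by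
  rw [← hl.ps f, ← mul_assoc, hl.SP0 h, zero_mul]

theorem TT0 {e f : E.Ed} (h : E.rng e ≠ E.src f) : l.T f * l.T e = 0 := by
  rw [← hl.pt e, ← mul_assoc, hl.TP0 h.symm, zero_mul]

theorem TS_assoc (e : E.Ed) (x : R) : l.T e * (l.S e * x) = l.P (E.rng e) * x := by
  rw [← mul_assoc, hl.ts]

theorem TS0_assoc {e f : E.Ed} (h : e ≠ f) (x : R) : l.T e * (l.S f * x) = 0 := by
  rw [← mul_assoc, hl.ts0 e f h, zero_mul]

/-- `w` on the right of a word. -/
theorem SP_P (w : E.V) : ∀ p : List E.Ed, l.SP w p * l.P w = l.SP w p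
  | [] => hl.idem w
  | e :: p => by rw [Fam.SP_cons, mul_assoc, SP_P w p]

theorem P_TP (w : E.V) : ∀ p : List E.Ed, l.P w * l.TP w p = l.TP w p
  | [] => hl.idem w
  | e :: p => by rw [Fam.TP_cons, ← mul_assoc, P_TP w p]

theorem SP_P0 {w v : E.V} (h : w ≠ v) (p : List E.Ed) : l.SP w p * l.P v = 0 := by
  rw [← hl.SP_P w p, mul_assoc, hl.orth _ _ h, mul_zero]

theorem P_TP0 {w v : E.V} (h : w ≠ v) (p : List E.Ed) : l.P v * l.TP w p = 0 := by
  rw [← hl.P_TP w p, ← mul_assoc, hl.orth _ _ h.symm, zero_mul]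

/-- The source of a path on the left of a word. -/
theorem P_SP : ∀ {p : List E.Ed} {v w : E.V}, IsPath E p v w → l.P v * l.SP w p = l.SP w p
  | [], v, w, h => by
    change v = w at h
    subst h
    exact hl.idem _
  | e :: p, v, w, h => by
    obtain ⟨rfl, -⟩ := h
    rw [Fam.SP_cons, ← mul_assoc, hl.ps]

theorem TP_P : ∀ {p : List E.Ed} {v w : E.V}, IsPath E p v w → l.TP w p * l.P v = l.TP w p
  | [], v, w, h => by
    change v = w at h
    subst h
    exact hl.idem _
  | e :: p, v, w, h => by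
    obtain ⟨rfl, -⟩ := h
    rw [Fam.TP_cons, mul_assoc, hl.tp]

/-- A word that is not a path vanishes. -/
theorem SP_zero : ∀ {p : List E.Ed} {w : E.V}, (∀ v, ¬ IsPath E p v w) → l.SP w p = 0
  | [], w, h => absurd rfl (h w)
  | e :: p, w, h => by
    rw [Fam.SP_cons]
    by_cases h1 : IsPath E p (E.rng e) w
    · exact absurd ⟨rfl, h1⟩ (h (E.src e))
    · by_cases h2 : ∃ v, IsPath E p v w
      · obtain ⟨v, hv⟩ := h2
        have h3 : E.rng e ≠ v := fun h4 => h1 (h4 ▸ hv)
        rw [← hl.P_SP hv, ← mul_assoc, hl.SP0 h3, zero_mul]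
      · rw [SP_zero (not_exists.1 h2), mul_zero]

theorem TP_zero : ∀ {p : List E.Ed} {w : E.V}, (∀ v, ¬ IsPath E p v w) → l.TP w p = 0
  | [], w, h => absurd rfl (h w)
  | e :: p, w, h => by
    rw [Fam.TP_cons]
    by_cases h1 : IsPath E p (E.rng e) w
    · exact absurd ⟨rfl, h1⟩ (h (E.src e))
    · by_cases h2 : ∃ v, IsPath E p v w
      · obtain ⟨v, hv⟩ := h2
        have h3 : E.rng e ≠ v := fun h4 => h1 (h4 ▸ hv)
        rw [← hl.TP_P hv, mul_assoc, hl.PT0 h3, mul_zero]
      · rw [TP_zero (not_exists.1 h2), zero_mul]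

theorem TP_SP : ∀ {p : List E.Ed} {v w : E.V}, IsPath E p v w → l.TP w p * l.SP w p = l.P w
  | [], v, w, _ => hl.idem w
  | e :: p, v, w, h => by
    obtain ⟨rfl, h⟩ := h
    rw [Fam.TP_cons, Fam.SP_cons, mul_assoc, ← mul_assoc (l.T e), hl.ts, hl.P_SP h]
    exact TP_SP h

/-- Along a path whose sources emit only one edge. -/
theorem SP_TP : ∀ {p : List E.Ed} {v w : E.V}, IsUPath E p v w → l.SP w p * l.TP w p = l.P v
  | [], v, w, h => by
    change v = w at h
    subst h
    exact hl.idem _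
  | e :: p, v, w, h => by
    obtain ⟨h0, hu, h⟩ := h
    have h1 : l.P v = l.S e * l.T e := by
      have h2 := hl.ck v {e} (Finset.singleton_nonempty e) (fun f => by
        rw [Finset.mem_singleton]
        exact ⟨fun h3 => h3 ▸ h0, hu f⟩)
      rw [h2, Finset.sum_singleton]
    rw [Fam.TP_cons, Fam.SP_cons, mul_assoc, ← mul_assoc (l.SP w p), SP_TP h, h1, hl.pt]

/-- Appending an edge at the end. -/
theorem TP_append (w : E.V) (f : E.Ed) : ∀ q : List E.Ed,
    l.TP w (q ++ [f]) = l.P w * (l.T f * l.TP (E.src f) q)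
  | [] => by
    rw [List.nil_append, Fam.TP_cons, Fam.TP_nil, Fam.TP_nil, hl.tp]
  | e :: q => by
    rw [List.cons_append, Fam.TP_cons, TP_append w f q, Fam.TP_cons]
    simp only [mul_assoc]

theorem T_TP (f : E.Ed) (q : List E.Ed) :
    l.T f * l.TP (E.src f) q = l.TP (E.rng f) (q ++ [f]) := by
  rw [hl.TP_append, ← mul_assoc, hl.pt]

theorem T_TP0 {f : E.Ed} {v : E.V} (h : E.src f ≠ v) (q : List E.Ed) :
    l.T f * l.TP v q = 0 := by
  rw [← hl.P_TP v q, ← mul_assoc, hl.TP0 h, zero_mul]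

end IsLeavitt

end Ring

/-- In a *-ring. -/
theorem Fam.star_SP {R : Type*} [NonUnitalRing R] [StarRing R] {l : Fam E R} (hl : IsCK l)
    (w : E.V) : ∀ p : List E.Ed, star (l.SP w p) = l.TP w p
  | [] => hl.sa w
  | e :: p => by
    rw [Fam.SP_cons, Fam.TP_cons, star_mul, Fam.star_SP hl w p, hl.st]

theorem Fam.star_TP {R : Type*} [NonUnitalRing R] [StarRing R] {l : Fam E R} (hl : IsCK l)
    (w : E.V) (p : List E.Ed) : star (l.TP w p) = l.SP w p := by
  rw [← Fam.star_SP hl, star_star]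

end Pool.Agent.Lib.MP_8f60dc_al
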